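import Pool.Agent.Q234.EA.Ite

/-!
# Counting the sites, the bonds and the cut squares of a straight piece
-/

set_option autoImplicit false

open Finset

namespace Pool.Agent.Q234.EA

variable {k : ℕ} {R : Set (Site k)}

/-- near layer `n` the region is a straight tube of radius `m` -/
def Tube (R : Set (Site k)) (n : ℤ) (m : ℕ) : Prop :=
  ∀ v : Site k, n + 1 ≤ lam v → lam v ≤ n + 5 → (v ∈ R ↔ ∀ i : Fin (k + 1), |v i.succ| ≤ (m : ℤ))

lemma site_ext (v v' : Site k) (h : lam v = lam v')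
    (h' : ∀ i : Fin (k + 1), v i.succ = v' i.succ) : v = v' := by
  funext i
  refine Fin.cases ?_ (fun j => h' j) i
  have h1 := h' 0
  rw [Fin.succ_zero_eq_one] at h1
  unfold lam at h
  omega

/-- the box -/
noncomputable def bx (l m : ℕ) : Finset (Fin l → ℤ) := Fintype.piFinset fun _ => Finset.Icc (-(m : ℤ)) m

lemma card_bx (l m : ℕ) : (bx l m).card = (2 * m + 1) ^ l := by
  unfold bx
  rw [Fintype.card_piFinset_const]
  congr 1
  rw [Int.card_Icc]
  omega

lemma mem_bx {l m : ℕ} {u : Fin l → ℤ} : u ∈ bx l m ↔ ∀ i, |u i| ≤ (m : ℤ) := by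
  unfold bx
  simp only [Fintype.mem_piFinset, Finset.mem_Icc, abs_le]

variable (hfin : ∀ c : ℤ, {x : R | lam x.1 ≤ c}.Finite) {n : ℤ} {m : ℕ}

lemma card_layers (ht : Tube R n m) (a b : ℤ) (ha : n + 1 ≤ a) (hb : b ≤ n + 5) :
    ((LL hfin b).filter fun x => a ≤ lam x.1).card ≤ (b + 1 - a).toNat * (2 * m + 1) ^ (k + 1) := by
  have h1 : (Finset.Icc a b ×ˢ bx (k + 1) m).card = (b + 1 - a).toNat * (2 * m + 1) ^ (k + 1) := by
    rw [card_product, card_bx, Int.card_Icc]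
  rw [← h1]
  refine Finset.card_le_card_of_injOn (fun x : R => (lam x.1, fun i : Fin (k + 1) => x.1 i.succ))
    ?_ ?_
  · intro x hx
    have hx' := mem_filter.1 (mem_coe.1 hx)
    rw [mem_LL] at hx'
    rw [mem_coe, mem_product, Finset.mem_Icc, mem_bx]
    refine ⟨⟨hx'.2, hx'.1⟩, ?_⟩
    exact (ht x.1 (by omega) (by omega)).1 x.2
  · intro x _ y _ h
    simp only [Prod.mk.injEq] at h
    exact Subtype.ext (site_ext _ _ h.1 fun i => congrFun h.2 i)

lemma card_MM (ht : Tube R n m) : (MM hfin n).card ≤ 3 * (2 * m + 1) ^ (k + 1) := by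
  have := card_layers hfin ht (n + 2) (n + 4) (by omega) (by omega)
  have h3 : (n + 4 + 1 - (n + 2)).toNat = 3 := by omega
  rwa [h3] at this

/-- the bonds of the pattern -/
noncomputable def DD (n : ℤ) : Finset (Bond k) :=
  (((LL hfin (n + 4)).filter fun x => n + 1 ≤ lam x.1).image fun x => x.1) ×ˢ
    (univ : Finset (Fin (k + 2)))

lemma mem_DD {e : Bond k} : e ∈ DD hfin n ↔ e.1 ∈ R ∧ n + 1 ≤ lam e.1 ∧ lam e.1 ≤ n + 4 := by
  unfold DD
  simp only [mem_product, mem_image, mem_filter, mem_LL, mem_univ, and_true]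
  constructor
  · rintro ⟨x, ⟨h1, h2⟩, h3⟩
    rw [← h3]
    exact ⟨x.2, h2, h1⟩
  · rintro ⟨h1, h2, h3⟩
    exact ⟨⟨e.1, h1⟩, ⟨h3, h2⟩, rfl⟩

lemma card_DD (ht : Tube R n m) :
    (DD hfin n).card ≤ 4 * (k + 2) * (2 * m + 1) ^ (k + 1) := by
  unfold DD
  rw [card_product, Finset.card_univ, Fintype.card_fin]
  have h1 := card_layers hfin ht (n + 1) (n + 4) (by omega) (by omega)
  have h3 : (n + 4 + 1 - (n + 1)).toNat = 4 := by omega
  rw [h3] at h1
  have h2 := (Finset.card_image_le (s := (LL hfin (n + 4)).filter fun x => n + 1 ≤ lam x.1)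
    (f := fun x : R => x.1)).trans h1
  calc _ ≤ (4 * (2 * m + 1) ^ (k + 1)) * (k + 2) := Nat.mul_le_mul_right _ h2
    _ = _ := by ring

lemma eu0_succ (j : Fin (k + 1)) : (eu 0 : Site k) j.succ = 0 := by
  unfold eu
  exact Pi.single_eq_of_ne (Fin.succ_ne_zero j) _

lemma eu1_one : (eu 1 : Site k) 1 = 1 := by
  unfold eu
  exact Pi.single_eq_same _ _

lemma eu0_one : (eu 0 : Site k) 1 = 0 := by
  have := eu0_succ (k := k) 0
  rwa [Fin.succ_zero_eq_one] at this

lemma eu1_ss (j : Fin k) : (eu 1 : Site k) j.succ.succ = 0 := by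
  unfold eu
  exact Pi.single_eq_of_ne (finss j) _

lemma card_CC (ht : Tube R n m) : (CC hfin n).card ≤ 4 * (2 * m + 1) ^ k := by
  classical
  have h1 : (({n + 1, n + 3} : Finset ℤ) ×ˢ ({(m : ℤ), -(m : ℤ) - 1} : Finset ℤ) ×ˢ
      bx k m).card ≤ 4 * (2 * m + 1) ^ k := by
    rw [card_product, card_product, card_bx]
    have a1 : ({n + 1, n + 3} : Finset ℤ).card ≤ 2 := Finset.card_le_two
    have a2 : ({(m : ℤ), -(m : ℤ) - 1} : Finset ℤ).card ≤ 2 := Finset.card_le_two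
    calc _ ≤ 2 * (2 * (2 * m + 1) ^ k) :=
          Nat.mul_le_mul a1 (Nat.mul_le_mul a2 le_rfl)
      _ = _ := by ring
  refine le_trans ?_ h1
  refine Finset.card_le_card_of_injOn
    (fun w : Site k => (lam w, w 1, fun i : Fin k => w i.succ.succ)) ?_ ?_
  · intro w hw
    unfold CC at hw
    rw [mem_coe, mem_filter] at hw
    obtain ⟨_, hl, hT, hF⟩ := hw
    -- membership of the corners
    have mR : ∀ v : Site k, n + 1 ≤ lam v → lam v ≤ n + 5 →
        (v ∈ R ↔ |v 1| ≤ (m : ℤ) ∧ ∀ i : Fin k, |v i.succ.succ| ≤ (m : ℤ)) := by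
      intro v h1 h2
      rw [ht v h1 h2, Fin.forall_fin_succ, Fin.succ_zero_eq_one]
    have l0 : lam (w + eu 0) = lam w + 1 := by rw [lam_add, lam_eu0]
    have l1 : lam (w + eu 1) = lam w + 1 := by rw [lam_add, lam_eu1]
    have l2 : lam (w + eu 0 + eu 1) = lam w + 2 := by
      rw [lam_add, lam_add, lam_eu0, lam_eu1]; ring
    have c0 := mR w (by omega) (by omega)
    have c1 := mR (w + eu 0) (by omega) (by omega)
    have c2 := mR (w + eu 1) (by omega) (by omega)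
    have c3 := mR (w + eu 0 + eu 1) (by omega) (by omega)
    simp only [Pi.add_apply, eu0_one, eu1_one, eu0_succ, eu1_ss, add_zero] at c0 c1 c2 c3
    unfold Tou at hT
    unfold Ful at hF
    rw [c0, c1, c2, c3] at hT hF
    have hi : ∀ i : Fin k, |w i.succ.succ| ≤ (m : ℤ) := by
      rcases hT with h | h | h | h <;> exact h.2
    rw [mem_coe, mem_product, mem_product, mem_bx]
    refine ⟨?_, ?_, hi⟩
    · simp only [mem_insert, mem_singleton]
      exact hl
    · simp only [mem_insert, mem_singleton]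
      have hA : |w 1| ≤ (m : ℤ) ∨ |w 1 + 1| ≤ (m : ℤ) := by
        rcases hT with h | h | h | h
        · exact Or.inl h.1
        · exact Or.inl h.1
        · exact Or.inr h.1
        · exact Or.inr h.1
      have hB : ¬ (|w 1| ≤ (m : ℤ) ∧ |w 1 + 1| ≤ (m : ℤ)) := by
        intro h
        exact hF ⟨⟨h.1, hi⟩, ⟨h.1, hi⟩, ⟨h.2, hi⟩, ⟨h.2, hi⟩⟩
      rw [abs_le, abs_le] at hA hB
      omega
  · intro w _ w' _ h
    simp only [Prod.mk.injEq] at h
    refine site_ext _ _ h.1 fun i => ?_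
    refine Fin.cases ?_ (fun j => congrFun h.2.2 j) i
    rw [Fin.succ_zero_eq_one]
    exact h.2.1

/-- the contraction constant -/
noncomputable def kk (k : ℕ) (B : ℝ) (m : ℕ) : ℝ :=
  Real.exp (-(32 * B * (2 * m + 1) ^ k)) / 64 ^ ((2 * m + 1) ^ (k + 1))

lemma kk_pos (B : ℝ) (m : ℕ) : 0 < kk k B m := by unfold kk; positivity

lemma kk_le_one {B : ℝ} (hB : 0 ≤ B) (m : ℕ) : kk k B m ≤ 1 := by
  unfold kk
  rw [div_le_one (by positivity)]
  have h1 : Real.exp (-(32 * B * (2 * m + 1) ^ k)) ≤ 1 := by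
    rw [Real.exp_le_one_iff]
    have : 0 ≤ 32 * B * (2 * (m : ℝ) + 1) ^ k := by positivity
    linarith
  exact h1.trans (one_le_pow₀ (by norm_num))

lemma kk_le_kap (ht : Tube R n m) {b B : ℝ} (hb : 0 ≤ b) (hB : b ≤ B) :
    kk k B m ≤ Split.kap (MM hfin n) (UU hfin b n) (VV hfin b n) := by
  have h1 := card_MM hfin ht
  have h2 := card_CC hfin ht
  have h3 := UU_sub_VV hfin b n
  have h2' : ((CC hfin n).card : ℝ) ≤ 4 * (2 * (m : ℝ) + 1) ^ k := by exact_mod_cast h2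
  have h4 : -(16 * B * (2 * (m : ℝ) + 1) ^ k) ≤ VV hfin b n - UU hfin b n := by
    have h5 : 4 * b * ((CC hfin n).card : ℝ) ≤ 4 * B * (4 * (2 * (m : ℝ) + 1) ^ k) :=
      mul_le_mul (by linarith) h2' (by positivity) (by linarith)
    linarith
  have h5 : (2 : ℝ) ^ (MM hfin n).card ≤ 8 ^ ((2 * m + 1) ^ (k + 1)) := by
    calc (2 : ℝ) ^ (MM hfin n).card ≤ 2 ^ (3 * (2 * m + 1) ^ (k + 1)) :=
          pow_le_pow_right₀ (by norm_num) h1
      _ = 8 ^ ((2 * m + 1) ^ (k + 1)) := by rw [pow_mul]; norm_num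
  unfold Split.kap
  have h6 : Real.exp (-(16 * B * (2 * (m : ℝ) + 1) ^ k)) / 8 ^ ((2 * m + 1) ^ (k + 1)) ≤
      Real.exp (VV hfin b n - UU hfin b n) / 2 ^ (MM hfin n).card := by
    apply div_le_div₀ (Real.exp_pos _).le (Real.exp_le_exp.2 h4) (by positivity) h5
  have h7 := pow_le_pow_left₀ (by positivity) h6 2
  refine le_trans (le_of_eq ?_) h7
  unfold kk
  rw [div_pow, ← Real.exp_nat_mul, ← pow_mul, mul_comm ((2 * m + 1) ^ (k + 1)) 2, pow_mul]
  congr 1
  · congr 1; push_cast; ring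
  · norm_num

end Pool.Agent.Q234.EA
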