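import Pool.Agent.Q234.EA.Gib

/-!
# Contraction across a decoupling layer
-/

set_option autoImplicit false

open Finset

namespace Pool.Agent.Q234.EA

variable {X : Type} [DecidableEq X] (S : Spec X)

/-- The energy in `Λ` is the sum of a part of the left coordinates in `Λ`, a part of the right
coordinates, and a part `G ≤ U`, which is at least `V` when the spins in `Mid` are `+`. -/
structure Split (Λ Mid : Finset X) (Rt : X → Prop) (U V : ℝ) where
  /-- left part -/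
  Hl : (X → Bool) → ℝ
  /-- right part -/
  Hr : (X → Bool) → ℝ
  /-- middle part -/
  G : (X → Bool) → ℝ
  split : ∀ σ, S.H Λ σ = Hl σ + G σ + Hr σ
  left : ∀ σ σ', (∀ x ∈ Λ, x ∉ Mid → ¬ Rt x → σ x = σ' x) → Hl σ = Hl σ'
  right : ∀ σ σ', (∀ x, Rt x → σ x = σ' x) → Hr σ = Hr σ'
  upper : ∀ σ, G σ ≤ U
  lower : ∀ σ, (∀ x ∈ Mid, σ x = true) → V ≤ G σ
  sub : Mid ⊆ Λ
  nr : ∀ x ∈ Mid, ¬ Rt x

variable {S} {Λ Mid : Finset X} {Rt : X → Prop} {U V : ℝ}

/-- set the spins in `Mid` to `+` -/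
def mp (Mid : Finset X) (η : Λ → Bool) : Λ → Bool := fun x => if x.1 ∈ Mid then true else η x

lemma mp_mp (η : Λ → Bool) : mp Mid (mp Mid η) = mp Mid η := by
  funext x
  unfold mp
  split_ifs <;> rfl

lemma glue_mp (η : Λ → Bool) (ω : X → Bool) {x : X} (hx : x ∉ Mid) :
    glue Λ (mp Mid η) ω x = glue Λ η ω x := by
  by_cases h : x ∈ Λ
  · rw [glue_mem _ _ h, glue_mem _ _ h]
    unfold mp
    rw [if_neg hx]
  · rw [glue_not_mem _ _ h, glue_not_mem _ _ h]

lemma glue_mp_mid (hM : Mid ⊆ Λ) (η : Λ → Bool) (ω : X → Bool) {x : X} (hx : x ∈ Mid) :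
    glue Λ (mp Mid η) ω x = true := by
  rw [glue_mem _ _ (hM hx)]
  unfold mp
  rw [if_pos hx]

/-- sums of functions which do not depend on the spins in `Mid` -/
lemma sum_mp (F : (Λ → Bool) → ℝ) (hF0 : ∀ η, 0 ≤ F η)
    (hF : ∀ η, F (mp Mid η) = F η) :
    ∑ η, F η ≤ 2 ^ Mid.card * ∑ η ∈ univ.filter (fun η : Λ → Bool => mp Mid η = η), F η := by
  classical
  have h1 : ∑ η, F η = ∑ ζ ∈ univ.filter (fun η : Λ → Bool => mp Mid η = η),
      ∑ η ∈ univ.filter (fun η : Λ → Bool => mp Mid η = ζ), F η := by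
    rw [Finset.sum_fiberwise_of_maps_to]
    intro η _
    simp only [mem_filter, mem_univ, true_and]
    exact mp_mp η
  rw [h1, Finset.mul_sum]
  refine Finset.sum_le_sum fun ζ hζ => ?_
  have h2 : ∀ η ∈ univ.filter (fun η : Λ → Bool => mp Mid η = ζ), F η = F ζ := by
    intro η hη
    rw [← hF η, (mem_filter.1 hη).2]
  rw [Finset.sum_congr rfl h2, Finset.sum_const, nsmul_eq_mul]
  refine mul_le_mul_of_nonneg_right ?_ (hF0 ζ)
  have h3 : (univ.filter (fun η : Λ → Bool => mp Mid η = ζ)).card ≤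
      Fintype.card (Mid → Bool) := by
    have := Finset.card_le_card_of_injOn (s := univ.filter (fun η : Λ → Bool => mp Mid η = ζ))
      (t := (univ : Finset (Mid → Bool)))
      (fun (η : Λ → Bool) (x : Mid) => if h : x.1 ∈ Λ then η ⟨x.1, h⟩ else true)
      (fun _ _ => mem_coe.2 (mem_univ _)) (by
        intro η hη η' hη' he
        have e1 := (mem_filter.1 (mem_coe.1 hη)).2
        have e2 := (mem_filter.1 (mem_coe.1 hη')).2
        funext x
        by_cases hx : x.1 ∈ Mid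
        · have := congrFun he ⟨x.1, hx⟩
          simp only [x.2, dif_pos] at this
          exact this
        · have h4 := congrFun e1 x
          have h5 := congrFun e2 x
          unfold mp at h4 h5
          rw [if_neg hx] at h4 h5
          rw [h4, h5])
    rwa [Finset.card_univ] at this
  have h4 : Fintype.card (Mid → Bool) = 2 ^ Mid.card := by simp
  rw [h4] at h3
  exact_mod_cast h3

namespace Split

variable (P : Split S Λ Mid Rt U V)

/-- reference sum -/
noncomputable def aa (h : (X → Bool) → ℝ) (ω : X → Bool) : ℝ :=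
  ∑ η : Λ → Bool, h (glue Λ η ω) * Real.exp (P.Hl (glue Λ η ω) + P.Hr (glue Λ η ω))

/-- unnormalised average -/
noncomputable def NN (S : Spec X) (Λ : Finset X) (h : (X → Bool) → ℝ) (ω : X → Bool) : ℝ :=
  ∑ η : Λ → Bool, Real.exp (S.H Λ (glue Λ η ω)) * h (glue Λ η ω)

lemma up (h : (X → Bool) → ℝ) (h0 : ∀ σ, 0 ≤ h σ) (ω : X → Bool) :
    NN S Λ h ω ≤ Real.exp U * P.aa h ω := by
  unfold NN aa
  rw [Finset.mul_sum]
  refine Finset.sum_le_sum fun η _ => ?_
  rw [P.split]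
  have h1 : Real.exp (P.Hl (glue Λ η ω) + P.G (glue Λ η ω) + P.Hr (glue Λ η ω)) ≤
      Real.exp U * Real.exp (P.Hl (glue Λ η ω) + P.Hr (glue Λ η ω)) := by
    rw [← Real.exp_add]
    apply Real.exp_le_exp.2
    linarith [P.upper (glue Λ η ω)]
  calc _ ≤ (Real.exp U * Real.exp (P.Hl (glue Λ η ω) + P.Hr (glue Λ η ω))) * h (glue Λ η ω) :=
        mul_le_mul_of_nonneg_right h1 (h0 _)
    _ = _ := by ring

lemma low (h : (X → Bool) → ℝ) (h0 : ∀ σ, 0 ≤ h σ)
    (hl : ∀ σ σ', (∀ x ∈ Λ, x ∉ Mid → ¬ Rt x → σ x = σ' x) → h σ = h σ') (ω : X → Bool) :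
    Real.exp V * P.aa h ω ≤ 2 ^ Mid.card * NN S Λ h ω := by
  classical
  have h1 := sum_mp (Mid := Mid) (fun η : Λ → Bool => h (glue Λ η ω) *
    Real.exp (P.Hl (glue Λ η ω) + P.Hr (glue Λ η ω)))
    (fun η => mul_nonneg (h0 _) (Real.exp_pos _).le) (by
      intro η
      have e1 : h (glue Λ (mp Mid η) ω) = h (glue Λ η ω) :=
        hl _ _ fun x _ hx _ => glue_mp η ω hx
      have e2 : P.Hl (glue Λ (mp Mid η) ω) = P.Hl (glue Λ η ω) :=
        P.left _ _ fun x _ hx _ => glue_mp η ω hx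
      have e3 : P.Hr (glue Λ (mp Mid η) ω) = P.Hr (glue Λ η ω) :=
        P.right _ _ fun x hx => glue_mp η ω fun hm => P.nr x hm hx
      simp only [e1, e2, e3])
  have h2 : ∑ η ∈ univ.filter (fun η : Λ → Bool => mp Mid η = η), (h (glue Λ η ω) *
      Real.exp (P.Hl (glue Λ η ω) + P.Hr (glue Λ η ω))) * Real.exp V ≤ NN S Λ h ω := by
    unfold NN
    refine (Finset.sum_le_sum fun η hη => ?_).trans
      (Finset.sum_le_sum_of_subset_of_nonneg (Finset.filter_subset _ _)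
        fun η _ _ => mul_nonneg (Real.exp_pos _).le (h0 _))
    have e1 := (mem_filter.1 hη).2
    have e2 : V ≤ P.G (glue Λ η ω) := by
      apply P.lower
      intro x hx
      rw [← e1]
      exact glue_mp_mid P.sub η ω hx
    rw [P.split]
    have e3 : Real.exp (P.Hl (glue Λ η ω) + P.Hr (glue Λ η ω)) * Real.exp V ≤
        Real.exp (P.Hl (glue Λ η ω) + P.G (glue Λ η ω) + P.Hr (glue Λ η ω)) := by
      rw [← Real.exp_add]
      apply Real.exp_le_exp.2
      linarith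
    calc _ = (Real.exp (P.Hl (glue Λ η ω) + P.Hr (glue Λ η ω)) * Real.exp V) *
          h (glue Λ η ω) := by ring
      _ ≤ _ := mul_le_mul_of_nonneg_right e3 (h0 _)
  rw [← Finset.sum_mul] at h2
  unfold aa
  calc _ = (∑ η : Λ → Bool, h (glue Λ η ω) *
        Real.exp (P.Hl (glue Λ η ω) + P.Hr (glue Λ η ω))) * Real.exp V := by ring
    _ ≤ (2 ^ Mid.card * ∑ η ∈ univ.filter (fun η : Λ → Bool => mp Mid η = η),
        (h (glue Λ η ω) * Real.exp (P.Hl (glue Λ η ω) + P.Hr (glue Λ η ω)))) * Real.exp V :=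
        mul_le_mul_of_nonneg_right h1 (Real.exp_pos _).le
    _ = 2 ^ Mid.card * ((∑ η ∈ univ.filter (fun η : Λ → Bool => mp Mid η = η),
        (h (glue Λ η ω) * Real.exp (P.Hl (glue Λ η ω) + P.Hr (glue Λ η ω)))) * Real.exp V) := by
        ring
    _ ≤ _ := mul_le_mul_of_nonneg_left h2 (by positivity)

open Classical in
/-- exchange of the right coordinates -/
noncomputable def swp (Λ : Finset X) (Rt : X → Prop) :
    Equiv.Perm ((Λ → Bool) × (Λ → Bool)) :=
  Function.Involutive.toPerm (fun p => (fun x => if Rt x.1 then p.2 x else p.1 x,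
    fun x => if Rt x.1 then p.1 x else p.2 x)) (by
    rintro ⟨η, η'⟩
    refine Prod.ext ?_ ?_ <;> funext x <;> simp only <;> split_ifs <;> rfl)

lemma cross (h : (X → Bool) → ℝ)
    (hl : ∀ σ σ', (∀ x ∈ Λ, x ∉ Mid → ¬ Rt x → σ x = σ' x) → h σ = h σ') (ω ω' : X → Bool) :
    P.aa h ω * P.aa (fun _ => 1) ω' = P.aa h ω' * P.aa (fun _ => 1) ω := by
  classical
  unfold aa
  rw [Finset.sum_mul_sum, Finset.sum_mul_sum, ← Fintype.sum_prod_type', ← Fintype.sum_prod_type',
    ← Equiv.sum_comp (swp Λ Rt) (fun x : (Λ → Bool) × (Λ → Bool) => _)]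
  refine Finset.sum_congr rfl fun p _ => ?_
  obtain ⟨η, η'⟩ := p
  have s1 : ((swp Λ Rt) (η, η')).1 = fun x : Λ => if Rt x.1 then η' x else η x := rfl
  have s2 : ((swp Λ Rt) (η, η')).2 = fun x : Λ => if Rt x.1 then η x else η' x := rfl
  rw [s1, s2]
  have e1 : h (glue Λ (fun x : Λ => if Rt x.1 then η' x else η x) ω) = h (glue Λ η ω') := by
    apply hl
    intro x hx _ hr
    rw [glue_mem _ _ hx, glue_mem _ _ hx, if_neg hr]
  have e2 : P.Hl (glue Λ (fun x : Λ => if Rt x.1 then η' x else η x) ω) =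
      P.Hl (glue Λ η ω') := by
    apply P.left
    intro x hx _ hr
    rw [glue_mem _ _ hx, glue_mem _ _ hx, if_neg hr]
  have e3 : P.Hr (glue Λ (fun x : Λ => if Rt x.1 then η' x else η x) ω) =
      P.Hr (glue Λ η' ω) := by
    apply P.right
    intro x hr
    by_cases hx : x ∈ Λ
    · rw [glue_mem _ _ hx, glue_mem _ _ hx, if_pos hr]
    · rw [glue_not_mem _ _ hx, glue_not_mem _ _ hx]
  have e4 : P.Hl (glue Λ (fun x : Λ => if Rt x.1 then η x else η' x) ω') =
      P.Hl (glue Λ η' ω) := by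
    apply P.left
    intro x hx _ hr
    rw [glue_mem _ _ hx, glue_mem _ _ hx, if_neg hr]
  have e5 : P.Hr (glue Λ (fun x : Λ => if Rt x.1 then η x else η' x) ω') =
      P.Hr (glue Λ η ω') := by
    apply P.right
    intro x hr
    by_cases hx : x ∈ Λ
    · rw [glue_mem _ _ hx, glue_mem _ _ hx, if_pos hr]
    · rw [glue_not_mem _ _ hx, glue_not_mem _ _ hx]
  rw [e1, e2, e3, e4, e5]
  simp only [Real.exp_add]
  ring

lemma aa_pos (ω : X → Bool) : 0 < P.aa (fun _ => 1) ω := by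
  unfold aa
  exact Finset.sum_pos (fun η _ => by rw [one_mul]; exact Real.exp_pos _) Finset.univ_nonempty

lemma aa_nonneg (h : (X → Bool) → ℝ) (h0 : ∀ σ, 0 ≤ h σ) (ω : X → Bool) : 0 ≤ P.aa h ω := by
  unfold aa
  exact Finset.sum_nonneg fun η _ => mul_nonneg (h0 _) (Real.exp_pos _).le

/-- the constant -/
noncomputable def kap (Mid : Finset X) (U V : ℝ) : ℝ :=
  (Real.exp (V - U) / 2 ^ Mid.card) ^ 2

include P in
theorem compare (h : (X → Bool) → ℝ) (h0 : ∀ σ, 0 ≤ h σ)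
    (hl : ∀ σ σ', (∀ x ∈ Λ, x ∉ Mid → ¬ Rt x → σ x = σ' x) → h σ = h σ') (ω ω' : X → Bool) :
    kap Mid U V * gE S Λ ω' h ≤ gE S Λ ω h := by
  set q : ℝ := Real.exp (V - U) / 2 ^ Mid.card with hq
  have hM : (0 : ℝ) < 2 ^ Mid.card := by positivity
  have hVU : Real.exp V = Real.exp (V - U) * Real.exp U := by rw [← Real.exp_add]; congr 1; ring
  have hq0 : 0 < q := by positivity
  -- bounds for each boundary condition
  have b1 : ∀ τ : X → Bool, q * (P.aa h τ / P.aa (fun _ => 1) τ) ≤ gE S Λ τ h := by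
    intro τ
    have hZ : Zp S Λ τ = NN S Λ (fun _ => 1) τ := by
      unfold Zp NN
      exact Finset.sum_congr rfl fun η _ => (mul_one _).symm
    have hg : gE S Λ τ h = NN S Λ h τ / NN S Λ (fun _ => 1) τ := by
      unfold gE
      rw [hZ]
      rfl
    have hZ0 : 0 < NN S Λ (fun _ => 1) τ := by rw [← hZ]; exact Zp_pos S Λ τ
    rw [hg, le_div_iff₀ hZ0, ← mul_div_assoc, div_mul_eq_mul_div, div_le_iff₀ (P.aa_pos τ)]
    have u1 := P.up (fun _ => 1) (fun _ => zero_le_one) τ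
    have l1 := P.low h h0 hl τ
    have a0 := P.aa_nonneg h h0 τ
    have a1 := P.aa_pos τ
    calc q * P.aa h τ * NN S Λ (fun _ => 1) τ
        ≤ q * P.aa h τ * (Real.exp U * P.aa (fun _ => 1) τ) :=
          mul_le_mul_of_nonneg_left u1 (mul_nonneg hq0.le a0)
      _ = (Real.exp V * P.aa h τ) / 2 ^ Mid.card * P.aa (fun _ => 1) τ := by
          rw [hq, hVU]; field_simp
      _ ≤ (2 ^ Mid.card * NN S Λ h τ) / 2 ^ Mid.card * P.aa (fun _ => 1) τ := by
          refine mul_le_mul_of_nonneg_right ?_ a1.le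
          exact div_le_div_of_nonneg_right l1 hM.le
      _ = NN S Λ h τ * P.aa (fun _ => 1) τ := by
          rw [mul_div_cancel_left₀ _ hM.ne']
  have b2 : ∀ τ : X → Bool, q * gE S Λ τ h ≤ P.aa h τ / P.aa (fun _ => 1) τ := by
    intro τ
    have hZ : Zp S Λ τ = NN S Λ (fun _ => 1) τ := by
      unfold Zp NN
      exact Finset.sum_congr rfl fun η _ => (mul_one _).symm
    have hg : gE S Λ τ h = NN S Λ h τ / NN S Λ (fun _ => 1) τ := by
      unfold gE
      rw [hZ]
      rfl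
    have hZ0 : 0 < NN S Λ (fun _ => 1) τ := by rw [← hZ]; exact Zp_pos S Λ τ
    rw [hg, le_div_iff₀ (P.aa_pos τ), ← mul_div_assoc, div_mul_eq_mul_div, div_le_iff₀ hZ0]
    have u1 := P.up h h0 τ
    have l1 := P.low (fun _ => 1) (fun _ => zero_le_one) (fun _ _ _ => rfl) τ
    have a0 := P.aa_nonneg h h0 τ
    have a1 := P.aa_pos τ
    calc q * NN S Λ h τ * P.aa (fun _ => 1) τ
        ≤ q * (Real.exp U * P.aa h τ) * P.aa (fun _ => 1) τ := by
          refine mul_le_mul_of_nonneg_right ?_ a1.le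
          exact mul_le_mul_of_nonneg_left u1 hq0.le
      _ = P.aa h τ * ((Real.exp V * P.aa (fun _ => 1) τ) / 2 ^ Mid.card) := by
          rw [hq, hVU]; field_simp
      _ ≤ P.aa h τ * ((2 ^ Mid.card * NN S Λ (fun _ => 1) τ) / 2 ^ Mid.card) := by
          refine mul_le_mul_of_nonneg_left ?_ a0
          exact div_le_div_of_nonneg_right l1 hM.le
      _ = P.aa h τ * NN S Λ (fun _ => 1) τ := by
          rw [mul_div_cancel_left₀ _ hM.ne']
  have hx : P.aa h ω / P.aa (fun _ => 1) ω = P.aa h ω' / P.aa (fun _ => 1) ω' := by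
    rw [div_eq_div_iff (P.aa_pos ω).ne' (P.aa_pos ω').ne']
    exact P.cross h hl ω ω'
  calc kap Mid U V * gE S Λ ω' h = q * (q * gE S Λ ω' h) := by
        unfold kap; ring
    _ ≤ q * (P.aa h ω' / P.aa (fun _ => 1) ω') := mul_le_mul_of_nonneg_left (b2 ω') hq0.le
    _ = q * (P.aa h ω / P.aa (fun _ => 1) ω) := by rw [hx]
    _ ≤ gE S Λ ω h := b1 ω

include P in
/-- **Contraction.** -/
theorem contract (g : (X → Bool) → ℝ)
    (hl : ∀ σ σ', (∀ x ∈ Λ, x ∉ Mid → ¬ Rt x → σ x = σ' x) → g σ = g σ') {κ δ : ℝ}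
    (hκ : κ ≤ kap Mid U V) (hk : κ ≤ 1) (hδ : 0 ≤ δ) (hosc : ∀ σ σ', |g σ - g σ'| ≤ δ) (ω ω' : X → Bool) :
    |gE S Λ ω g - gE S Λ ω' g| ≤ (1 - κ) * δ := by
  -- the minimum of `g`
  have hfin : (Set.range g).Finite := by
    have : Set.range g ⊆ Set.range (fun η : Λ → Bool => g (glue Λ η fun _ => true)) := by
      rintro _ ⟨σ, rfl⟩
      refine ⟨fun x => σ x.1, ?_⟩
      apply hl
      intro x hx _ _
      rw [glue_mem _ _ hx]
    exact (Set.finite_range _).subset this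
  obtain ⟨σ0, hσ0⟩ : ∃ σ0, ∀ σ, g σ0 ≤ g σ := by
    obtain ⟨y, ⟨σ0, rfl⟩, hy⟩ := hfin.exists_minimal (Set.range_nonempty g)
    refine ⟨σ0, fun σ => ?_⟩
    by_contra hc
    push Not at hc
    exact absurd (hy ⟨σ, rfl⟩ hc.le) (not_le.2 hc)
  set m := g σ0 with hm
  have hb : ∀ σ, g σ ≤ m + δ := fun σ => by
    have := abs_le.1 (hosc σ σ0)
    linarith [this.2]
  have g1 : ∀ τ, gE S Λ τ (fun σ => g σ - m) = gE S Λ τ g - m := by
    intro τ
    have := gE_lin S Λ τ g (fun _ => 1) 1 (-m)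
    rw [gE_const] at this
    rw [show (fun σ => g σ - m) = fun σ => 1 * g σ + -m * (fun _ => (1 : ℝ)) σ by
      funext σ; ring, this]
    ring
  have g2 : ∀ τ, gE S Λ τ (fun σ => m + δ - g σ) = m + δ - gE S Λ τ g := by
    intro τ
    have := gE_lin S Λ τ g (fun _ => 1) (-1) (m + δ)
    rw [gE_const] at this
    rw [show (fun σ => m + δ - g σ) = fun σ => -1 * g σ + (m + δ) * (fun _ => (1 : ℝ)) σ by
      funext σ; ring, this]
    ring
  have c1 := fun τ τ' => P.compare (fun σ => g σ - m) (fun σ => by linarith [hσ0 σ])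
    (fun σ σ' h => by simp only [hl σ σ' h]) τ τ'
  have c2 := fun τ τ' => P.compare (fun σ => m + δ - g σ) (fun σ => by linarith [hb σ])
    (fun σ σ' h => by simp only [hl σ σ' h]) τ τ'
  simp only [g1] at c1
  simp only [g2] at c2
  have n1 : ∀ τ, m ≤ gE S Λ τ g := by
    intro τ
    have := gE_mono S Λ τ (fun _ => m) g (fun η => hσ0 _)
    rwa [gE_const] at this
  have n2 : ∀ τ, gE S Λ τ g ≤ m + δ := by
    intro τ
    have := gE_mono S Λ τ g (fun _ => m + δ) (fun η => hb _)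
    rwa [gE_const] at this
  have key : ∀ τ τ', gE S Λ τ g - gE S Λ τ' g ≤ (1 - κ) * δ := by
    intro τ τ'
    have d1 := c2 τ τ'
    have d2 : κ * (m + δ - gE S Λ τ' g) ≤ m + δ - gE S Λ τ g :=
      (mul_le_mul_of_nonneg_right hκ (by linarith [n2 τ'])).trans d1
    have d3 := c1 τ' τ
    have d4 : κ * (gE S Λ τ g - m) ≤ gE S Λ τ' g - m :=
      (mul_le_mul_of_nonneg_right hκ (by linarith [n1 τ])).trans d3
    have e1 := n1 τ
    have e2 := n2 τ'
    nlinarith [mul_nonneg (sub_nonneg.2 hk) (sub_nonneg.2 (n1 τ'))]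
  rw [abs_le]
  constructor
  · linarith [key ω' ω]
  · exact key ω ω'

end Split

end Pool.Agent.Q234.EA
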