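import Pool.Agent.Q234.EA.Geo

/-!
# The decoupler: the middle energy does not depend on the outside
-/

set_option autoImplicit false

open Finset

namespace Pool.Agent.Q234.EA

variable {k : ℕ} {R : Set (Site k)} {K : Bond k → ℝ}

/-- the sign pattern at layer `n` -/
def pat (n : ℤ) (v : Site k) (i : Fin (k + 2)) : ℝ :=
  if i = 1 ∧ (lam v = n + 1 ∨ lam v = n + 4) then -1 else 1

/-- the couplings follow the pattern -/
def Pat (R : Set (Site k)) (K : Bond k → ℝ) (b : ℝ) (n : ℤ) : Prop :=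
  ∀ (v : Site k) (i : Fin (k + 2)), v ∈ R → v + eu i ∈ R → n + 1 ≤ lam v → lam v ≤ n + 4 →
    K (v, i) = b * pat n v i

lemma term_pat {b : ℝ} {n : ℤ} (hp : Pat R K b n) (σ : R → Bool) (v : Site k) (i : Fin (k + 2))
    (h1 : n + 1 ≤ lam v) (h2 : lam v ≤ n + 4) :
    term R K σ (v, i) = b * pat n v i * (sp R σ v * sp R σ (v + eu i)) := by
  by_cases ht : v ∈ R ∧ v + eu i ∈ R
  · unfold term
    rw [hp v i ht.1 ht.2 h1 h2]
  · have h0 : sp R σ v * sp R σ (v + eu i) = 0 := by
      rcases not_and_or.1 ht with h | h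
      · rw [sp_not R σ h, zero_mul]
      · rw [sp_not R σ h, mul_zero]
    unfold term
    simp only [h0, mul_zero]

lemma fin01 : ¬ (0 : Fin (k + 2)) = 1 := by
  intro h
  exact absurd h (by simp)

lemma finss (i : Fin k) : ¬ (i.succ.succ : Fin (k + 2)) = 1 := by
  intro h
  rw [← Fin.succ_zero_eq_one] at h
  exact (Fin.succ_ne_zero i) (Fin.succ_injective _ h)

lemma four_le (x a b c : ℝ) (hx : x = 1 ∨ x = -1 ∨ x = 0) (ha : a = 1 ∨ a = -1 ∨ a = 0)
    (hb : b = 1 ∨ b = -1 ∨ b = 0) (hc : c = 1 ∨ c = -1 ∨ c = 0) :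
    x * a - x * b + b * c + a * c ≤ 2 ∧ -2 ≤ x * a - x * b + b * c + a * c := by
  rcases ha with rfl | rfl | rfl <;> rcases hb with rfl | rfl | rfl <;>
    rcases hx with rfl | rfl | rfl <;> rcases hc with rfl | rfl | rfl <;>
    constructor <;> norm_num

lemma four_le' (x a b c : ℝ) (hx : x = 1 ∨ x = -1 ∨ x = 0) (ha : a = 1 ∨ a = -1 ∨ a = 0)
    (hb : b = 1 ∨ b = -1 ∨ b = 0) (hc : c = 1 ∨ c = -1 ∨ c = 0) :
    x * a + x * b + b * c - a * c ≤ 2 ∧ -2 ≤ x * a + x * b + b * c - a * c := by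
  rcases ha with rfl | rfl | rfl <;> rcases hb with rfl | rfl | rfl <;>
    rcases hx with rfl | rfl | rfl <;> rcases hc with rfl | rfl | rfl <;>
    constructor <;> norm_num

lemma quad_left {b : ℝ} {n : ℤ} (hp : Pat R K b n) (σ : R → Bool) (w : Site k)
    (h : lam w = n + 1) :
    quad K σ w = b * (sp R σ w * sp R σ (w + eu 0) - sp R σ w * sp R σ (w + eu 1) +
      sp R σ (w + eu 1) * sp R σ (w + eu 0 + eu 1) +
      sp R σ (w + eu 0) * sp R σ (w + eu 0 + eu 1)) := by
  have l0 : lam (w + eu 0) = n + 2 := by rw [lam_add, lam_eu0]; omega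
  have l1 : lam (w + eu 1) = n + 2 := by rw [lam_add, lam_eu1]; omega
  have hc : w + eu 1 + eu 0 = w + eu 0 + eu 1 := add_right_comm _ _ _
  unfold quad
  rw [term_pat hp σ w 0 (by omega) (by omega), term_pat hp σ w 1 (by omega) (by omega),
    term_pat hp σ (w + eu 1) 0 (by omega) (by omega),
    term_pat hp σ (w + eu 0) 1 (by omega) (by omega), hc]
  have p1 : pat n w 0 = 1 := by
    unfold pat; rw [if_neg]; exact fun h => fin01 h.1
  have p2 : pat n w 1 = -1 := by
    unfold pat; rw [if_pos]; exact ⟨rfl, Or.inl h⟩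
  have p3 : pat n (w + eu 1) 0 = 1 := by
    unfold pat; rw [if_neg]; exact fun h => fin01 h.1
  have p4 : pat n (w + eu 0) 1 = 1 := by
    unfold pat; rw [if_neg]; rintro ⟨_, h⟩; omega
  rw [p1, p2, p3, p4]
  ring

lemma quad_right {b : ℝ} {n : ℤ} (hp : Pat R K b n) (σ : R → Bool) (w : Site k)
    (h : lam w = n + 3) :
    quad K σ w = b * (sp R σ w * sp R σ (w + eu 0) + sp R σ w * sp R σ (w + eu 1) +
      sp R σ (w + eu 1) * sp R σ (w + eu 0 + eu 1) -
      sp R σ (w + eu 0) * sp R σ (w + eu 0 + eu 1)) := by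
  have l0 : lam (w + eu 0) = n + 4 := by rw [lam_add, lam_eu0]; omega
  have l1 : lam (w + eu 1) = n + 4 := by rw [lam_add, lam_eu1]; omega
  have hc : w + eu 1 + eu 0 = w + eu 0 + eu 1 := add_right_comm _ _ _
  unfold quad
  rw [term_pat hp σ w 0 (by omega) (by omega), term_pat hp σ w 1 (by omega) (by omega),
    term_pat hp σ (w + eu 1) 0 (by omega) (by omega),
    term_pat hp σ (w + eu 0) 1 (by omega) (by omega), hc]
  have p1 : pat n w 0 = 1 := by
    unfold pat; rw [if_neg]; exact fun h => fin01 h.1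
  have p2 : pat n w 1 = 1 := by
    unfold pat; rw [if_neg]; rintro ⟨_, h⟩; omega
  have p3 : pat n (w + eu 1) 0 = 1 := by
    unfold pat; rw [if_neg]; exact fun h => fin01 h.1
  have p4 : pat n (w + eu 0) 1 = -1 := by
    unfold pat; rw [if_pos]; exact ⟨rfl, Or.inr (by omega)⟩
  rw [p1, p2, p3, p4]
  ring

lemma quad_zero (σ : R → Bool) (w : Site k) (h : ¬ Tou R w) : quad K σ w = 0 := by
  unfold Tou at h
  push Not at h
  have hc : w + eu 1 + eu 0 = w + eu 0 + eu 1 := add_right_comm _ _ _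
  unfold quad term
  simp only [hc, sp_not R σ h.1, sp_not R σ h.2.1, sp_not R σ h.2.2.1, sp_not R σ h.2.2.2]
  ring

open Classical in
/-- upper value of a square -/
noncomputable def uu (R : Set (Site k)) (b : ℝ) (w : Site k) : ℝ := if Tou R w then 2 * b else 0

open Classical in
/-- lower value of a square -/
noncomputable def ll (R : Set (Site k)) (b : ℝ) (w : Site k) : ℝ :=
  if Ful R w then 2 * b else if Tou R w then -2 * b else 0

lemma quad_le {b : ℝ} (hb : 0 ≤ b) {n : ℤ} (hp : Pat R K b n) (σ : R → Bool) (w : Site k)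
    (h : lam w = n + 1 ∨ lam w = n + 3) : quad K σ w ≤ uu R b w := by
  unfold uu
  split_ifs with ht
  · rcases h with h | h
    · rw [quad_left hp σ w h]
      have := (four_le _ _ _ _ (sp_cases R σ w) (sp_cases R σ (w + eu 0))
        (sp_cases R σ (w + eu 1)) (sp_cases R σ (w + eu 0 + eu 1))).1
      nlinarith
    · rw [quad_right hp σ w h]
      have := (four_le' _ _ _ _ (sp_cases R σ w) (sp_cases R σ (w + eu 0))
        (sp_cases R σ (w + eu 1)) (sp_cases R σ (w + eu 0 + eu 1))).1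
      nlinarith
  · rw [quad_zero σ w ht]

lemma quad_ge {b : ℝ} (hb : 0 ≤ b) {n : ℤ} (hp : Pat R K b n) (σ : R → Bool)
    (hσ : ∀ x : R, n + 2 ≤ lam x.1 → lam x.1 ≤ n + 4 → σ x = true) (w : Site k)
    (h : lam w = n + 1 ∨ lam w = n + 3) : ll R b w ≤ quad K σ w := by
  have hone : ∀ v : Site k, v ∈ R → n + 2 ≤ lam v → lam v ≤ n + 4 → sp R σ v = 1 := by
    intro v hv h1 h2
    rw [sp_mem R σ hv, hσ ⟨v, hv⟩ h1 h2]
    rfl
  unfold ll
  split_ifs with hf ht
  · obtain ⟨f0, f1, f2, f3⟩ := hf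
    rcases h with h | h
    · rw [quad_left hp σ w h, hone (w + eu 0) f1 (by rw [lam_add, lam_eu0]; omega)
        (by rw [lam_add, lam_eu0]; omega), hone (w + eu 1) f2 (by rw [lam_add, lam_eu1]; omega)
        (by rw [lam_add, lam_eu1]; omega), hone (w + eu 0 + eu 1) f3
        (by rw [lam_add, lam_add, lam_eu0, lam_eu1]; omega)
        (by rw [lam_add, lam_add, lam_eu0, lam_eu1]; omega)]
      linarith
    · rw [quad_right hp σ w h, hone (w + eu 0) f1 (by rw [lam_add, lam_eu0]; omega)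
        (by rw [lam_add, lam_eu0]; omega), hone (w + eu 1) f2 (by rw [lam_add, lam_eu1]; omega)
        (by rw [lam_add, lam_eu1]; omega), hone w f0 (by omega) (by omega)]
      linarith
  · rcases h with h | h
    · rw [quad_left hp σ w h]
      have := (four_le _ _ _ _ (sp_cases R σ w) (sp_cases R σ (w + eu 0))
        (sp_cases R σ (w + eu 1)) (sp_cases R σ (w + eu 0 + eu 1))).2
      nlinarith
    · rw [quad_right hp σ w h]
      have := (four_le' _ _ _ _ (sp_cases R σ w) (sp_cases R σ (w + eu 0))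
        (sp_cases R σ (w + eu 1)) (sp_cases R σ (w + eu 0 + eu 1))).2
      nlinarith
  · rw [quad_zero σ w ht]

open Classical in
/-- value of the transversal bonds -/
noncomputable def vv (R : Set (Site k)) (b : ℝ) (w : Site k) (i : Fin k) : ℝ :=
  if w ∈ R ∧ w + eu i.succ.succ ∈ R then b else 0

lemma tr_le {b : ℝ} (hb : 0 ≤ b) {n : ℤ} (hp : Pat R K b n) (σ : R → Bool) (w : Site k)
    (i : Fin k) (h : n + 2 ≤ lam w ∧ lam w ≤ n + 4) :
    term R K σ (w, i.succ.succ) ≤ vv R b w i := by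
  rw [term_pat hp σ w _ (by omega) h.2]
  have p1 : pat n w (i.succ.succ : Fin (k + 2)) = 1 := by
    unfold pat; rw [if_neg]; exact fun h => finss i h.1
  rw [p1, mul_one]
  unfold vv
  split_ifs with hr
  · rcases sp_cases R σ w with h1 | h1 | h1 <;>
      rcases sp_cases R σ (w + eu i.succ.succ) with h2 | h2 | h2 <;> rw [h1, h2] <;> nlinarith
  · rcases not_and_or.1 hr with h1 | h1
    · rw [sp_not R σ h1]; simp
    · rw [sp_not R σ h1]; simp

lemma tr_eq {b : ℝ} {n : ℤ} (hp : Pat R K b n) (σ : R → Bool)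
    (hσ : ∀ x : R, n + 2 ≤ lam x.1 → lam x.1 ≤ n + 4 → σ x = true) (w : Site k)
    (i : Fin k) (h : n + 2 ≤ lam w ∧ lam w ≤ n + 4) :
    term R K σ (w, i.succ.succ) = vv R b w i := by
  rw [term_pat hp σ w _ (by omega) h.2]
  have p1 : pat n w (i.succ.succ : Fin (k + 2)) = 1 := by
    unfold pat; rw [if_neg]; exact fun h => finss i h.1
  rw [p1, mul_one]
  unfold vv
  split_ifs with hr
  · have h2 : lam (w + eu i.succ.succ) = lam w := by rw [lam_add, lam_eu2]; omega
    rw [sp_mem R σ hr.1, sp_mem R σ hr.2, hσ ⟨w, hr.1⟩ h.1 h.2,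
      hσ ⟨_, hr.2⟩ (by simp only [h2]; exact h.1) (by simp only [h2]; exact h.2)]
    simp [sg]
  · rcases not_and_or.1 hr with h1 | h1
    · rw [sp_not R σ h1]; simp
    · rw [sp_not R σ h1]; simp

variable (hfin : ∀ c : ℤ, {x : R | lam x.1 ≤ c}.Finite)

/-- upper bound of the middle energy -/
noncomputable def UU (b : ℝ) (n : ℤ) : ℝ :=
  ∑ w ∈ BB hfin n, (if lam w = n + 1 ∨ lam w = n + 3 then uu R b w else 0) +
    ∑ w ∈ BB hfin n, ∑ i : Fin k, (if n + 2 ≤ lam w ∧ lam w ≤ n + 4 then vv R b w i else 0)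

/-- the middle energy of the `+` configuration -/
noncomputable def VV (b : ℝ) (n : ℤ) : ℝ :=
  ∑ w ∈ BB hfin n, (if lam w = n + 1 ∨ lam w = n + 3 then ll R b w else 0) +
    ∑ w ∈ BB hfin n, ∑ i : Fin k, (if n + 2 ≤ lam w ∧ lam w ≤ n + 4 then vv R b w i else 0)

open Classical in
/-- the cut squares -/
noncomputable def CC (n : ℤ) : Finset (Site k) :=
  (BB hfin n).filter fun w => (lam w = n + 1 ∨ lam w = n + 3) ∧ Tou R w ∧ ¬ Ful R w

lemma UU_sub_VV (b : ℝ) (n : ℤ) : UU hfin b n - VV hfin b n = 4 * b * (CC hfin n).card := by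
  classical
  unfold UU VV CC
  rw [add_sub_add_right_eq_sub, ← Finset.sum_sub_distrib]
  have : ∀ w ∈ BB hfin n, ((if lam w = n + 1 ∨ lam w = n + 3 then uu R b w else 0) -
      (if lam w = n + 1 ∨ lam w = n + 3 then ll R b w else 0)) =
      if (lam w = n + 1 ∨ lam w = n + 3) ∧ Tou R w ∧ ¬ Ful R w then 4 * b else 0 := by
    intro w _
    by_cases h : lam w = n + 1 ∨ lam w = n + 3
    · rw [if_pos h, if_pos h]
      unfold uu ll
      by_cases h1 : Tou R w
      · by_cases h2 : Ful R w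
        · rw [if_pos h1, if_pos h2, if_neg (by tauto)]; ring
        · rw [if_pos h1, if_neg h2, if_pos h1, if_pos ⟨h, h1, h2⟩]; ring
      · have h2 : ¬ Ful R w := fun h3 => h1 (Or.inl h3.1)
        rw [if_neg h1, if_neg h2, if_neg h1, if_neg (by tauto)]; ring
    · rw [if_neg h, if_neg h, if_neg (by tauto)]; ring
  rw [Finset.sum_congr rfl this, ← Finset.sum_filter, Finset.sum_const, nsmul_eq_mul]
  ring

/-- **The decoupler.** -/
noncomputable def split {b : ℝ} (hb : 0 ≤ b) {n : ℤ} (hp : Pat R K b n) :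
    Split (spec R K) (LL hfin (n + 5)) (MM hfin n) (fun x => n + 5 ≤ lam x.1)
      (UU hfin b n) (VV hfin b n) where
  Hl σ := ∑ e ∈ (tch (LL hfin (n + 5)) \ tch (MM hfin n)).filter (fun e => lam e.1 ≤ n + 1),
    term R K σ e
  Hr σ := ∑ e ∈ (tch (LL hfin (n + 5)) \ tch (MM hfin n)).filter (fun e => ¬ lam e.1 ≤ n + 1),
    term R K σ e
  G σ := ∑ e ∈ tch (MM hfin n), term R K σ e
  split := by
    intro σ
    have hs : tch (MM hfin n) ⊆ tch (LL hfin (n + 5)) := by
      intro e he
      rw [mem_tch] at he ⊢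
      rcases he with ⟨h1, h2⟩ | ⟨h1, h2⟩
      · refine Or.inl ⟨h1, ?_⟩
        rw [mem_MM] at h2
        rw [mem_LL]
        omega
      · refine Or.inr ⟨h1, ?_⟩
        rw [mem_MM] at h2
        rw [mem_LL]
        omega
    rw [spec_H, ← Finset.sum_sdiff hs, ← Finset.sum_filter_add_sum_filter_not
      (tch (LL hfin (n + 5)) \ tch (MM hfin n)) (fun e => lam e.1 ≤ n + 1)]
    ring
  left := by
    intro σ σ' h
    refine Finset.sum_congr rfl fun e he => ?_
    rw [mem_filter, mem_sdiff] at he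
    obtain ⟨⟨_, h2⟩, h3⟩ := he
    rw [mem_tch] at h2
    push Not at h2
    refine term_congr R K σ σ' e (fun hv => ?_) (fun hv => ?_)
    · refine h _ (mem_LL.2 (by simp only; omega)) (h2.1 hv) ?_
      simp only; omega
    · have h4 := h2.2 hv
      rw [mem_MM] at h4
      simp only at h4
      have h5 : lam (e.1 + eu e.2) ≤ n + 1 := by
        have h6 : lam (e.1 + eu e.2) ≤ n + 2 := by
          rw [lam_add]
          rcases lam_eu_mem e.2 with h7 | h7 <;> omega
        by_contra hc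
        exact h4 ⟨by omega, by omega⟩
      refine h _ (mem_LL.2 (by simp only; omega)) (h2.2 hv) ?_
      simp only; omega
  right := by
    intro σ σ' h
    refine Finset.sum_congr rfl fun e he => ?_
    rw [mem_filter, mem_sdiff] at he
    obtain ⟨⟨_, h2⟩, h3⟩ := he
    by_cases hv : e.1 ∈ R
    · rw [mem_tch] at h2
      push Not at h2
      have h4 := h2.1 hv
      rw [mem_MM] at h4
      simp only at h4
      have h5 : n + 5 ≤ lam e.1 := by
        by_contra hc
        exact h4 ⟨by omega, by omega⟩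
      refine term_congr R K σ σ' e (fun hv => ?_) (fun hv => ?_)
      · exact h _ h5
      · refine h _ ?_
        simp only
        rw [lam_add]
        rcases lam_eu_mem e.2 with h7 | h7 <;> omega
    · unfold term
      rw [sp_not R σ hv, sp_not R σ' hv]
      ring
  upper := by
    intro σ
    rw [mid_energy]
    unfold UU
    refine add_le_add (Finset.sum_le_sum fun w _ => ?_)
      (Finset.sum_le_sum fun w _ => Finset.sum_le_sum fun i _ => ?_)
    · split_ifs with h
      · exact quad_le hb hp σ w h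
      · exact le_rfl
    · split_ifs with h
      · exact tr_le hb hp σ w i h
      · exact le_rfl
  lower := by
    intro σ hσ
    have hσ' : ∀ x : R, n + 2 ≤ lam x.1 → lam x.1 ≤ n + 4 → σ x = true :=
      fun x h1 h2 => hσ x (mem_MM.2 ⟨h1, h2⟩)
    rw [mid_energy]
    unfold VV
    refine add_le_add (Finset.sum_le_sum fun w _ => ?_)
      (Finset.sum_le_sum fun w _ => Finset.sum_le_sum fun i _ => ?_)
    · split_ifs with h
      · exact quad_ge hb hp σ hσ' w h
      · exact le_rfl
    · split_ifs with h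
      · exact (tr_eq hp σ hσ' w i h).ge
      · exact le_rfl
  sub := by
    intro x hx
    rw [mem_MM] at hx
    rw [mem_LL]
    omega
  nr := by
    intro x hx h
    rw [mem_MM] at hx
    omega

end Pool.Agent.Q234.EA
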