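import Mathlib

/-!
# Symmetric laws charge small intervals around `±a`
-/

set_option autoImplicit false

open MeasureTheory Filter Topology Set
open scoped ENNReal

namespace Pool.Agent.Q234.EA

theorem density (μ : Measure ℝ) [IsProbabilityMeasure μ] (hat : ∀ x, μ {x} = 0)
    (hsym : μ.map (fun x => -x) = μ) :
    ∃ a : ℝ, 0 < a ∧ ∃ c : ℝ, 0 < c ∧ ∀ r : ℝ, 0 < r → r ≤ 1 →
      c * r ≤ μ.real (Icc (a - r) (a + r)) ∧ c * r ≤ μ.real (Icc (-a - r) (-a + r)) := by
  have hneg : ∀ x r : ℝ, μ (Icc (-x - r) (-x + r)) = μ (Icc (x - r) (x + r)) := by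
    intro x r
    conv_lhs => rw [← hsym]
    rw [Measure.map_apply measurable_neg measurableSet_Icc]
    congr 1
    ext y
    simp only [mem_preimage, mem_Icc]
    constructor
    · rintro ⟨h1, h2⟩; constructor <;> linarith
    · rintro ⟨h1, h2⟩; constructor <;> linarith
  have h1 := Besicovitch.ae_tendsto_rnDeriv (volume : Measure ℝ) μ
  have h2 := Measure.rnDeriv_lt_top (volume : Measure ℝ) μ
  have h3 : ∀ᵐ x ∂μ, x ≠ 0 := by
    rw [ae_iff]
    simp only [not_not]
    have : {x : ℝ | x = 0} = {0} := by ext x; simp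
    rw [this]
    exact hat 0
  obtain ⟨x, hx1, hx2, hx3⟩ := (h1.and (h2.and h3)).exists
  -- a lower bound at `x`
  have key : ∃ c : ℝ, 0 < c ∧ ∀ r : ℝ, 0 < r → r ≤ 1 → c * r ≤ μ.real (Icc (x - r) (x + r)) := by
    set K : ℝ≥0∞ := (volume : Measure ℝ).rnDeriv μ x + 1 with hK
    have hKt : K ≠ ∞ := by
      rw [hK]
      exact ENNReal.add_ne_top.2 ⟨hx2.ne, ENNReal.one_ne_top⟩
    have hlt : (volume : Measure ℝ).rnDeriv μ x < K := by
      rw [hK]
      exact ENNReal.lt_add_right hx2.ne one_ne_zero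
    have hev := hx1.eventually (gt_mem_nhds hlt)
    rw [eventually_nhdsWithin_iff, Metric.eventually_nhds_iff] at hev
    obtain ⟨r0, hr0, hev⟩ := hev
    have hK0 : 0 < K.toReal := by
      apply ENNReal.toReal_pos _ hKt
      rw [hK]
      simp
    have hball : ∀ r : ℝ, 0 < r → r < r0 → 2 * r / K.toReal ≤ μ.real (Icc (x - r) (x + r)) := by
      intro r hr hrr
      have h4 := hev (y := r) (by rw [Real.dist_eq, sub_zero, abs_of_pos hr]; exact hrr) hr
      rw [Real.closedBall_eq_Icc, Real.volume_Icc] at h4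
      have hpos : μ (Icc (x - r) (x + r)) ≠ 0 := by
        intro h0
        rw [h0, ENNReal.div_zero] at h4
        · exact absurd h4 (not_lt.2 le_top)
        · intro h5
          rw [ENNReal.ofReal_eq_zero] at h5
          linarith
      rw [ENNReal.div_lt_iff (Or.inl hpos) (Or.inl (measure_ne_top _ _))] at h4
      have h5 : ENNReal.ofReal (x + r - (x - r)) ≤ K * μ (Icc (x - r) (x + r)) := h4.le
      have h6 := ENNReal.toReal_mono (ENNReal.mul_ne_top hKt (measure_ne_top _ _)) h5
      rw [ENNReal.toReal_ofReal (by linarith), ENNReal.toReal_mul] at h6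
      rw [div_le_iff₀ hK0]
      have h7 : (μ (Icc (x - r) (x + r))).toReal = μ.real (Icc (x - r) (x + r)) := rfl
      rw [h7] at h6
      linarith
    refine ⟨min 2 r0 / K.toReal / 2, by positivity, fun r hr hr1 => ?_⟩
    by_cases hc : r < r0
    · refine le_trans ?_ (hball r hr hc)
      rw [div_div, div_mul_eq_mul_div, div_le_div_iff₀ (by positivity) hK0]
      have h8 : min 2 r0 ≤ 2 := min_le_left _ _
      have h9 : 0 ≤ 2 - min 2 r0 := by linarith
      nlinarith [mul_nonneg h9 (mul_pos hr hK0).le, mul_pos hr hK0]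
    · push Not at hc
      have h8 := hball (r0 / 2) (by linarith) (by linarith)
      have h9 : μ.real (Icc (x - r0 / 2) (x + r0 / 2)) ≤ μ.real (Icc (x - r) (x + r)) := by
        apply measureReal_mono
        · apply Icc_subset_Icc <;> linarith
        · exact measure_ne_top _ _
      refine le_trans ?_ (h8.trans h9)
      rw [div_div, div_mul_eq_mul_div, div_le_div_iff₀ (by positivity) hK0]
      have h10 : min 2 r0 ≤ r0 := min_le_right _ _
      have h11 : 0 < min 2 r0 := lt_min (by norm_num) hr0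
      have h12 : min 2 r0 * r ≤ r0 := by nlinarith
      nlinarith
  obtain ⟨c, hc, hcr⟩ := key
  rcases lt_or_gt_of_ne hx3 with hneg' | hpos
  · refine ⟨-x, by linarith, c, hc, fun r hr hr1 => ⟨?_, ?_⟩⟩
    · have := hcr r hr hr1
      unfold Measure.real at this ⊢
      rw [hneg x r]
      exact this
    · rw [neg_neg]
      exact hcr r hr hr1
  · refine ⟨x, hpos, c, hc, fun r hr hr1 => ⟨hcr r hr hr1, ?_⟩⟩
    have := hcr r hr hr1
    unfold Measure.real at this ⊢
    rw [hneg x r]
    exact this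

end Pool.Agent.Q234.EA
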