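import Pool.Agent.Q234.EA.Ctr

/-!
# Edwards–Anderson energies on a region of `ℤ^(k+2)`, and the decoupling pattern
-/

set_option autoImplicit false

open Finset

namespace Pool.Agent.Q234.EA

/-- sites -/
abbrev Site (k : ℕ) : Type := Fin (k + 2) → ℤ

/-- the bond `(v, i)` joins `v` and `v + e_i` -/
abbrev Bond (k : ℕ) : Type := Site k × Fin (k + 2)

variable {k : ℕ}

/-- the unit vectors -/
def eu (i : Fin (k + 2)) : Site k := Pi.single i 1

/-- the sign of a spin -/
def sg (b : Bool) : ℝ := if b then 1 else -1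

/-- the layer -/
def lam (v : Site k) : ℤ := v 0 + v 1

lemma lam_add (v w : Site k) : lam (v + w) = lam v + lam w := by
  simp only [lam, Pi.add_apply]; ring

lemma lam_sub (v w : Site k) : lam (v - w) = lam v - lam w := by
  simp only [lam, Pi.sub_apply]; ring

lemma lam_eu0 : lam (eu (0 : Fin (k + 2))) = 1 := by
  simp [lam, eu]

lemma lam_eu1 : lam (eu (1 : Fin (k + 2))) = 1 := by
  simp [lam, eu]

lemma lam_eu2 (i : Fin k) : lam (eu (i.succ.succ : Fin (k + 2))) = 0 := by
  have h0 : (0 : Fin (k + 2)) ≠ i.succ.succ := (Fin.succ_ne_zero _).symm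
  have h1 : (1 : Fin (k + 2)) ≠ i.succ.succ := by
    rw [← Fin.succ_zero_eq_one]
    intro h
    exact (Fin.succ_ne_zero i).symm (Fin.succ_injective _ h)
  simp [lam, eu, Pi.single_eq_of_ne h0, Pi.single_eq_of_ne h1]

lemma lam_eu_mem (i : Fin (k + 2)) : lam (eu i : Site k) = 0 ∨ lam (eu i : Site k) = 1 := by
  refine Fin.cases (Or.inr lam_eu0) (fun j => ?_) i
  refine Fin.cases ?_ (fun l => ?_) j
  · right
    rw [Fin.succ_zero_eq_one]
    exact lam_eu1
  · exact Or.inl (lam_eu2 l)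

variable (R : Set (Site k))

open Classical in
/-- the spin at `v`; `0` outside the region -/
noncomputable def sp (σ : R → Bool) (v : Site k) : ℝ := if h : v ∈ R then sg (σ ⟨v, h⟩) else 0

lemma sp_not (σ : R → Bool) {v : Site k} (h : v ∉ R) : sp R σ v = 0 := by
  unfold sp; rw [dif_neg h]

lemma sp_mem (σ : R → Bool) {v : Site k} (h : v ∈ R) : sp R σ v = sg (σ ⟨v, h⟩) := by
  unfold sp; rw [dif_pos h]

lemma sg_cases (b : Bool) : sg b = 1 ∨ sg b = -1 := by
  unfold sg; split_ifs <;> simp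

lemma sp_cases (σ : R → Bool) (v : Site k) : sp R σ v = 1 ∨ sp R σ v = -1 ∨ sp R σ v = 0 := by
  by_cases h : v ∈ R
  · rw [sp_mem R σ h]
    rcases sg_cases (σ ⟨v, h⟩) with h | h
    · exact Or.inl h
    · exact Or.inr (Or.inl h)
  · exact Or.inr (Or.inr (sp_not R σ h))

lemma sp_congr (σ σ' : R → Bool) (v : Site k) (h : ∀ hv : v ∈ R, σ ⟨v, hv⟩ = σ' ⟨v, hv⟩) :
    sp R σ v = sp R σ' v := by
  by_cases hv : v ∈ R
  · rw [sp_mem R σ hv, sp_mem R σ' hv, h hv]
  · rw [sp_not R σ hv, sp_not R σ' hv]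

lemma continuous_sp (v : Site k) : Continuous fun σ : R → Bool => sp R σ v := by
  by_cases hv : v ∈ R
  · simp only [sp_mem R _ hv]
    exact (continuous_of_discreteTopology (f := sg)).comp (continuous_apply _)
  · simp only [sp_not R _ hv]
    exact continuous_const

variable {R} in
/-- the bonds with an end in `Λ` -/
noncomputable def tch (Λ : Finset R) : Finset (Bond k) :=
  Λ.biUnion fun x => univ.biUnion fun i => {(x.1, i), (x.1 - eu i, i)}

variable {R} in
lemma mem_tch {Λ : Finset R} {e : Bond k} :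
    e ∈ tch Λ ↔ (∃ h : e.1 ∈ R, (⟨e.1, h⟩ : R) ∈ Λ) ∨
      ∃ h : e.1 + eu e.2 ∈ R, (⟨e.1 + eu e.2, h⟩ : R) ∈ Λ := by
  unfold tch
  simp only [mem_biUnion, mem_univ, true_and, mem_insert, mem_singleton]
  constructor
  · rintro ⟨x, hx, i, h | h⟩
    · left
      subst h
      exact ⟨x.2, hx⟩
    · right
      subst h
      simp only [sub_add_cancel]
      exact ⟨x.2, hx⟩
  · rintro (⟨h, hx⟩ | ⟨h, hx⟩)
    · exact ⟨_, hx, e.2, Or.inl rfl⟩
    · refine ⟨_, hx, e.2, Or.inr ?_⟩
      simp only [add_sub_cancel_right]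

variable (K : Bond k → ℝ)

/-- the energy of a bond -/
noncomputable def term (σ : R → Bool) (e : Bond k) : ℝ :=
  K e * (sp R σ e.1 * sp R σ (e.1 + eu e.2))

lemma term_congr (σ σ' : R → Bool) (e : Bond k)
    (h1 : ∀ hv : e.1 ∈ R, σ ⟨e.1, hv⟩ = σ' ⟨e.1, hv⟩)
    (h2 : ∀ hv : e.1 + eu e.2 ∈ R, σ ⟨e.1 + eu e.2, hv⟩ = σ' ⟨e.1 + eu e.2, hv⟩) :
    term R K σ e = term R K σ' e := by
  unfold term
  rw [sp_congr R σ σ' _ h1, sp_congr R σ σ' _ h2]

variable {R K} in
lemma mem_of_term {σ : R → Bool} {e : Bond k} (h : term R K σ e ≠ 0) :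
    e.1 ∈ R ∧ e.1 + eu e.2 ∈ R := by
  constructor
  · by_contra hc
    apply h
    unfold term
    rw [sp_not R σ hc]; ring
  · by_contra hc
    apply h
    unfold term
    rw [sp_not R σ hc]; ring

/-- the model on the region `R` with couplings `K` -/
noncomputable def spec : Spec R where
  H Λ σ := ∑ e ∈ tch Λ, term R K σ e
  diff := by
    intro Λ' Λ hsub σ σ' h
    have hs : tch Λ' ⊆ tch Λ := by
      intro e he
      rw [mem_tch] at he ⊢
      rcases he with ⟨h1, h2⟩ | ⟨h1, h2⟩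
      · exact Or.inl ⟨h1, hsub h2⟩
      · exact Or.inr ⟨h1, hsub h2⟩
    rw [← Finset.sum_sdiff hs, ← Finset.sum_sdiff hs]
    have : ∑ e ∈ tch Λ \ tch Λ', term R K σ e = ∑ e ∈ tch Λ \ tch Λ', term R K σ' e := by
      refine Finset.sum_congr rfl fun e he => ?_
      rw [mem_sdiff, mem_tch (Λ := Λ')] at he
      push Not at he
      exact term_congr R K σ σ' e (fun hv => h _ (he.2.1 hv)) (fun hv => h _ (he.2.2 hv))
    rw [this]; ring
  cont := by
    intro Λ
    exact continuous_finsetSum _ fun e _ =>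
      continuous_const.mul ((continuous_sp R _).mul (continuous_sp R _))

lemma spec_H (Λ : Finset R) (σ : R → Bool) : (spec R K).H Λ σ = ∑ e ∈ tch Λ, term R K σ e := rfl

/-! ## the layers -/

variable {R}

/-- all the sites up to a layer -/
noncomputable def LL (hfin : ∀ c : ℤ, {x : R | lam x.1 ≤ c}.Finite) (c : ℤ) : Finset R :=
  (hfin c).toFinset

variable {hfin : ∀ c : ℤ, {x : R | lam x.1 ≤ c}.Finite}

lemma mem_LL {c : ℤ} {x : R} : x ∈ LL hfin c ↔ lam x.1 ≤ c := by
  simp [LL]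

/-- the middle layers -/
noncomputable def MM (hfin : ∀ c : ℤ, {x : R | lam x.1 ≤ c}.Finite) (n : ℤ) : Finset R :=
  (LL hfin (n + 4)).filter fun x => n + 2 ≤ lam x.1

lemma mem_MM {n : ℤ} {x : R} : x ∈ MM hfin n ↔ n + 2 ≤ lam x.1 ∧ lam x.1 ≤ n + 4 := by
  simp [MM, mem_LL, and_comm]

/-- the four bonds of the square of `w` -/
noncomputable def quad (K : Bond k → ℝ) (σ : R → Bool) (w : Site k) : ℝ :=
  term R K σ (w, 0) + term R K σ (w, 1) + term R K σ (w + eu 1, 0) + term R K σ (w + eu 0, 1)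

/-- a site with one of the four corners in the region -/
def Tou (R : Set (Site k)) (w : Site k) : Prop :=
  w ∈ R ∨ w + eu 0 ∈ R ∨ w + eu 1 ∈ R ∨ w + eu 0 + eu 1 ∈ R

/-- a site with all corners in the region -/
def Ful (R : Set (Site k)) (w : Site k) : Prop :=
  w ∈ R ∧ w + eu 0 ∈ R ∧ w + eu 1 ∈ R ∧ w + eu 0 + eu 1 ∈ R

/-- shifting a sum -/
lemma shift_sum (B : Finset (Site k)) (t : Site k) (f : Site k → ℝ)
    (h1 : ∀ v, f v ≠ 0 → v ∈ B) (h2 : ∀ v, f v ≠ 0 → v - t ∈ B) :
    ∑ w ∈ B, f (w + t) = ∑ v ∈ B, f v := by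
  rw [← finsum_eq_sum_of_support_subset f (s := B) (fun v hv => h1 v hv),
    ← finsum_eq_sum_of_support_subset (fun w => f (w + t)) (s := B) (fun v hv => by
      have := h2 (v + t) hv
      rwa [add_sub_cancel_right] at this)]
  exact finsum_comp_equiv (Equiv.addRight t)

/-- the sites used in the sums -/
noncomputable def BB (hfin : ∀ c : ℤ, {x : R | lam x.1 ≤ c}.Finite) (n : ℤ) :
    Finset (Site k) :=
  ((LL hfin (n + 5)).image fun x => x.1) ∪ ((LL hfin (n + 5)).image fun x => x.1 - eu 0) ∪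
    ((LL hfin (n + 5)).image fun x => x.1 - eu 1)

lemma mem_BB0 {n : ℤ} {v : Site k} (hv : v ∈ R) (h : lam v ≤ n + 5) : v ∈ BB hfin n := by
  unfold BB
  refine mem_union_left _ (mem_union_left _ (mem_image.2 ⟨⟨v, hv⟩, mem_LL.2 h, rfl⟩))

lemma mem_BB1 {n : ℤ} {v : Site k} (hv : v ∈ R) (h : lam v ≤ n + 5) : v - eu 0 ∈ BB hfin n := by
  unfold BB
  refine mem_union_left _ (mem_union_right _ (mem_image.2 ⟨⟨v, hv⟩, mem_LL.2 h, rfl⟩))

lemma mem_BB2 {n : ℤ} {v : Site k} (hv : v ∈ R) (h : lam v ≤ n + 5) : v - eu 1 ∈ BB hfin n := by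
  unfold BB
  refine mem_union_right _ (mem_image.2 ⟨⟨v, hv⟩, mem_LL.2 h, rfl⟩)

/-- the middle energy as a sum over squares and transversal bonds -/
theorem mid_energy (n : ℤ) (σ : R → Bool) :
    ∑ e ∈ tch (MM hfin n), term R K σ e =
      ∑ w ∈ BB hfin n, (if lam w = n + 1 ∨ lam w = n + 3 then quad K σ w else 0) +
      ∑ w ∈ BB hfin n, ∑ i : Fin k,
        (if n + 2 ≤ lam w ∧ lam w ≤ n + 4 then term R K σ (w, i.succ.succ) else 0) := by
  classical
  set B := BB hfin n with hB
  -- step 1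
  have e1 : ∑ e ∈ tch (MM hfin n), term R K σ e =
      ∑ v ∈ B, ∑ i : Fin (k + 2), (if (v, i) ∈ tch (MM hfin n) then term R K σ (v, i) else 0) := by
    rw [← Finset.sum_product' (f := fun v i => if (v, i) ∈ tch (MM hfin n) then
      term R K σ (v, i) else 0), ← Finset.sum_filter]
    symm
    refine Finset.sum_subset_zero_on_sdiff ?_ ?_ (fun _ _ => rfl)
    · intro e he
      exact (mem_filter.1 he).2
    · intro e he
      rw [mem_sdiff, mem_filter] at he
      by_contra hc
      obtain ⟨m1, m2⟩ := mem_of_term hc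
      apply he.2
      refine ⟨mem_product.2 ⟨?_, mem_univ _⟩, he.1⟩
      have h3 := he.1
      rw [mem_tch] at h3
      apply mem_BB0 m1
      rcases h3 with ⟨_, h3⟩ | ⟨_, h3⟩
      · rw [mem_MM] at h3
        simp only at h3
        omega
      · rw [mem_MM] at h3
        simp only at h3
        rw [lam_add] at h3
        rcases lam_eu_mem e.2 with h4 | h4 <;> omega
  -- step 2: membership
  have m0 : ∀ (v : Site k) (i : Fin (k + 2)), lam (eu i : Site k) = 1 →
      (if (v, i) ∈ tch (MM hfin n) then term R K σ (v, i) else 0) =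
      (if lam v = n + 1 ∨ lam v = n + 3 then term R K σ (v, i) else 0) +
        (if lam v = n + 2 ∨ lam v = n + 4 then term R K σ (v, i) else 0) := by
    intro v i hi
    by_cases ht : term R K σ (v, i) = 0
    · simp [ht]
    obtain ⟨t1, t2⟩ := mem_of_term ht
    simp only at t1 t2
    have hm : (v, i) ∈ tch (MM hfin n) ↔ (n + 1 ≤ lam v ∧ lam v ≤ n + 4) := by
      rw [mem_tch]
      constructor
      · rintro (⟨_, h⟩ | ⟨_, h⟩)
        · rw [mem_MM] at h; simp only at h; omega
        · rw [mem_MM] at h; simp only at h; rw [lam_add, hi] at h; omega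
      · intro h
        by_cases h5 : n + 2 ≤ lam v
        · exact Or.inl ⟨t1, mem_MM.2 ⟨h5, h.2⟩⟩
        · refine Or.inr ⟨t2, mem_MM.2 ?_⟩
          simp only
          rw [lam_add, hi]; omega
    by_cases h : n + 1 ≤ lam v ∧ lam v ≤ n + 4
    · rw [if_pos (hm.2 h)]
      by_cases h5 : lam v = n + 1 ∨ lam v = n + 3
      · rw [if_pos h5, if_neg (by omega)]; ring
      · rw [if_neg h5, if_pos (by omega)]; ring
    · rw [if_neg (fun h6 => h (hm.1 h6)), if_neg (by omega), if_neg (by omega)]; ring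
  have m2 : ∀ (v : Site k) (i : Fin k),
      (if (v, i.succ.succ) ∈ tch (MM hfin n) then term R K σ (v, i.succ.succ) else 0) =
      (if n + 2 ≤ lam v ∧ lam v ≤ n + 4 then term R K σ (v, i.succ.succ) else 0) := by
    intro v i
    by_cases ht : term R K σ (v, i.succ.succ) = 0
    · simp [ht]
    obtain ⟨t1, t2⟩ := mem_of_term ht
    simp only at t1 t2
    have hm : (v, (i.succ.succ : Fin (k + 2))) ∈ tch (MM hfin n) ↔
        (n + 2 ≤ lam v ∧ lam v ≤ n + 4) := by
      rw [mem_tch]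
      constructor
      · rintro (⟨_, h⟩ | ⟨_, h⟩)
        · rw [mem_MM] at h; exact h
        · rw [mem_MM] at h; simp only at h; rw [lam_add, lam_eu2] at h; omega
      · intro h
        exact Or.inl ⟨t1, mem_MM.2 h⟩
    by_cases h : n + 2 ≤ lam v ∧ lam v ≤ n + 4
    · rw [if_pos (hm.2 h), if_pos h]
    · rw [if_neg (fun h6 => h (hm.1 h6)), if_neg h]
  -- the shifts
  have s0 : ∑ v ∈ B, (if lam v = n + 2 ∨ lam v = n + 4 then term R K σ (v, 0) else 0) =
      ∑ w ∈ B, (if lam w = n + 1 ∨ lam w = n + 3 then term R K σ (w + eu 1, 0) else 0) := by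
    rw [← shift_sum B (eu 1)
      (fun v => if lam v = n + 2 ∨ lam v = n + 4 then term R K σ (v, 0) else 0)]
    · refine Finset.sum_congr rfl fun w _ => ?_
      simp only [lam_add, lam_eu1]
      by_cases h : lam w = n + 1 ∨ lam w = n + 3
      · rw [if_pos h, if_pos (by omega)]
      · rw [if_neg h, if_neg (by omega)]
    · intro v hv
      by_cases h : lam v = n + 2 ∨ lam v = n + 4
      · rw [if_pos h] at hv
        exact mem_BB0 (mem_of_term hv).1 (by omega)
      · rw [if_neg h] at hv; exact absurd rfl hv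
    · intro v hv
      by_cases h : lam v = n + 2 ∨ lam v = n + 4
      · rw [if_pos h] at hv
        exact mem_BB2 (mem_of_term hv).1 (by omega)
      · rw [if_neg h] at hv; exact absurd rfl hv
  have s1 : ∑ v ∈ B, (if lam v = n + 2 ∨ lam v = n + 4 then term R K σ (v, 1) else 0) =
      ∑ w ∈ B, (if lam w = n + 1 ∨ lam w = n + 3 then term R K σ (w + eu 0, 1) else 0) := by
    rw [← shift_sum B (eu 0)
      (fun v => if lam v = n + 2 ∨ lam v = n + 4 then term R K σ (v, 1) else 0)]
    · refine Finset.sum_congr rfl fun w _ => ?_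
      simp only [lam_add, lam_eu0]
      by_cases h : lam w = n + 1 ∨ lam w = n + 3
      · rw [if_pos h, if_pos (by omega)]
      · rw [if_neg h, if_neg (by omega)]
    · intro v hv
      by_cases h : lam v = n + 2 ∨ lam v = n + 4
      · rw [if_pos h] at hv
        exact mem_BB0 (mem_of_term hv).1 (by omega)
      · rw [if_neg h] at hv; exact absurd rfl hv
    · intro v hv
      by_cases h : lam v = n + 2 ∨ lam v = n + 4
      · rw [if_pos h] at hv
        exact mem_BB1 (mem_of_term hv).1 (by omega)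
      · rw [if_neg h] at hv; exact absurd rfl hv
  rw [e1]
  have e2 : ∀ v ∈ B, ∑ i : Fin (k + 2),
      (if (v, i) ∈ tch (MM hfin n) then term R K σ (v, i) else 0) =
      ((if lam v = n + 1 ∨ lam v = n + 3 then term R K σ (v, 0) else 0) +
        (if lam v = n + 2 ∨ lam v = n + 4 then term R K σ (v, 0) else 0)) +
      ((if lam v = n + 1 ∨ lam v = n + 3 then term R K σ (v, 1) else 0) +
        (if lam v = n + 2 ∨ lam v = n + 4 then term R K σ (v, 1) else 0)) +
      ∑ i : Fin k, (if n + 2 ≤ lam v ∧ lam v ≤ n + 4 then term R K σ (v, i.succ.succ) else 0) := by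
    intro v _
    rw [Fin.sum_univ_succ, Fin.sum_univ_succ, Fin.succ_zero_eq_one, m0 v 0 lam_eu0,
      m0 v 1 lam_eu1, Finset.sum_congr rfl fun i _ => m2 v i]
    ring
  rw [Finset.sum_congr rfl e2, Finset.sum_add_distrib, Finset.sum_add_distrib,
    Finset.sum_add_distrib, Finset.sum_add_distrib, s0, s1]
  congr 1
  rw [← Finset.sum_add_distrib, ← Finset.sum_add_distrib, ← Finset.sum_add_distrib]
  refine Finset.sum_congr rfl fun w _ => ?_
  by_cases h : lam w = n + 1 ∨ lam w = n + 3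
  · simp only [if_pos h, quad]; ring
  · simp only [if_neg h]; ring

end Pool.Agent.Q234.EA
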