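import Mathlib

/-!
# Spins `±1` on a countable set: finite volume averages, consistency, existence and uniqueness of
Gibbs measures (port of the starting files `H47R2.EA.BASIC`, `GIBBSE`, `GIBBSU` to general energies)
-/

set_option autoImplicit false

open MeasureTheory Filter Topology
open scoped ENNReal BoundedContinuousFunction

namespace Pool.Agent.Q234.EA

variable {X : Type}

/-- The configuration equal to `η` on `Λ` and to `ω` off `Λ`. -/
def glue [DecidableEq X] (Λ : Finset X) (η : Λ → Bool) (ω : X → Bool) : X → Bool :=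
  fun x => if h : x ∈ Λ then η ⟨x, h⟩ else ω x

/-- Energies (times `-β`) of the finite sets. -/
structure Spec (X : Type) where
  /-- energy -/
  H : Finset X → (X → Bool) → ℝ
  diff : ∀ {Λ' Λ : Finset X}, Λ' ⊆ Λ → ∀ σ σ' : X → Bool, (∀ z, z ∉ Λ' → σ z = σ' z) →
    H Λ σ - H Λ' σ = H Λ σ' - H Λ' σ'
  cont : ∀ Λ, Continuous (H Λ)

variable [DecidableEq X] (S : Spec X)

/-- Partition function in `Λ` with boundary condition `ω`. -/
noncomputable def Zp (Λ : Finset X) (ω : X → Bool) : ℝ :=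
  ∑ η : Λ → Bool, Real.exp (S.H Λ (glue Λ η ω))

/-- The finite volume average of `f`. -/
noncomputable def gE (Λ : Finset X) (ω : X → Bool) (f : (X → Bool) → ℝ) : ℝ :=
  (∑ η : Λ → Bool, Real.exp (S.H Λ (glue Λ η ω)) * f (glue Λ η ω)) / Zp S Λ ω

theorem glue_mem {Λ : Finset X} (η : Λ → Bool) (ω : X → Bool) {x : X} (h : x ∈ Λ) :
    glue Λ η ω x = η ⟨x, h⟩ := by
  unfold glue
  rw [dif_pos h]

theorem glue_not_mem {Λ : Finset X} (η : Λ → Bool) (ω : X → Bool) {x : X}
    (h : x ∉ Λ) : glue Λ η ω x = ω x := by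
  unfold glue
  rw [dif_neg h]

theorem glue_congr {Λ : Finset X} (η : Λ → Bool) (ω ω' : X → Bool)
    (h : ∀ z, z ∉ Λ → ω z = ω' z) : glue Λ η ω = glue Λ η ω' := by
  funext z
  by_cases hz : z ∈ Λ
  · rw [glue_mem η ω hz, glue_mem η ω' hz]
  · rw [glue_not_mem η ω hz, glue_not_mem η ω' hz, h z hz]

theorem Zp_pos (Λ : Finset X) (ω : X → Bool) :
    0 < Zp S Λ ω := by
  unfold Zp
  exact Finset.sum_pos (fun η _ => Real.exp_pos _) Finset.univ_nonempty

theorem Zp_congr (Λ : Finset X) (ω ω' : X → Bool)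
    (h : ∀ z, z ∉ Λ → ω z = ω' z) : Zp S Λ ω = Zp S Λ ω' := by
  unfold Zp
  apply Finset.sum_congr rfl
  intro η _
  rw [glue_congr η ω ω' h]

theorem gE_congr (Λ : Finset X) (ω : X → Bool)
    (f f' : (X → Bool) → ℝ) (h : ∀ η : Λ → Bool, f (glue Λ η ω) = f' (glue Λ η ω)) :
    gE S Λ ω f = gE S Λ ω f' := by
  unfold gE
  congr 1
  apply Finset.sum_congr rfl
  intro η _
  rw [h η]

theorem gE_const (Λ : Finset X) (ω : X → Bool) (c : ℝ) :
    gE S Λ ω (fun _ => c) = c := by
  unfold gE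
  rw [← Finset.sum_mul]
  exact mul_div_cancel_left₀ c (Zp_pos S Λ ω).ne'

theorem gE_mono (Λ : Finset X) (ω : X → Bool)
    (f f' : (X → Bool) → ℝ) (h : ∀ η : Λ → Bool, f (glue Λ η ω) ≤ f' (glue Λ η ω)) :
    gE S Λ ω f ≤ gE S Λ ω f' := by
  unfold gE
  apply div_le_div_of_nonneg_right _ (Zp_pos S Λ ω).le
  apply Finset.sum_le_sum
  intro η _
  exact mul_le_mul_of_nonneg_left (h η) (Real.exp_pos _).le

theorem gE_lin (Λ : Finset X) (ω : X → Bool)
    (f f' : (X → Bool) → ℝ) (c c' : ℝ) :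
    gE S Λ ω (fun σ => c * f σ + c' * f' σ) = c * gE S Λ ω f + c' * gE S Λ ω f' := by
  unfold gE
  rw [← mul_div_assoc, ← mul_div_assoc, ← add_div, Finset.mul_sum, Finset.mul_sum,
    ← Finset.sum_add_distrib]
  congr 1
  apply Finset.sum_congr rfl
  intro η _
  ring

section consistency

variable {Λ Λ' : Finset X} (hsub : Λ' ⊆ Λ)

open Classical in
/-- replace the values on the smaller set -/
noncomputable def md (η : Λ → Bool) (η' : Λ' → Bool) : Λ → Bool :=
  fun z => if h : z.1 ∈ Λ' then η' ⟨z.1, h⟩ else η z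

/-- restriction to the smaller set -/
def rs (hsub : Λ' ⊆ Λ) (η : Λ → Bool) : Λ' → Bool := fun z => η ⟨z.1, hsub z.2⟩

theorem md_md (η : Λ → Bool) (η' : Λ' → Bool) : md (md η η') (rs hsub η) = η := by
  funext z
  unfold md rs
  by_cases h : z.1 ∈ Λ'
  · rw [dif_pos h]
  · rw [dif_neg h, dif_neg h]

theorem rs_md (η : Λ → Bool) (η' : Λ' → Bool) : rs hsub (md η η') = η' := by
  funext z
  show (if h : z.1 ∈ Λ' then η' ⟨z.1, h⟩ else _) = η' z
  rw [dif_pos z.2]

/-- the involution of pairs -/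
noncomputable def sw : Equiv.Perm ((Λ → Bool) × (Λ' → Bool)) :=
  Function.Involutive.toPerm (fun p => (md p.1 p.2, rs hsub p.1)) (by
    rintro ⟨η, η'⟩
    exact Prod.ext (md_md hsub η η') (rs_md hsub η η'))

include hsub in
theorem glue_md (η : Λ → Bool) (η' : Λ' → Bool) (ω : X → Bool) :
    glue Λ (md η η') ω = glue Λ' η' (glue Λ η ω) := by
  funext z
  by_cases hz' : z ∈ Λ'
  · have hz := hsub hz'
    rw [glue_mem _ _ hz, glue_mem _ _ hz']
    unfold md
    rw [dif_pos hz']
  · rw [glue_not_mem _ _ hz']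
    by_cases hz : z ∈ Λ
    · rw [glue_mem _ _ hz, glue_mem _ _ hz]
      unfold md
      rw [dif_neg hz']
    · rw [glue_not_mem _ _ hz, glue_not_mem _ _ hz]

theorem glue_rs (η : Λ → Bool) (η' : Λ' → Bool) (ω : X → Bool) :
    glue Λ' (rs hsub η) (glue Λ (md η η') ω) = glue Λ η ω := by
  rw [← glue_md hsub, md_md]

include hsub in
theorem gE_cons (ω : X → Bool) (f : (X → Bool) → ℝ) :
    gE S Λ ω f = gE S Λ ω (fun τ => gE S Λ' τ f) := by
  have key : ∑ η : Λ → Bool, Real.exp (S.H Λ (glue Λ η ω)) * f (glue Λ η ω) =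
      ∑ η : Λ → Bool, Real.exp (S.H Λ (glue Λ η ω)) * gE S Λ' (glue Λ η ω) f := by
    symm
    let H : (Λ → Bool) × (Λ' → Bool) → ℝ := fun p =>
      Real.exp (S.H Λ (glue Λ p.1 ω)) *
        (Real.exp (S.H Λ' (glue Λ' p.2 (glue Λ p.1 ω))) * f (glue Λ' p.2 (glue Λ p.1 ω))) /
          Zp S Λ' (glue Λ p.1 ω)
    have h1 : ∑ η : Λ → Bool, Real.exp (S.H Λ (glue Λ η ω)) * gE S Λ' (glue Λ η ω) f =
        ∑ p : (Λ → Bool) × (Λ' → Bool), H p := by
      rw [Fintype.sum_prod_type]
      apply Finset.sum_congr rfl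
      intro η _
      show Real.exp (S.H Λ (glue Λ η ω)) * ((∑ η' : Λ' → Bool, _) / _) = _
      rw [← mul_div_assoc, Finset.mul_sum, Finset.sum_div]
    rw [h1, ← Equiv.sum_comp (sw hsub) H, Fintype.sum_prod_type]
    apply Finset.sum_congr rfl
    intro η _
    have h2 : ∀ η' : Λ' → Bool, H (sw hsub (η, η')) =
        Real.exp (S.H Λ (glue Λ η ω)) * f (glue Λ η ω) / Zp S Λ' (glue Λ η ω) *
          Real.exp (S.H Λ' (glue Λ' η' (glue Λ η ω))) := by
      intro η'
      show Real.exp (S.H Λ (glue Λ (md η η') ω)) *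
        (Real.exp (S.H Λ' (glue Λ' (rs hsub η) (glue Λ (md η η') ω))) *
          f (glue Λ' (rs hsub η) (glue Λ (md η η') ω))) /
          Zp S Λ' (glue Λ (md η η') ω) = _
      rw [glue_rs, glue_md hsub]
      have ho : ∀ z, z ∉ Λ' → glue Λ' η' (glue Λ η ω) z = glue Λ η ω z :=
        fun z hz => glue_not_mem _ _ hz
      rw [Zp_congr S Λ' _ _ ho]
      have h3 := S.diff hsub _ _ ho
      have h4 : Real.exp (S.H Λ (glue Λ' η' (glue Λ η ω))) *
          Real.exp (S.H Λ' (glue Λ η ω)) =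
          Real.exp (S.H Λ (glue Λ η ω)) *
            Real.exp (S.H Λ' (glue Λ' η' (glue Λ η ω))) := by
        rw [← Real.exp_add, ← Real.exp_add]
        congr 1
        linear_combination h3
      rw [← mul_assoc, h4]
      ring
    rw [Finset.sum_congr rfl (fun η' _ => h2 η'), ← Finset.mul_sum]
    exact div_mul_cancel₀ _ (Zp_pos S Λ' _).ne'
  show (∑ η : Λ → Bool, _) / _ = (∑ η : Λ → Bool, _) / _
  rw [key]

end consistency

/-- two boundary conditions which the energy does not distinguish -/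
theorem gE_local (Λ : Finset X) (ω ω' : X → Bool) (f : (X → Bool) → ℝ)
    (h : ∀ η : Λ → Bool, S.H Λ (glue Λ η ω) = S.H Λ (glue Λ η ω'))
    (hf : ∀ η : Λ → Bool, f (glue Λ η ω) = f (glue Λ η ω')) :
    gE S Λ ω f = gE S Λ ω' f := by
  unfold gE Zp
  rw [Finset.sum_congr rfl (fun η _ => show Real.exp (S.H Λ (glue Λ η ω)) =
      Real.exp (S.H Λ (glue Λ η ω')) by rw [h η]),
    Finset.sum_congr rfl (fun η _ => show Real.exp (S.H Λ (glue Λ η ω)) * f (glue Λ η ω) =
      Real.exp (S.H Λ (glue Λ η ω')) * f (glue Λ η ω') by rw [h η, hf η])]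

/-! ## measurability, continuity -/

theorem continuous_glue (Λ : Finset X) (η : Λ → Bool) :
    Continuous (fun ω : X → Bool => glue Λ η ω) := by
  apply continuous_pi
  intro x
  unfold glue
  by_cases h : x ∈ Λ
  · simp only [h, dif_pos]
    exact continuous_const
  · simp only [h, dif_neg, not_false_eq_true]
    exact continuous_apply x

theorem continuous_wexp (Λ : Finset X) (η : Λ → Bool) :
    Continuous (fun ω : X → Bool => Real.exp (S.H Λ (glue Λ η ω))) :=
  Real.continuous_exp.comp ((S.cont Λ).comp (continuous_glue Λ η))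

theorem continuous_Zp (Λ : Finset X) :
    Continuous (fun ω : X → Bool => Zp S Λ ω) := by
  unfold Zp
  exact continuous_finsetSum _ fun η _ => continuous_wexp S Λ η

/-- normalised weights -/
noncomputable def ww (Λ : Finset X) (η : Λ → Bool)
    (ω : X → Bool) : ℝ := Real.exp (S.H Λ (glue Λ η ω)) / Zp S Λ ω

theorem continuous_ww (Λ : Finset X) (η : Λ → Bool) :
    Continuous (ww S Λ η) :=
  (continuous_wexp S Λ η).div (continuous_Zp S Λ) fun ω => (Zp_pos S Λ ω).ne'

theorem ww_nonneg (Λ : Finset X) (η : Λ → Bool)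
    (ω : X → Bool) : 0 ≤ ww S Λ η ω :=
  div_nonneg (Real.exp_pos _).le (Zp_pos S Λ ω).le

theorem ww_sum (Λ : Finset X) (ω : X → Bool) :
    ∑ η, ww S Λ η ω = 1 := by
  unfold ww
  rw [← Finset.sum_div]
  exact div_self (Zp_pos S Λ ω).ne'

theorem ww_le_one (Λ : Finset X) (η : Λ → Bool)
    (ω : X → Bool) : ww S Λ η ω ≤ 1 := by
  rw [← ww_sum S Λ ω]
  exact Finset.single_le_sum (fun η _ => ww_nonneg S Λ η ω) (Finset.mem_univ η)

theorem gE_eq (Λ : Finset X) (ω : X → Bool)
    (f : (X → Bool) → ℝ) :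
    gE S Λ ω f = ∑ η, ww S Λ η ω * f (glue Λ η ω) := by
  unfold gE ww
  rw [Finset.sum_div]
  exact Finset.sum_congr rfl fun η _ => by ring

theorem continuous_gE (Λ : Finset X)
    (f : (X → Bool) → ℝ) (hf : Continuous f) :
    Continuous (fun ω => gE S Λ ω f) := by
  simp only [gE_eq]
  exact continuous_finsetSum _ fun η _ =>
    (continuous_ww S Λ η).mul (hf.comp (continuous_glue Λ η))

variable [Countable X]

theorem meas_gE (Λ : Finset X) (f : (X → Bool) → ℝ) (hf : Measurable f) :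
    Measurable (fun ω : X → Bool => gE S Λ ω f) := by
  simp only [gE_eq]
  exact Finset.measurable_sum _ fun η _ =>
    (continuous_ww S Λ η).measurable.mul (hf.comp (continuous_glue Λ η).measurable)

/-- the Gibbs kernel applied to a measure -/
noncomputable def KK (Λ : Finset X)
    (π : Measure (X → Bool)) : Measure (X → Bool) :=
  ∑ η : Λ → Bool, (π.withDensity fun ω => ENNReal.ofReal (ww S Λ η ω)).map (glue Λ η)

theorem integral_KK (Λ : Finset X)
    (π : Measure (X → Bool)) [IsProbabilityMeasure π]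
    (f : (X → Bool) → ℝ) (hf : Measurable f) (C : ℝ) (hC : ∀ x, |f x| ≤ C) :
    ∫ ω, f ω ∂(KK S Λ π) = ∫ ω, gE S Λ ω f ∂π := by
  have hg : ∀ η : Λ → Bool, Measurable (glue Λ η) := fun η => (continuous_glue Λ η).measurable
  have hw : ∀ η : Λ → Bool, Measurable (fun ω => ENNReal.ofReal (ww S Λ η ω)) :=
    fun η => (continuous_ww S Λ η).measurable.ennreal_ofReal
  have hfin : ∀ η : Λ → Bool,
      IsFiniteMeasure (π.withDensity fun ω => ENNReal.ofReal (ww S Λ η ω)) := by
    intro η
    apply isFiniteMeasure_withDensity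
    have : ∫⁻ ω, ENNReal.ofReal (ww S Λ η ω) ∂π ≤ ∫⁻ _, 1 ∂π := by
      apply lintegral_mono
      intro ω
      calc ENNReal.ofReal (ww S Λ η ω) ≤ ENNReal.ofReal 1 :=
            ENNReal.ofReal_le_ofReal (ww_le_one S Λ η ω)
        _ = 1 := ENNReal.ofReal_one
    refine ne_top_of_le_ne_top ?_ this
    simp
  have hint : ∀ η : Λ → Bool,
      Integrable f ((π.withDensity fun ω => ENNReal.ofReal (ww S Λ η ω)).map (glue Λ η)) := by
    intro η
    have := hfin η
    have h2 : IsFiniteMeasure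
        ((π.withDensity fun ω => ENNReal.ofReal (ww S Λ η ω)).map (glue Λ η)) :=
      Measure.isFiniteMeasure_map _ _
    exact Integrable.of_bound hf.aestronglyMeasurable C (ae_of_all _ hC)
  unfold KK
  rw [integral_finsetSum_measure fun η _ => hint η]
  have h1 : ∀ η : Λ → Bool,
      ∫ ω, f ω ∂((π.withDensity fun ω => ENNReal.ofReal (ww S Λ η ω)).map (glue Λ η)) =
        ∫ ω, ww S Λ η ω * f (glue Λ η ω) ∂π := by
    intro η
    rw [integral_map (hg η).aemeasurable hf.aestronglyMeasurable,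
      integral_withDensity_eq_integral_toReal_smul (hw η) (ae_of_all _ fun ω => ENNReal.ofReal_lt_top)]
    refine integral_congr_ae (ae_of_all _ fun ω => ?_)
    simp only [smul_eq_mul]
    rw [ENNReal.toReal_ofReal (ww_nonneg S Λ η ω)]
  rw [Finset.sum_congr rfl fun η _ => h1 η, ← integral_finsetSum]
  · exact integral_congr_ae (ae_of_all _ fun ω => (gE_eq S Λ ω f).symm)
  · intro η _
    refine Integrable.of_bound ?_ C (ae_of_all _ fun ω => ?_)
    · exact ((continuous_ww S Λ η).measurable.mul (hf.comp (hg η))).aestronglyMeasurable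
    · rw [Real.norm_eq_abs, abs_mul, abs_of_nonneg (ww_nonneg S Λ η ω)]
      calc ww S Λ η ω * |f (glue Λ η ω)| ≤ 1 * |f (glue Λ η ω)| :=
            mul_le_mul_of_nonneg_right (ww_le_one S Λ η ω) (abs_nonneg _)
        _ ≤ C := by rw [one_mul]; exact hC _

theorem prob_KK (Λ : Finset X)
    (π : Measure (X → Bool)) [IsProbabilityMeasure π] :
    IsProbabilityMeasure (KK S Λ π) := by
  constructor
  have hg : ∀ η : Λ → Bool, Measurable (glue Λ η) := fun η => (continuous_glue Λ η).measurable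
  unfold KK
  rw [Measure.finsetSum_apply]
  have h1 : ∀ η : Λ → Bool,
      ((π.withDensity fun ω => ENNReal.ofReal (ww S Λ η ω)).map (glue Λ η)) Set.univ =
        ∫⁻ ω, ENNReal.ofReal (ww S Λ η ω) ∂π := by
    intro η
    rw [Measure.map_apply (hg η) MeasurableSet.univ, Set.preimage_univ,
      withDensity_apply _ MeasurableSet.univ, Measure.restrict_univ]
  rw [Finset.sum_congr rfl fun η _ => h1 η, ← lintegral_finsetSum]
  · have h2 : ∀ ω, ∑ η, ENNReal.ofReal (ww S Λ η ω) = 1 := by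
      intro ω
      rw [← ENNReal.ofReal_sum_of_nonneg fun η _ => ww_nonneg S Λ η ω, ww_sum,
        ENNReal.ofReal_one]
    simp only [h2]
    simp
  · intro η _
    exact (continuous_ww S Λ η).measurable.ennreal_ofReal

/-- Gibbs measures: probability measures with the DLR equations for all finite sets. -/
def IsG (π : Measure (X → Bool)) : Prop :=
  IsProbabilityMeasure π ∧ ∀ (Λ : Finset X) (A : Set (X → Bool)), MeasurableSet A →
    (π A).toReal = ∫ ω, gE S Λ ω (A.indicator fun _ => (1 : ℝ)) ∂π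

theorem exists_isG : ∃ π, IsG S π := by
  let ω₀ : X → Bool := fun _ => true
  let P : Finset X → ProbabilityMeasure (X → Bool) := fun Λ =>
    ⟨KK S Λ (Measure.dirac ω₀), prob_KK S Λ _⟩
  let U : Ultrafilter (Finset X) := Ultrafilter.of atTop
  have hU : (U : Filter (Finset X)) ≤ atTop := Ultrafilter.of_le _
  obtain ⟨π, -, hπ⟩ := (isCompact_univ (X := ProbabilityMeasure (X → Bool))).ultrafilter_le_nhds
    (U.map P) (by simp)
  have hlim : Tendsto P U (𝓝 π) := hπ
  have hconv : ∀ f : (X → Bool) → ℝ, Continuous f →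
      Tendsto (fun Λ => gE S Λ ω₀ f) U (𝓝 (∫ ω, f ω ∂(π : Measure (X → Bool)))) := by
    intro f hf
    let F : (X → Bool) →ᵇ ℝ := BoundedContinuousFunction.mkOfCompact ⟨f, hf⟩
    have h1 := (ProbabilityMeasure.tendsto_iff_forall_integral_tendsto.mp hlim) F
    refine h1.congr fun Λ => ?_
    have h2 := integral_KK S Λ (Measure.dirac ω₀) f hf.measurable ‖F‖ fun x => F.norm_coe_le_norm x
    rw [integral_dirac] at h2
    exact h2
  -- invariance
  have hinv : ∀ (Λ : Finset X) (f : (X → Bool) → ℝ), Continuous f →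
      ∫ ω, gE S Λ ω f ∂(π : Measure (X → Bool)) =
        ∫ ω, f ω ∂(π : Measure (X → Bool)) := by
    intro Λ f hf
    have h1 := hconv f hf
    have h2 := hconv (fun ω => gE S Λ ω f) (continuous_gE S Λ f hf)
    refine tendsto_nhds_unique h2 (h1.congr' ?_)
    have h3 : ∀ᶠ Λ' in (U : Filter (Finset X)), Λ ⊆ Λ' := hU (eventually_ge_atTop Λ)
    filter_upwards [h3] with Λ' hΛ
    exact gE_cons S hΛ ω₀ f
  have hK : ∀ Λ : Finset X, KK S Λ (π : Measure (X → Bool)) =
      (π : Measure (X → Bool)) := by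
    intro Λ
    have := prob_KK S Λ (π : Measure (X → Bool))
    haveI : TopologicalSpace.MetrizableSpace (X → Bool) :=
      TopologicalSpace.metrizableSpace_of_t3_secondCountable _
    letI : MetricSpace (X → Bool) := TopologicalSpace.metrizableSpaceMetric _
    apply ext_of_forall_integral_eq_of_IsFiniteMeasure
    intro f
    rw [integral_KK S Λ _ f f.continuous.measurable ‖f‖ fun x => f.norm_coe_le_norm x]
    exact hinv Λ f f.continuous
  refine ⟨π, inferInstance, ?_⟩
  intro Λ A hA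
  have hind : Measurable (A.indicator fun _ => (1 : ℝ)) := measurable_const.indicator hA
  have h1 := integral_KK S Λ (π : Measure (X → Bool))
    (A.indicator fun _ => (1 : ℝ)) hind 1 (by
      intro x
      by_cases hx : x ∈ A
      · simp [hx]
      · simp [hx])
  rw [← h1, hK, integral_indicator hA]
  simp [Measure.real]

omit [DecidableEq X] [Countable X] in
/-- `f` takes values in `[0, 1]` -/
def Unit01 (f : (X → Bool) → ℝ) : Prop := ∀ σ, 0 ≤ f σ ∧ f σ ≤ 1

omit [DecidableEq X] [Countable X] in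
/-- `f` depends on the coordinates in `s` -/
def LocalOn (s : Finset X) (f : (X → Bool) → ℝ) : Prop :=
  ∀ σ σ' : X → Bool, (∀ x ∈ s, σ x = σ' x) → f σ = f σ'

omit [Countable X] in
theorem gE_mem (Λ : Finset X) (ω : X → Bool) (f : (X → Bool) → ℝ) (hf : Unit01 f) :
    0 ≤ gE S Λ ω f ∧ gE S Λ ω f ≤ 1 := by
  constructor
  · have h1 := gE_mono S Λ ω (fun _ => 0) f (fun η => (hf _).1)
    rw [gE_const] at h1
    exact h1
  · have h1 := gE_mono S Λ ω f (fun _ => 1) (fun η => (hf _).2)
    rw [gE_const] at h1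
    exact h1

theorem unique_isG (hF : ∀ s : Finset X, ∀ δ : ℝ, 0 < δ → ∃ Λ : Finset X,
      ∀ f : (X → Bool) → ℝ, Unit01 f → LocalOn s f → ∀ ω ω' : X → Bool,
        |gE S Λ ω f - gE S Λ ω' f| ≤ δ)
    {π π' : Measure (X → Bool)} (hπ : IsG S π) (hπ' : IsG S π') : π = π' := by
  have := hπ.1
  have := hπ'.1
  refine MeasureTheory.ext_of_generate_finite (measurableCylinders fun _ : X => Bool)
    generateFrom_measurableCylinders.symm isPiSystem_measurableCylinders ?_ (by simp)
  intro C hC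
  obtain ⟨s, T, hT, rfl⟩ := (mem_measurableCylinders C).1 hC
  set C : Set (X → Bool) := cylinder (α := fun _ : X => Bool) s T with hCdef
  have hCm : MeasurableSet C := MeasurableSet.cylinder s hT
  set f : (X → Bool) → ℝ := C.indicator fun _ => (1 : ℝ) with hf
  have hfm : Measurable f := measurable_const.indicator hCm
  have hf01 : Unit01 f := by
    intro σ
    by_cases h : σ ∈ C <;> simp [hf, h]
  have hfl : LocalOn s f := by
    intro σ σ' h
    have : σ ∈ C ↔ σ' ∈ C := by
      rw [hCdef, mem_cylinder, mem_cylinder]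
      have : s.restrict σ = s.restrict σ' := by
        funext x; exact h x.1 x.2
      rw [this]
    by_cases h1 : σ ∈ C
    · simp [hf, h1, this.1 h1]
    · have h2 : σ' ∉ C := fun h => h1 (this.2 h)
      simp [hf, h1, h2]
  -- comparison of one Gibbs state with a fixed boundary condition
  have key : ∀ (ρ : Measure (X → Bool)), IsG S ρ → ∀ (Λ : Finset X) (δ : ℝ),
      0 < δ → (∀ ω ω' : X → Bool, |gE S Λ ω f - gE S Λ ω' f| ≤ δ) →
      |(ρ C).toReal - gE S Λ (fun _ => true) f| ≤ δ := by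
    intro ρ hρ Λ δ hδ hb
    have := hρ.1
    rw [hρ.2 Λ C hCm]
    have hint : Integrable (fun ω => gE S Λ ω f) ρ := by
      refine Integrable.of_bound (meas_gE S _ f hfm).aestronglyMeasurable 1 ?_
      refine Filter.Eventually.of_forall fun ω => ?_
      have := gE_mem S Λ ω f hf01
      rw [Real.norm_eq_abs, abs_of_nonneg this.1]
      exact this.2
    have e : (∫ ω, gE S Λ ω f ∂ρ) - gE S Λ (fun _ => true) f
        = ∫ ω, (gE S Λ ω f - gE S Λ (fun _ => true) f) ∂ρ := by
      rw [integral_sub hint (integrable_const _)]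
      simp
    rw [e]
    have := norm_integral_le_of_norm_le_const (μ := ρ)
      (f := fun ω => gE S Λ ω f - gE S Λ (fun _ => true) f)
      (C := δ) (Filter.Eventually.of_forall fun ω => by
        rw [Real.norm_eq_abs]; exact hb ω _)
    simpa using this
  have hfin : ∀ δ : ℝ, 0 < δ → |(π C).toReal - (π' C).toReal| ≤ 2 * δ := by
    intro δ hδ
    obtain ⟨Λ, hΛ⟩ := hF s δ hδ
    have h1 := key π hπ Λ δ hδ (hΛ f hf01 hfl)
    have h2 := key π' hπ' Λ δ hδ (hΛ f hf01 hfl)
    rw [abs_le] at h1 h2 ⊢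
    constructor <;> linarith [h1.1, h1.2, h2.1, h2.2]
  have heq : (π C).toReal = (π' C).toReal := by
    by_contra hne
    have hpos : 0 < |(π C).toReal - (π' C).toReal| := abs_pos.2 (sub_ne_zero.2 hne)
    have := hfin (|(π C).toReal - (π' C).toReal| / 4) (by positivity)
    linarith
  exact (ENNReal.toReal_eq_toReal_iff' (measure_ne_top _ _) (measure_ne_top _ _)).1 heq

end Pool.Agent.Q234.EA
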