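import Pool.Agent.Q234.EA.Cnt

/-!
# Horns of logarithmic width contain many straight pieces
-/

set_option autoImplicit false

open Finset Filter Topology

namespace Pool.Agent.Q234.EA

/-- the horn of width `w` -/
def horn (k : ℕ) (w : ℕ → ℕ) : Set (Site k) :=
  {v | 0 ≤ v 0 ∧ ∀ i : Fin (k + 1), |v i.succ| ≤ (w (v 0).toNat : ℤ)}

variable {k : ℕ} {w : ℕ → ℕ}

lemma mem_horn {v : Site k} : v ∈ horn k w ↔
    0 ≤ v 0 ∧ ∀ i : Fin (k + 1), |v i.succ| ≤ (w (v 0).toNat : ℤ) := Iff.rfl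

theorem hfin_horn (hw : Monotone w) (hlog : ∀ᶠ n : ℕ in atTop, (w n : ℝ) ≤ Real.log n) (c : ℤ) :
    {x : horn k w | lam x.1 ≤ c}.Finite := by
  obtain ⟨N, hN⟩ := eventually_atTop.1 hlog
  set C : ℕ := N + 1 + (2 * c).toNat with hC
  have hhalf : ∀ u : ℕ, N + 1 ≤ u → 2 * w u ≤ u := by
    intro u hu
    have h1 := hN u (by omega)
    have h2 : Real.log u ≤ (u : ℝ) / 2 := by
      have hu0 : (0 : ℝ) < (u : ℝ) / 2 := by
        have : (0 : ℝ) < u := by exact_mod_cast (by omega : 0 < u)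
        positivity
      have h3 := Real.log_le_sub_one_of_pos hu0
      have h4 : Real.log u = Real.log ((u : ℝ) / 2) + Real.log 2 := by
        rw [← Real.log_mul hu0.ne' (by norm_num)]
        congr 1
        ring
      have h5 := Real.log_two_lt_d9
      linarith
    have h6 : (2 * w u : ℝ) ≤ u := by linarith
    exact_mod_cast h6
  have hsub : (Subtype.val '' {x : horn k w | lam x.1 ≤ c}) ⊆
      (Fintype.piFinset (fun _ : Fin (k + 2) =>
        Finset.Icc (-((C : ℤ) + w C)) ((C : ℤ) + w C)) : Finset (Site k)) := by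
    rintro _ ⟨x, hx, rfl⟩
    have hx0 : lam x.1 ≤ c := hx
    obtain ⟨h0, h1⟩ := mem_horn.1 x.2
    obtain ⟨u, hu⟩ := Int.eq_ofNat_of_zero_le h0
    have hun : (x.1 0).toNat = u := by omega
    rw [hun] at h1
    have h10 := h1 0
    rw [Fin.succ_zero_eq_one, abs_le] at h10
    have huC : u ≤ C := by
      by_contra hc
      push Not at hc
      have h2 := hhalf u (by omega)
      unfold lam at hx0
      omega
    have hwC : w u ≤ w C := hw huC
    rw [mem_coe, Fintype.mem_piFinset]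
    intro i
    rw [Finset.mem_Icc]
    refine Fin.cases ?_ (fun j => ?_) i
    · constructor <;> omega
    · have h3 := h1 j
      rw [abs_le] at h3
      constructor <;> omega
  exact Set.Finite.of_finite_image ((Finset.finite_toSet _).subset hsub)
    Subtype.val_injective.injOn

lemma tube_horn (hw : Monotone w) {x l n : ℕ} (hx : w x = w (x + l)) (h1 : x + w x ≤ n)
    (h2 : n + 5 + w x ≤ x + l) (hu : ∀ u : ℕ, x + l < u → w u + n + 5 < u) :
    Tube (horn k w) n (w n) := by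
  have hn : w n = w x := le_antisymm (by rw [hx]; exact hw (by omega)) (hw (by omega))
  intro v hv1 hv2
  rw [hn, mem_horn]
  constructor
  · rintro ⟨h0, h3⟩ i
    obtain ⟨u, hu'⟩ := Int.eq_ofNat_of_zero_le h0
    have hun : (v 0).toNat = u := by omega
    rw [hun] at h3
    refine (h3 i).trans ?_
    by_cases hc : u ≤ x + l
    · rw [hx]
      exact_mod_cast hw hc
    · push Not at hc
      have h4 := hu u hc
      have h5 := h3 0
      rw [Fin.succ_zero_eq_one, abs_le] at h5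
      unfold lam at hv1 hv2
      omega
  · intro h3
    have h5 := h3 0
    rw [Fin.succ_zero_eq_one, abs_le] at h5
    unfold lam at hv1 hv2
    have h0 : 0 ≤ v 0 := by omega
    refine ⟨h0, fun i => (h3 i).trans ?_⟩
    have : w x ≤ w (v 0).toNat := hw (by omega)
    exact_mod_cast this

lemma log_bound {L n : ℕ} (hL : 1 ≤ L) (hn : 1 ≤ n) (h : n ≤ 3 * L ^ 4) :
    Real.log n ≤ 4 * L - 2 := by
  have hL0 : (0 : ℝ) < L := by exact_mod_cast hL
  have h1 : Real.log n ≤ Real.log (3 * (L : ℝ) ^ 4) := by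
    apply Real.log_le_log (by exact_mod_cast hn)
    exact_mod_cast h
  have h2 : Real.log (3 * (L : ℝ) ^ 4) = Real.log 3 + 4 * Real.log L := by
    rw [Real.log_mul (by norm_num) (by positivity), Real.log_pow]
    norm_num
  have h3 := Real.log_le_sub_one_of_pos (show (0 : ℝ) < 3 by norm_num)
  have h4 := Real.log_le_sub_one_of_pos hL0
  linarith

lemma log_add {A u : ℕ} (hA : 1 ≤ A) (hu : A ≤ u) :
    Real.log u ≤ Real.log A + ((u : ℝ) - A) := by
  have hA0 : (1 : ℝ) ≤ A := by exact_mod_cast hA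
  have hu0 : (A : ℝ) ≤ u := by exact_mod_cast hu
  have hAp : (0 : ℝ) < A := by linarith
  have hup : (0 : ℝ) < u := by linarith
  have h1 : Real.log u = Real.log A + Real.log ((u : ℝ) / A) := by
    rw [← Real.log_mul hAp.ne' (div_pos hup hAp).ne']
    congr 1
    field_simp
  have h2 := Real.log_le_sub_one_of_pos (div_pos hup hAp)
  have h3 : (u : ℝ) / A - 1 ≤ (u : ℝ) - A := by
    rw [div_sub_one (by positivity), div_le_iff₀ (by positivity)]
    nlinarith
  linarith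

theorem windows (hw : Monotone w) (hlog : ∀ᶠ n : ℕ in atTop, (w n : ℝ) ≤ Real.log n) :
    ∀ᶠ L : ℕ in atTop, ∃ a : ℕ, L ≤ a ∧ ∀ j : ℕ, a ≤ j → j ≤ a + L →
      Tube (horn k w) ((6 * j : ℕ) : ℤ) (w (6 * j)) ∧ 6 * j ≤ 16 * L ^ 4 := by
  obtain ⟨N, hN⟩ := eventually_atTop.1 hlog
  rw [eventually_atTop]
  refine ⟨N + 20, fun L hL => ?_⟩
  have hL4 : L ≤ L ^ 4 := by
    calc L = L ^ 1 := (pow_one L).symm
      _ ≤ L ^ 4 := Nat.pow_le_pow_right (by omega) (by norm_num)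
  have hLL : 20 * L ≤ L ^ 2 := by rw [pow_two]; exact Nat.mul_le_mul_right _ (by omega)
  have hw4 : ∀ n : ℕ, L ≤ n → n ≤ 3 * L ^ 4 → w n ≤ 4 * L := by
    intro n h1 h2
    have h3 := (hN n (by omega)).trans (log_bound (by omega) (by omega) h2)
    have h4 : (w n : ℝ) ≤ 4 * L := by linarith
    exact_mod_cast h4
  have h24 : L ^ 2 * L ^ 2 = L ^ 4 := by rw [← pow_add]
  -- the pigeonhole principle
  obtain ⟨i, hi, hieq⟩ : ∃ i : ℕ, i < L ^ 2 ∧
      w (L ^ 4 + i * L ^ 2) = w (L ^ 4 + i * L ^ 2 + L ^ 2) := by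
    by_contra hc
    push Not at hc
    have hgrow : ∀ i : ℕ, i ≤ L ^ 2 → i ≤ w (L ^ 4 + i * L ^ 2) := by
      intro i
      induction i with
      | zero => intro _; exact Nat.zero_le _
      | succ i ih =>
        intro h
        have h1 := ih (by omega)
        have h2 := hc i (by omega)
        have h3 : w (L ^ 4 + i * L ^ 2) ≤ w (L ^ 4 + i * L ^ 2 + L ^ 2) := hw (by omega)
        have h4 : L ^ 4 + (i + 1) * L ^ 2 = L ^ 4 + i * L ^ 2 + L ^ 2 := by ring
        rw [h4]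
        omega
    have h1 := hgrow (L ^ 2) le_rfl
    have h2 := hw4 (L ^ 4 + L ^ 2 * L ^ 2) (by omega) (by omega)
    omega
  set x : ℕ := L ^ 4 + i * L ^ 2 with hx
  have hil : i * L ^ 2 + L ^ 2 ≤ L ^ 4 := by
    calc i * L ^ 2 + L ^ 2 = (i + 1) * L ^ 2 := by ring
      _ ≤ L ^ 2 * L ^ 2 := Nat.mul_le_mul_right _ hi
      _ = L ^ 4 := h24
  have hwx : w x ≤ 4 * L := hw4 x (by omega) (by omega)
  refine ⟨(x + w x) / 6 + 1, ?_, ?_⟩
  · have h6 : 6 * L ≤ L ^ 4 := by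
      calc 6 * L ≤ L ^ 2 := by omega
        _ ≤ L ^ 4 := Nat.pow_le_pow_right (by omega) (by norm_num)
    omega
  · intro j hj1 hj2
    have hn1 : x + w x ≤ 6 * j := by omega
    have hn2 : 6 * j ≤ x + w x + 6 + 6 * L := by omega
    refine ⟨tube_horn hw hieq hn1 (by omega) ?_, by omega⟩
    intro u hu
    have h1 := hN u (by omega)
    have h2 := log_add (A := x + L ^ 2) (u := u) (by omega) (by omega)
    have h3 := log_bound (L := L) (n := x + L ^ 2) (by omega) (by omega) (by omega)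
    push_cast at h2 h3
    have h4 : (w u : ℝ) ≤ 4 * L - 2 + ((u : ℝ) - (x + (L : ℝ) ^ 2)) := by linarith
    have h5 : (w u : ℝ) + 2 + x + (L : ℝ) ^ 2 ≤ 4 * L + u := by linarith
    have h6 : w u + 2 + x + L ^ 2 ≤ 4 * L + u := by exact_mod_cast h5
    omega

theorem not_summable_of (f : ℕ → ℝ)
    (hf : ∀ᶠ L : ℕ in atTop, ∃ a : ℕ, L ≤ a ∧ ∀ j : ℕ, a ≤ j → j ≤ a + L →
      1 / (2 * (L : ℝ)) ≤ f j) : ¬ Summable f := by
  intro hs
  obtain ⟨s, hs'⟩ := summable_iff_vanishing_norm.1 hs (1 / 2) (by norm_num)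
  obtain ⟨N, hN⟩ := eventually_atTop.1 hf
  set L : ℕ := N + 1 + s.sup id with hL
  obtain ⟨a, ha, hj⟩ := hN L (by omega)
  have hdis : Disjoint (Finset.Icc a (a + L)) s := by
    rw [Finset.disjoint_left]
    intro j hj1 hj2
    have h1 := Finset.le_sup (f := id) hj2
    have h2 := (Finset.mem_Icc.1 hj1).1
    simp only [id] at h1
    omega
  have h1 := hs' _ hdis
  have hL0 : (0 : ℝ) < L := by exact_mod_cast (by omega : 0 < L)
  have h2 : (1 : ℝ) / 2 ≤ ∑ j ∈ Finset.Icc a (a + L), f j := by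
    have h3 : ∑ _j ∈ Finset.Icc a (a + L), 1 / (2 * (L : ℝ)) ≤
        ∑ j ∈ Finset.Icc a (a + L), f j := by
      refine Finset.sum_le_sum fun j hj' => ?_
      have := Finset.mem_Icc.1 hj'
      exact hj j this.1 this.2
    refine le_trans ?_ h3
    rw [Finset.sum_const, nsmul_eq_mul, Nat.card_Icc]
    have h4 : ((a + L + 1 - a : ℕ) : ℝ) = L + 1 := by
      have : a + L + 1 - a = L + 1 := by omega
      rw [this]; push_cast; ring
    rw [h4, mul_one_div, div_le_div_iff₀ (by norm_num) (by positivity)]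
    nlinarith
  rw [Real.norm_eq_abs] at h1
  linarith [le_abs_self (∑ j ∈ Finset.Icc a (a + L), f j)]

/-- the constant of the growth condition -/
noncomputable def cst (k : ℕ) (q : ℝ) : ℝ :=
  8 * (Real.log 64 + 4 * ((k : ℝ) + 2) * Real.log (1 / q))

lemma log64 : 1 ≤ Real.log 64 := by
  rw [Real.le_log_iff_exp_le (by norm_num)]
  have := Real.exp_one_lt_d9
  linarith

lemma cst_ge {q : ℝ} (hq : 0 < q) (hq1 : q ≤ 1) : 8 ≤ cst k q := by
  unfold cst
  have h1 : 0 ≤ Real.log (1 / q) := Real.log_nonneg (by rw [le_div_iff₀ hq]; linarith)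
  have h2 : 0 ≤ 4 * ((k : ℝ) + 2) * Real.log (1 / q) := by positivity
  linarith [log64]

lemma le_log_of {q : ℝ} (hq : 0 < q) (hq1 : q ≤ 1)
    (hg : ∀ᶠ n : ℕ in atTop, cst k q * (2 * (w n : ℝ) + 1) ^ (k + 1) ≤ Real.log n) :
    ∀ᶠ n : ℕ in atTop, (w n : ℝ) ≤ Real.log n := by
  filter_upwards [hg] with n hn
  have h1 := cst_ge (k := k) hq hq1
  have h2 : (1 : ℝ) ≤ 2 * (w n : ℝ) + 1 := by
    have : (0 : ℝ) ≤ w n := Nat.cast_nonneg _
    linarith
  have h3 : 2 * (w n : ℝ) + 1 ≤ (2 * (w n : ℝ) + 1) ^ (k + 1) := by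
    calc 2 * (w n : ℝ) + 1 = (2 * (w n : ℝ) + 1) ^ 1 := (pow_one _).symm
      _ ≤ _ := pow_le_pow_right₀ h2 (by omega)
  have h4 : 0 ≤ (w n : ℝ) := Nat.cast_nonneg _
  nlinarith

/-- the lower bound for the expected contraction -/
noncomputable def low (k : ℕ) (B q : ℝ) (m : ℕ) : ℝ :=
  kk k B m * q ^ (4 * (k + 2) * (2 * m + 1) ^ (k + 1))

lemma low_eq {B q : ℝ} (hq : 0 < q) (m : ℕ) :
    low k B q m = Real.exp (-(32 * B * (2 * m + 1) ^ k) -
      (Real.log 64 + 4 * ((k : ℝ) + 2) * Real.log (1 / q)) * (2 * m + 1) ^ (k + 1)) := by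
  unfold low kk
  have h1 : (64 : ℝ) ^ ((2 * m + 1) ^ (k + 1)) =
      Real.exp (Real.log 64 * (2 * m + 1) ^ (k + 1)) := by
    rw [Real.exp_mul, Real.exp_log (by norm_num), ← Real.rpow_natCast]
    congr 1
    push_cast
    ring
  have h2 : q ^ (4 * (k + 2) * (2 * m + 1) ^ (k + 1)) =
      Real.exp (-(4 * ((k : ℝ) + 2) * Real.log (1 / q) * (2 * m + 1) ^ (k + 1))) := by
    rw [one_div, Real.log_inv]
    have : -(4 * ((k : ℝ) + 2) * -Real.log q * (2 * m + 1) ^ (k + 1)) =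
        Real.log q * ((4 * (k + 2) * (2 * m + 1) ^ (k + 1) : ℕ) : ℝ) := by push_cast; ring
    rw [this, Real.exp_mul, Real.exp_log hq, Real.rpow_natCast]
  rw [h1, h2, ← Real.exp_sub, ← Real.exp_add]
  congr 1
  ring

lemma low_ev {B q : ℝ} (hB : 0 ≤ B) (hq : 0 < q) (hq1 : q ≤ 1)
    (hg : ∀ᶠ n : ℕ in atTop, cst k q * (2 * (w n : ℝ) + 1) ^ (k + 1) ≤ Real.log n) :
    ∀ᶠ n : ℕ in atTop, Real.exp (-(Real.log n / 4)) ≤ low k B q (w n) := by
  have hlim : Tendsto (fun n : ℕ => Real.log n) atTop atTop :=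
    Real.tendsto_log_atTop.comp tendsto_natCast_atTop_atTop
  have h0 := hlim.eventually_ge_atTop (8 * (32 * B * (32 * B + 1) ^ k))
  filter_upwards [hg, h0] with n hn hn0
  rw [low_eq hq]
  apply Real.exp_le_exp.2
  set y : ℝ := 2 * (w n : ℝ) + 1 with hy
  have hy1 : 1 ≤ y := by
    have : (0 : ℝ) ≤ w n := Nat.cast_nonneg _
    linarith
  have h1 : (Real.log 64 + 4 * ((k : ℝ) + 2) * Real.log (1 / q)) * y ^ (k + 1) ≤
      Real.log n / 8 := by
    unfold cst at hn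
    linarith
  have hc := cst_ge (k := k) hq hq1
  have hyp : 0 < y ^ (k + 1) := by positivity
  have h3 : 8 * y ^ (k + 1) ≤ Real.log n := by nlinarith
  have h2 : 32 * B * y ^ k ≤ Real.log n / 8 := by
    by_cases hbig : 32 * B ≤ y
    · have h4 : 32 * B * y ^ k ≤ y ^ (k + 1) := by
        rw [pow_succ']
        exact mul_le_mul_of_nonneg_right hbig (by positivity)
      linarith
    · push Not at hbig
      have h4 : y ^ k ≤ (32 * B + 1) ^ k := pow_le_pow_left₀ (by linarith) (by linarith) k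
      have h5 : 32 * B * y ^ k ≤ 32 * B * (32 * B + 1) ^ k :=
        mul_le_mul_of_nonneg_left h4 (by positivity)
      linarith
  linarith

theorem low_window {B q : ℝ} (hB : 0 ≤ B) (hq : 0 < q) (hq1 : q ≤ 1) (hw : Monotone w)
    (hg : ∀ᶠ n : ℕ in atTop, cst k q * (2 * (w n : ℝ) + 1) ^ (k + 1) ≤ Real.log n) :
    ∀ᶠ L : ℕ in atTop, ∃ a : ℕ, L ≤ a ∧ ∀ j : ℕ, a ≤ j → j ≤ a + L →
      Tube (horn k w) ((6 * j : ℕ) : ℤ) (w (6 * j)) ∧
        1 / (2 * (L : ℝ)) ≤ low k B q (w (6 * j)) := by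
  obtain ⟨N, hN⟩ := eventually_atTop.1 (low_ev hB hq hq1 hg)
  filter_upwards [windows (k := k) hw (le_log_of hq hq1 hg), eventually_ge_atTop (N + 1)]
    with L hL hLN
  obtain ⟨a, ha, hj⟩ := hL
  refine ⟨a, ha, fun j h1 h2 => ⟨(hj j h1 h2).1, ?_⟩⟩
  have h3 := (hj j h1 h2).2
  refine le_trans ?_ (hN (6 * j) (by omega))
  have hL0 : (0 : ℝ) < L := by exact_mod_cast (by omega : 0 < L)
  have h4 : Real.log ((6 * j : ℕ) : ℝ) ≤ 4 * Real.log (2 * L) := by
    have h5 : (4 : ℝ) * Real.log (2 * L) = Real.log ((2 * L) ^ 4) := by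
      rw [Real.log_pow]; norm_num
    rw [h5]
    apply Real.log_le_log
    · exact_mod_cast (by omega : 0 < 6 * j)
    · have h6 : ((6 * j : ℕ) : ℝ) ≤ ((16 * L ^ 4 : ℕ) : ℝ) := by exact_mod_cast h3
      calc ((6 * j : ℕ) : ℝ) ≤ ((16 * L ^ 4 : ℕ) : ℝ) := h6
        _ = (2 * (L : ℝ)) ^ 4 := by push_cast; ring
  calc 1 / (2 * (L : ℝ)) = Real.exp (-Real.log (2 * L)) := by
        rw [Real.exp_neg, Real.exp_log (by positivity), one_div]
    _ ≤ _ := Real.exp_le_exp.2 (by linarith)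

end Pool.Agent.Q234.EA
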