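import Mathlib

/-!
# Products of functions of disjoint coordinates tend to zero
-/

set_option autoImplicit false

open Finset Filter Topology MeasureTheory ProbabilityTheory

namespace Pool.Agent.Q234.EA

variable {ι : Type} (ν : Measure Bool) [IsProbabilityMeasure ν]

/-- extension of a configuration on `S` -/
noncomputable def ext (S : Finset ι) (x : S → Bool) : ι → Bool := by
  classical
  exact fun i => if h : i ∈ S then x ⟨i, h⟩ else true

lemma ext_restrict (S : Finset ι) (J : ι → Bool) {i : ι} (h : i ∈ S) :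
    ext S (fun i : S => J i.1) i = J i := by
  unfold ext
  rw [dif_pos h]

lemma local_meas (F : (ι → Bool) → ℝ) (S : Finset ι)
    (hF : ∀ J J' : ι → Bool, (∀ i ∈ S, J i = J' i) → F J = F J') : Measurable F := by
  have h1 : F = (fun x : S → Bool => F (ext S x)) ∘ (fun J : ι → Bool => fun i : S => J i.1) := by
    funext J
    exact hF _ _ fun i hi => (ext_restrict S J hi).symm
  rw [h1]
  refine (measurable_of_countable _).comp ?_
  exact measurable_pi_lambda _ fun i => measurable_pi_apply _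

lemma indep_int (F G : (ι → Bool) → ℝ) (S T : Finset ι) (hST : Disjoint S T)
    (hF : ∀ J J' : ι → Bool, (∀ i ∈ S, J i = J' i) → F J = F J')
    (hG : ∀ J J' : ι → Bool, (∀ i ∈ T, J i = J' i) → G J = G J') :
    ∫ J, F J * G J ∂(Measure.infinitePi fun _ : ι => ν) =
      (∫ J, F J ∂(Measure.infinitePi fun _ : ι => ν)) *
        ∫ J, G J ∂(Measure.infinitePi fun _ : ι => ν) := by
  have h0 : iIndepFun (fun (i : ι) (J : ι → Bool) => J i) (Measure.infinitePi fun _ : ι => ν) :=
    iIndepFun_infinitePi (P := fun _ : ι => ν) (X := fun _ (x : Bool) => x)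
      (fun _ => measurable_id)
  have h1 := h0.indepFun_finset S T hST (fun i => measurable_pi_apply i)
  have h2 := h1.comp (φ := fun x : S → Bool => F (ext S x)) (ψ := fun x : T → Bool => G (ext T x))
    (measurable_of_countable _) (measurable_of_countable _)
  have e1 : ((fun x : S → Bool => F (ext S x)) ∘ fun (J : ι → Bool) (i : S) => J i.1) = F := by
    funext J
    exact (hF _ _ fun i hi => (ext_restrict S J hi).symm).symm
  have e2 : ((fun x : T → Bool => G (ext T x)) ∘ fun (J : ι → Bool) (i : T) => J i.1) = G := by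
    funext J
    exact (hG _ _ fun i hi => (ext_restrict T J hi).symm).symm
  rw [e1, e2] at h2
  exact h2.integral_fun_mul_eq_mul_integral (local_meas F S hF).aestronglyMeasurable
    (local_meas G T hG).aestronglyMeasurable

variable (D : ℕ → Finset ι) (p : ℕ → ι → Bool) (κ : ℕ → ℝ)

/-- the pattern event -/
def Ev (j : ℕ) (J : ι → Bool) : Prop := ∀ i ∈ D j, J i = p j i

open Classical in
/-- one factor -/
noncomputable def fac (j : ℕ) (J : ι → Bool) : ℝ := if Ev D p j J then 1 - κ j else 1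

lemma fac_loc (j : ℕ) (J J' : ι → Bool) (h : ∀ i ∈ D j, J i = J' i) :
    fac D p κ j J = fac D p κ j J' := by
  have : Ev D p j J ↔ Ev D p j J' := by
    constructor
    · intro h1 i hi; rw [← h i hi]; exact h1 i hi
    · intro h1 i hi; rw [h i hi]; exact h1 i hi
  unfold fac
  by_cases h1 : Ev D p j J
  · rw [if_pos h1, if_pos (this.1 h1)]
  · rw [if_neg h1, if_neg (fun h2 => h1 (this.2 h2))]

lemma fac_mem (hκ0 : ∀ j, 0 ≤ κ j) (hκ1 : ∀ j, κ j ≤ 1) (j : ℕ) (J : ι → Bool) :
    0 ≤ fac D p κ j J ∧ fac D p κ j J ≤ 1 := by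
  unfold fac
  split_ifs
  · constructor <;> linarith [hκ0 j, hκ1 j]
  · constructor <;> norm_num

lemma fac_int {q : ℝ} (hq : 0 ≤ q) (hν : ∀ b : Bool, q ≤ ν.real {b}) (hκ0 : ∀ j, 0 ≤ κ j)
    (j : ℕ) :
    ∫ J, fac D p κ j J ∂(Measure.infinitePi fun _ : ι => ν) ≤ 1 - κ j * q ^ (D j).card := by
  classical
  set μ := Measure.infinitePi fun _ : ι => ν with hμ
  set A : Set (ι → Bool) := Set.pi (D j) (fun i => {p j i}) with hA
  have hAm : MeasurableSet A := by
    apply MeasurableSet.pi (D j).countable_toSet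
    intro i _
    exact MeasurableSet.singleton _
  have h1 : ∀ J, fac D p κ j J = 1 - κ j * A.indicator (fun _ => (1 : ℝ)) J := by
    intro J
    have hiff : Ev D p j J ↔ J ∈ A := by
      rw [hA, Set.mem_pi]
      constructor
      · intro h i hi; exact h i hi
      · intro h i hi; exact h i hi
    unfold fac
    by_cases h : Ev D p j J
    · rw [if_pos h, Set.indicator_of_mem (hiff.1 h)]; ring
    · rw [if_neg h, Set.indicator_of_notMem (fun h2 => h (hiff.2 h2))]; ring
  simp only [h1]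
  rw [integral_sub (integrable_const _) ((integrable_const (1 : ℝ)).indicator hAm |>.const_mul _),
    integral_const_mul, integral_indicator hAm]
  have h2 : μ.real A = ∏ i ∈ D j, ν.real {p j i} := by
    rw [Measure.real, hμ, hA, Measure.infinitePi_pi _ (fun i _ => MeasurableSet.singleton _),
      ENNReal.toReal_prod]
    rfl
  have h3 : q ^ (D j).card ≤ μ.real A := by
    rw [h2, ← Finset.prod_const]
    exact Finset.prod_le_prod (fun i _ => hq) (fun i _ => hν _)
  simp only [integral_const, smul_eq_mul, mul_one, MeasurableSet.univ, measureReal_restrict_apply,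
    Set.univ_inter, probReal_univ]
  have := mul_le_mul_of_nonneg_left h3 (hκ0 j)
  linarith

lemma prod_int {q : ℝ} (hq : 0 ≤ q) (hν : ∀ b : Bool, q ≤ ν.real {b})
    (hκ0 : ∀ j, 0 ≤ κ j) (hκ1 : ∀ j, κ j ≤ 1) (hD : ∀ i j, i ≠ j → Disjoint (D i) (D j))
    (j0 m : ℕ) :
    ∫ J, ∏ i ∈ range m, fac D p κ (j0 + i) J ∂(Measure.infinitePi fun _ : ι => ν) ≤
      Real.exp (-∑ i ∈ range m, κ (j0 + i) * q ^ (D (j0 + i)).card) := by
  classical
  induction m with
  | zero => simp
  | succ m ih =>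
    simp only [Finset.prod_range_succ]
    rw [indep_int ν (fun J => ∏ i ∈ range m, fac D p κ (j0 + i) J) (fun J => fac D p κ (j0 + m) J)
      ((range m).biUnion fun i => D (j0 + i)) (D (j0 + m)) ?_ ?_ ?_]
    · have h1 := fac_int ν D p κ hq hν hκ0 (j0 + m)
      have h2 : 1 - κ (j0 + m) * q ^ (D (j0 + m)).card ≤
          Real.exp (-(κ (j0 + m) * q ^ (D (j0 + m)).card)) := by
        have := Real.add_one_le_exp (-(κ (j0 + m) * q ^ (D (j0 + m)).card))
        linarith
      rw [Finset.sum_range_succ, neg_add, Real.exp_add]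
      refine mul_le_mul ih (h1.trans h2) ?_ (Real.exp_pos _).le
      exact integral_nonneg fun J => (fac_mem D p κ hκ0 hκ1 _ J).1
    · rw [Finset.disjoint_biUnion_left]
      intro i hi
      apply hD
      have := mem_range.1 hi
      omega
    · intro J J' h
      refine Finset.prod_congr rfl fun i hi => ?_
      exact fac_loc D p κ _ J J' fun x hx => h x (mem_biUnion.2 ⟨i, hi, hx⟩)
    · intro J J' h
      exact fac_loc D p κ _ J J' h

theorem prod_small {q : ℝ} (hq : 0 ≤ q) (hν : ∀ b : Bool, q ≤ ν.real {b})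
    (hκ0 : ∀ j, 0 ≤ κ j) (hκ1 : ∀ j, κ j ≤ 1) (hD : ∀ i j, i ≠ j → Disjoint (D i) (D j))
    (hsum : ∀ j0 : ℕ, ∀ M : ℝ, ∃ m : ℕ, M ≤ ∑ i ∈ range m, κ (j0 + i) * q ^ (D (j0 + i)).card) :
    ∀ᵐ J ∂(Measure.infinitePi fun _ : ι => ν), ∀ j0 : ℕ, ∀ δ : ℝ, 0 < δ →
      ∃ m : ℕ, ∏ i ∈ range m, fac D p κ (j0 + i) J ≤ δ := by
  classical
  set μ := Measure.infinitePi fun _ : ι => ν with hμ
  have key : ∀ (j0 l : ℕ), ∀ᵐ J ∂μ, ∃ m : ℕ, ∏ i ∈ range m, fac D p κ (j0 + i) J ≤
      1 / ((l : ℝ) + 1) := by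
    intro j0 l
    set δ : ℝ := 1 / ((l : ℝ) + 1) with hδ
    have hδ0 : 0 < δ := by positivity
    rw [ae_iff]
    have hle : ∀ m : ℕ, μ.real {J | ¬ ∃ m : ℕ, ∏ i ∈ range m, fac D p κ (j0 + i) J ≤ δ} ≤
        Real.exp (-∑ i ∈ range m, κ (j0 + i) * q ^ (D (j0 + i)).card) / δ := by
      intro m
      set Y : (ι → Bool) → ℝ := fun J => ∏ i ∈ range m, fac D p κ (j0 + i) J with hY
      have hYn : ∀ J, 0 ≤ Y J := fun J => Finset.prod_nonneg fun i _ =>
        (fac_mem D p κ hκ0 hκ1 _ J).1
      have hY1 : ∀ J, Y J ≤ 1 := fun J => Finset.prod_le_one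
        (fun i _ => (fac_mem D p κ hκ0 hκ1 _ J).1) (fun i _ => (fac_mem D p κ hκ0 hκ1 _ J).2)
      have hYm : Measurable Y := by
        apply local_meas Y ((range m).biUnion fun i => D (j0 + i))
        intro J J' h
        refine Finset.prod_congr rfl fun i hi => ?_
        exact fac_loc D p κ _ J J' fun x hx => h x (mem_biUnion.2 ⟨i, hi, hx⟩)
      have hYi : Integrable Y μ := by
        refine Integrable.of_bound hYm.aestronglyMeasurable 1 (Filter.Eventually.of_forall ?_)
        intro J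
        rw [Real.norm_eq_abs, abs_of_nonneg (hYn J)]
        exact hY1 J
      have hM := mul_meas_ge_le_integral_of_nonneg (μ := μ) (f := Y)
        (Filter.Eventually.of_forall hYn) hYi δ
      have hsub : μ.real {J | ¬ ∃ m : ℕ, ∏ i ∈ range m, fac D p κ (j0 + i) J ≤ δ} ≤
          μ.real {J | δ ≤ Y J} := by
        apply measureReal_mono
        · intro J hJ
          simp only [Set.mem_ofPred_eq, not_exists, not_le] at hJ ⊢
          exact (hJ m).le
        · exact measure_ne_top _ _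
      have h3 := prod_int ν D p κ hq hν hκ0 hκ1 hD j0 m
      rw [le_div_iff₀ hδ0]
      calc _ ≤ μ.real {J | δ ≤ Y J} * δ := mul_le_mul_of_nonneg_right hsub hδ0.le
        _ = δ * μ.real {J | δ ≤ Y J} := mul_comm _ _
        _ ≤ ∫ J, Y J ∂μ := hM
        _ ≤ _ := h3
    have hzero : μ.real {J | ¬ ∃ m : ℕ, ∏ i ∈ range m, fac D p κ (j0 + i) J ≤ δ} ≤ 0 := by
      apply le_of_forall_pos_le_add
      intro ε hε
      rw [zero_add]
      obtain ⟨m, hm⟩ := hsum j0 (-Real.log (ε * δ))
      refine (hle m).trans ?_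
      rw [div_le_iff₀ hδ0]
      calc Real.exp (-∑ i ∈ range m, κ (j0 + i) * q ^ (D (j0 + i)).card)
          ≤ Real.exp (Real.log (ε * δ)) := Real.exp_le_exp.2 (by linarith)
        _ = ε * δ := Real.exp_log (by positivity)
    have h0 : μ.real {J | ¬ ∃ m : ℕ, ∏ i ∈ range m, fac D p κ (j0 + i) J ≤ δ} = 0 :=
      le_antisymm hzero measureReal_nonneg
    exact (measureReal_eq_zero_iff (measure_ne_top _ _)).1 h0
  have h2 := ae_all_iff.2 fun j0 => ae_all_iff.2 fun l => key j0 l
  filter_upwards [h2] with J hJ j0 δ hδ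
  obtain ⟨l, hl⟩ := exists_nat_one_div_lt hδ
  obtain ⟨m, hm⟩ := hJ j0 l
  exact ⟨m, hm.trans hl.le⟩

end Pool.Agent.Q234.EA
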