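import Pool.Agent.Q234.EA.Gro
import Pool.Agent.Q234.EA.Prb

/-!
# Almost sure uniqueness on horns of logarithmic cross-section, at all temperatures
-/

set_option autoImplicit false

open Finset Filter Topology MeasureTheory

namespace Pool.Agent.Q234.EA

variable {k : ℕ}

/-- the pattern as a `Bool` -/
noncomputable def pb (n : ℤ) (e : Bond k) : Bool := by
  classical
  exact if e.2 = 1 ∧ (lam e.1 = n + 1 ∨ lam e.1 = n + 4) then false else true

lemma sg_pb (n : ℤ) (v : Site k) (i : Fin (k + 2)) : sg (pb n (v, i)) = pat n v i := by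
  unfold pb pat sg
  by_cases h : i = 1 ∧ (lam v = n + 1 ∨ lam v = n + 4)
  · simp [h]
  · rw [if_neg h, if_neg h]
    simp

theorem main (ν : Measure Bool) [IsProbabilityMeasure ν] {q : ℝ} (hq : 0 < q)
    (hν : ∀ b : Bool, q ≤ ν.real {b}) {w : ℕ → ℕ} (hw : Monotone w)
    (hg : ∀ᶠ n : ℕ in atTop, cst k q * (2 * (w n : ℝ) + 1) ^ (k + 1) ≤ Real.log n) :
    ∀ᵐ J ∂(Measure.infinitePi fun _ : Bond k => ν), ∀ β : ℝ, 0 < β →
      ∃! π : Measure (horn k w → Bool), IsG (spec (horn k w) fun e => β * sg (J e)) π := by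
  classical
  have hq1 : q ≤ 1 := (hν true).trans measureReal_le_one
  have hlog := le_log_of (k := k) hq hq1 hg
  have hfin := hfin_horn (k := k) hw hlog
  set D : ℕ → Finset (Bond k) := fun j => DD hfin (6 * (j : ℤ)) with hD
  set p : ℕ → Bond k → Bool := fun j e => pb (6 * (j : ℤ)) e with hp
  set κ : ℕ → ℕ → ℝ := fun B j =>
    if Tube (horn k w) (6 * (j : ℤ)) (w (6 * j)) then kk k B (w (6 * j)) else 0 with hκ
  have hκ0 : ∀ B j, 0 ≤ κ B j := by
    intro B j
    simp only [hκ]
    split_ifs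
    · exact (kk_pos _ _).le
    · exact le_rfl
  have hκ1 : ∀ B j, κ B j ≤ 1 := by
    intro B j
    simp only [hκ]
    split_ifs
    · exact kk_le_one (Nat.cast_nonneg _) _
    · exact zero_le_one
  have hdis : ∀ i j, i ≠ j → Disjoint (D i) (D j) := by
    intro i j hij
    rw [Finset.disjoint_left]
    intro e h1 h2
    simp only [hD, mem_DD] at h1 h2
    omega
  have hns : ∀ B : ℕ, ¬ Summable fun j => κ B j * q ^ (D j).card := by
    intro B
    apply not_summable_of
    filter_upwards [low_window (k := k) (B := (B : ℝ)) (Nat.cast_nonneg _) hq hq1 hw hg] with L hL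
    obtain ⟨a, ha, hj⟩ := hL
    refine ⟨a, ha, fun j h1 h2 => ?_⟩
    obtain ⟨h3, h4⟩ := hj j h1 h2
    refine h4.trans ?_
    push_cast at h3
    simp only [hκ, if_pos h3]
    unfold low
    refine mul_le_mul_of_nonneg_left ?_ (kk_pos _ _).le
    exact pow_le_pow_of_le_one hq.le hq1 (card_DD hfin h3)
  have hsum : ∀ B : ℕ, ∀ j0 : ℕ, ∀ M : ℝ, ∃ m : ℕ,
      M ≤ ∑ i ∈ range m, κ B (j0 + i) * q ^ (D (j0 + i)).card := by
    intro B j0 M
    have h1 : ¬ Summable fun i => κ B (i + j0) * q ^ (D (i + j0)).card := fun h =>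
      hns B ((summable_nat_add_iff (f := fun j => κ B j * q ^ (D j).card) j0).1 h)
    have h2 := (not_summable_iff_tendsto_nat_atTop_of_nonneg (fun i =>
      mul_nonneg (hκ0 B _) (by positivity))).1 h1
    obtain ⟨m, hm⟩ := (h2.eventually_ge_atTop M).exists
    refine ⟨m, hm.trans (le_of_eq ?_)⟩
    exact Finset.sum_congr rfl fun i _ => by rw [add_comm]
  have hprod := ae_all_iff.2 fun B : ℕ =>
    prod_small ν D p (κ B) hq.le hν (hκ0 B) (hκ1 B) hdis (hsum B)
  filter_upwards [hprod] with J hJ β hβ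
  obtain ⟨B, hB⟩ := exists_nat_ge β
  have hcon : ∀ j : ℕ, fac D p (κ B) j J = 1 ∨
      (Pat (horn k w) (fun e => β * sg (J e)) β (6 * j) ∧
      1 - Split.kap (MM hfin (6 * j)) (UU hfin β (6 * j)) (VV hfin β (6 * j)) ≤
        fac D p (κ B) j J) := by
    intro j
    by_cases hE : Ev D p j J
    · by_cases hT : Tube (horn k w) (6 * (j : ℤ)) (w (6 * j))
      · right
        constructor
        · intro v i h1 _ h3 h4
          have h5 := hE (v, i) (by simp only [hD, mem_DD]; exact ⟨h1, h3, h4⟩)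
          simp only [h5, hp, sg_pb]
        · have h5 : fac D p (κ B) j J = 1 - kk k B (w (6 * j)) := by
            unfold fac
            rw [if_pos hE]
            simp only [hκ, if_pos hT]
          rw [h5]
          have := kk_le_kap hfin hT hβ.le hB
          linarith
      · left
        unfold fac
        rw [if_pos hE]
        simp only [hκ, if_neg hT]
        ring
    · left
      unfold fac
      rw [if_neg hE]
  obtain ⟨π, hπ⟩ := exists_isG (spec (horn k w) fun e => β * sg (J e))
  refine ⟨π, hπ, fun π' hπ' => ?_⟩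
  exact unique_of hfin hβ.le (fun j => fac D p (κ B) j J)
    (fun j => (fac_mem D p (κ B) (hκ0 B) (hκ1 B) j J).1) hcon (hJ B) hπ' hπ

end Pool.Agent.Q234.EA
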