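import Pool.Agent.Q234.EA.Dec

/-!
# Iterated contraction and uniqueness
-/

set_option autoImplicit false

open Finset Filter Topology MeasureTheory

namespace Pool.Agent.Q234.EA

section general

variable {X : Type} [DecidableEq X] (S : Spec X)

lemma osc_gE (Λ : Finset X) (g : (X → Bool) → ℝ) {δ : ℝ} (h : ∀ σ σ', |g σ - g σ'| ≤ δ)
    (ω ω' : X → Bool) : |gE S Λ ω g - gE S Λ ω' g| ≤ δ := by
  have key : ∀ τ τ', gE S Λ τ g - gE S Λ τ' g ≤ δ := by
    intro τ τ'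
    have h1 : ∀ σ, gE S Λ τ g ≤ g σ + δ := by
      intro σ
      have := gE_mono S Λ τ g (fun _ => g σ + δ) (fun η => by
        have := (abs_le.1 (h (glue Λ η τ) σ)).2
        linarith)
      rwa [gE_const] at this
    have h2 := gE_mono S Λ τ' (fun _ => gE S Λ τ g) (fun σ => 1 * g σ + δ * 1) (fun η => by
      have := h1 (glue Λ η τ')
      linarith)
    rw [gE_const, gE_lin S Λ τ' g (fun _ => 1) 1 δ, gE_const] at h2
    linarith
  rw [abs_le]
  constructor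
  · linarith [key ω' ω]
  · exact key ω ω'

end general

variable {k : ℕ} {R : Set (Site k)} {K : Bond k → ℝ}
variable (hfin : ∀ c : ℤ, {x : R | lam x.1 ≤ c}.Finite)

lemma gE_dep (c : ℤ) (f : (R → Bool) → ℝ)
    (hf : ∀ σ σ' : R → Bool, (∀ x : R, lam x.1 ≤ c + 1 → σ x = σ' x) → f σ = f σ')
    (σ σ' : R → Bool) (h : ∀ x : R, lam x.1 ≤ c + 1 → σ x = σ' x) :
    gE (spec R K) (LL hfin c) σ f = gE (spec R K) (LL hfin c) σ' f := by
  have hg : ∀ η : LL hfin c → Bool, ∀ x : R, lam x.1 ≤ c + 1 →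
      glue (LL hfin c) η σ x = glue (LL hfin c) η σ' x := by
    intro η x hx
    by_cases hxl : x ∈ LL hfin c
    · rw [glue_mem _ _ hxl, glue_mem _ _ hxl]
    · rw [glue_not_mem _ _ hxl, glue_not_mem _ _ hxl, h x hx]
  apply gE_local
  · intro η
    rw [spec_H, spec_H]
    refine Finset.sum_congr rfl fun e he => ?_
    rw [mem_tch] at he
    have h1 : lam e.1 ≤ c + 1 ∧ lam (e.1 + eu e.2) ≤ c + 1 := by
      rcases he with ⟨_, he⟩ | ⟨_, he⟩
      · rw [mem_LL] at he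
        simp only at he
        rw [lam_add]
        rcases lam_eu_mem e.2 with h7 | h7 <;> omega
      · rw [mem_LL] at he
        simp only at he
        have h8 := he
        rw [lam_add] at he
        rcases lam_eu_mem e.2 with h7 | h7 <;> omega
    exact term_congr R K _ _ e (fun hv => hg η _ h1.1) (fun hv => hg η _ h1.2)
  · intro η
    exact hf _ _ (hg η)

theorem iterate {b : ℝ} (hb : 0 ≤ b) (r : ℕ → ℝ) (hr : ∀ j, 0 ≤ r j)
    (hcon : ∀ j : ℕ, r j = 1 ∨ (Pat R K b (6 * j) ∧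
      1 - Split.kap (MM hfin (6 * j)) (UU hfin b (6 * j)) (VV hfin b (6 * j)) ≤ r j))
    (f : (R → Bool) → ℝ) (hf : Unit01 f) (j0 : ℕ)
    (hloc : ∀ σ σ' : R → Bool, (∀ x : R, lam x.1 ≤ 6 * j0 + 6 → σ x = σ' x) → f σ = f σ')
    (m : ℕ) (σ σ' : R → Bool) :
    |gE (spec R K) (LL hfin (6 * (j0 + m : ℕ) + 5)) σ f -
      gE (spec R K) (LL hfin (6 * (j0 + m : ℕ) + 5)) σ' f| ≤
      ∏ i ∈ range m, r (j0 + 1 + i) := by
  induction m generalizing σ σ' with
  | zero =>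
    rw [Finset.range_zero, Finset.prod_empty]
    have h1 := gE_mem (spec R K) (LL hfin (6 * (j0 + 0 : ℕ) + 5)) σ f hf
    have h2 := gE_mem (spec R K) (LL hfin (6 * (j0 + 0 : ℕ) + 5)) σ' f hf
    rw [abs_le]
    constructor <;> linarith [h1.1, h1.2, h2.1, h2.2]
  | succ m ih =>
    set j : ℕ := j0 + m with hj
    have hj1 : j0 + (m + 1) = j + 1 := by omega
    rw [hj1]
    have hsub : LL hfin (6 * (j : ℤ) + 5) ⊆ LL hfin (6 * ((j + 1 : ℕ) : ℤ) + 5) := by
      intro x hx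
      rw [mem_LL] at hx ⊢
      push_cast
      omega
    rw [gE_cons (spec R K) hsub σ f, gE_cons (spec R K) hsub σ' f, Finset.prod_range_succ]
    set g : (R → Bool) → ℝ := fun τ => gE (spec R K) (LL hfin (6 * (j : ℤ) + 5)) τ f with hg
    have hr1 : j0 + 1 + m = j + 1 := by omega
    rw [hr1]
    rcases hcon (j + 1) with h | ⟨hp, hk⟩
    · rw [h, mul_one]
      exact osc_gE _ _ g ih σ σ'
    · have hdep : ∀ τ τ' : R → Bool, (∀ x ∈ LL hfin (6 * ((j + 1 : ℕ) : ℤ) + 5),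
          x ∉ MM hfin (6 * ((j + 1 : ℕ) : ℤ)) → ¬ (6 * ((j + 1 : ℕ) : ℤ) + 5 ≤ lam x.1) →
            τ x = τ' x) → g τ = g τ' := by
        intro τ τ' hτ
        apply gE_dep hfin (6 * (j : ℤ) + 5) f
        · intro ρ ρ' hρ
          refine hloc ρ ρ' fun x hx => hρ x ?_
          push_cast [hj] at hx ⊢
          omega
        · intro x hx
          apply hτ x
          · rw [mem_LL]; push_cast; omega
          · rw [mem_MM]; push_cast; omega
          · push_cast; omega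
      have hk1 : 1 - r (j + 1) ≤ 1 := by linarith [hr (j + 1)]
      have hδ : 0 ≤ ∏ i ∈ range m, r (j0 + 1 + i) := Finset.prod_nonneg fun i _ => hr _
      have := (split hfin hb hp).contract g hdep (κ := 1 - r (j + 1)) (by linarith) hk1 hδ ih σ σ'
      calc _ ≤ (1 - (1 - r (j + 1))) * ∏ i ∈ range m, r (j0 + 1 + i) := this
        _ = _ := by ring

theorem unique_of {b : ℝ} (hb : 0 ≤ b) (r : ℕ → ℝ) (hr : ∀ j, 0 ≤ r j)
    (hcon : ∀ j : ℕ, r j = 1 ∨ (Pat R K b (6 * j) ∧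
      1 - Split.kap (MM hfin (6 * j)) (UU hfin b (6 * j)) (VV hfin b (6 * j)) ≤ r j))
    (hprod : ∀ j0 : ℕ, ∀ δ : ℝ, 0 < δ → ∃ m : ℕ, ∏ i ∈ range m, r (j0 + i) ≤ δ)
    {π π' : Measure (R → Bool)} (hπ : IsG (spec R K) π) (hπ' : IsG (spec R K) π') :
    π = π' := by
  refine unique_isG (spec R K) ?_ hπ hπ'
  intro s δ hδ
  obtain ⟨j0, hj0⟩ : ∃ j0 : ℕ, ∀ x ∈ s, lam x.1 ≤ 6 * j0 + 6 := by
    obtain ⟨M, hM⟩ : ∃ M : ℤ, ∀ x ∈ s, lam x.1 ≤ M := by
      obtain ⟨M, hM⟩ := (s.image fun x => lam x.1).bddAbove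
      exact ⟨M, fun x hx => hM (mem_coe.2 (mem_image_of_mem _ hx))⟩
    refine ⟨M.toNat, fun x hx => ?_⟩
    have := hM x hx
    omega
  obtain ⟨m, hm⟩ := hprod (j0 + 1) δ hδ
  refine ⟨LL hfin (6 * (j0 + m : ℕ) + 5), fun f hf hl ω ω' => ?_⟩
  refine (iterate hfin hb r hr hcon f hf j0 ?_ m ω ω').trans hm
  intro σ σ' h
  exact hl σ σ' fun x hx => h x (hj0 x hx)

end Pool.Agent.Q234.EA
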