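import Pool.Agent.Q234.EA.Prb

/-!
# One of many independent events occurs
-/

set_option autoImplicit false

open Finset Filter Topology MeasureTheory ProbabilityTheory

namespace Pool.Agent.Q234.EA

variable {ι : Type} (ν : ι → Measure Bool) [∀ i, IsProbabilityMeasure (ν i)]

lemma indep_int' (F G : (ι → Bool) → ℝ) (S T : Finset ι) (hST : Disjoint S T)
    (hF : ∀ J J' : ι → Bool, (∀ i ∈ S, J i = J' i) → F J = F J')
    (hG : ∀ J J' : ι → Bool, (∀ i ∈ T, J i = J' i) → G J = G J') :
    ∫ J, F J * G J ∂(Measure.infinitePi ν) =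
      (∫ J, F J ∂(Measure.infinitePi ν)) * ∫ J, G J ∂(Measure.infinitePi ν) := by
  have h0 : iIndepFun (fun (i : ι) (J : ι → Bool) => J i) (Measure.infinitePi ν) :=
    iIndepFun_infinitePi (P := ν) (X := fun _ (x : Bool) => x)
      (fun _ => measurable_id)
  have h1 := h0.indepFun_finset S T hST (fun i => measurable_pi_apply i)
  have h2 := h1.comp (φ := fun x : S → Bool => F (ext S x)) (ψ := fun x : T → Bool => G (ext T x))
    (measurable_of_countable _) (measurable_of_countable _)
  have e1 : ((fun x : S → Bool => F (ext S x)) ∘ fun (J : ι → Bool) (i : S) => J i.1) = F := by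
    funext J
    exact (hF _ _ fun i hi => (ext_restrict S J hi).symm).symm
  have e2 : ((fun x : T → Bool => G (ext T x)) ∘ fun (J : ι → Bool) (i : T) => J i.1) = G := by
    funext J
    exact (hG _ _ fun i hi => (ext_restrict T J hi).symm).symm
  rw [e1, e2] at h2
  exact h2.integral_fun_mul_eq_mul_integral (local_meas F S hF).aestronglyMeasurable
    (local_meas G T hG).aestronglyMeasurable

variable (D : ℕ → Finset ι)

open Classical in
/-- the indicator that the event of `D j` fails -/
noncomputable def fl (j : ℕ) (J : ι → Bool) : ℝ := if ∀ i ∈ D j, J i = true then 0 else 1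

lemma fl_loc (j : ℕ) (J J' : ι → Bool) (h : ∀ i ∈ D j, J i = J' i) : fl D j J = fl D j J' := by
  have : (∀ i ∈ D j, J i = true) ↔ ∀ i ∈ D j, J' i = true := by
    constructor
    · intro h1 i hi; rw [← h i hi]; exact h1 i hi
    · intro h1 i hi; rw [h i hi]; exact h1 i hi
  unfold fl
  by_cases h1 : ∀ i ∈ D j, J i = true
  · rw [if_pos h1, if_pos (this.1 h1)]
  · rw [if_neg h1, if_neg (fun h2 => h1 (this.2 h2))]

lemma fl_mem (j : ℕ) (J : ι → Bool) : 0 ≤ fl D j J ∧ fl D j J ≤ 1 := by
  unfold fl
  split_ifs <;> constructor <;> norm_num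

lemma fl_int {q : ℝ} (hq : 0 ≤ q) (hq1 : q ≤ 1) {M : ℕ} (j : ℕ)
    (hν : ∀ e ∈ D j, q ≤ (ν e).real {true}) (hM : (D j).card ≤ M) :
    ∫ J, fl D j J ∂(Measure.infinitePi ν) ≤ 1 - q ^ M := by
  classical
  set μ := Measure.infinitePi ν with hμ
  set A : Set (ι → Bool) := Set.pi (D j) (fun _ => {true}) with hA
  have hAm : MeasurableSet A := by
    apply MeasurableSet.pi (D j).countable_toSet
    intro i _
    exact MeasurableSet.singleton _
  have h1 : ∀ J, fl D j J = 1 - A.indicator (fun _ => (1 : ℝ)) J := by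
    intro J
    have hiff : (∀ i ∈ D j, J i = true) ↔ J ∈ A := by
      rw [hA, Set.mem_pi]
      constructor
      · intro h i hi; exact h i hi
      · intro h i hi; exact h i hi
    unfold fl
    by_cases h : ∀ i ∈ D j, J i = true
    · rw [if_pos h, Set.indicator_of_mem (hiff.1 h)]; ring
    · rw [if_neg h, Set.indicator_of_notMem (fun h2 => h (hiff.2 h2))]; ring
  simp only [h1]
  rw [integral_sub (integrable_const _) ((integrable_const (1 : ℝ)).indicator hAm),
    integral_indicator hAm]
  have h2 : μ.real A = ∏ i ∈ D j, (ν i).real {true} := by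
    rw [Measure.real, hμ, hA, Measure.infinitePi_pi _ (fun i _ => MeasurableSet.singleton _),
      ENNReal.toReal_prod]
    rfl
  have h3 : q ^ M ≤ μ.real A := by
    rw [h2]
    refine (pow_le_pow_of_le_one hq hq1 hM).trans ?_
    rw [← Finset.prod_const]
    exact Finset.prod_le_prod (fun i _ => hq) (fun i hi => hν i hi)
  simp only [integral_const, smul_eq_mul, mul_one, MeasurableSet.univ, measureReal_restrict_apply,
    Set.univ_inter, probReal_univ]
  linarith

theorem none_int {q : ℝ} (hq : 0 ≤ q) (hq1 : q ≤ 1) {M : ℕ}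
    (hD : ∀ i j, i ≠ j → Disjoint (D i) (D j)) (N : ℕ)
    (hν : ∀ j < N, ∀ e ∈ D j, q ≤ (ν e).real {true}) (hM : ∀ j < N, (D j).card ≤ M) :
    ∫ J, ∏ i ∈ range N, fl D i J ∂(Measure.infinitePi ν) ≤ Real.exp (-(N * q ^ M)) := by
  classical
  induction N with
  | zero => simp
  | succ N ih =>
    simp only [Finset.prod_range_succ]
    rw [indep_int' ν (fun J => ∏ i ∈ range N, fl D i J) (fun J => fl D N J)
      ((range N).biUnion fun i => D i) (D N) ?_ ?_ ?_]
    · have h1 := fl_int ν D hq hq1 N (hν N (Nat.lt_succ_self _)) (hM N (Nat.lt_succ_self _))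
      have h2 : 1 - q ^ M ≤ Real.exp (-(q ^ M)) := by
        have := Real.add_one_le_exp (-(q ^ M))
        linarith
      have h3 := ih (fun j hj => hν j (Nat.lt_succ_of_lt hj)) (fun j hj => hM j (Nat.lt_succ_of_lt hj))
      have h4 : Real.exp (-(((N + 1 : ℕ) : ℝ) * q ^ M)) =
          Real.exp (-(N * q ^ M)) * Real.exp (-(q ^ M)) := by
        rw [← Real.exp_add]; congr 1; push_cast; ring
      rw [h4]
      refine mul_le_mul h3 (h1.trans h2) ?_ (Real.exp_pos _).le
      exact integral_nonneg fun J => (fl_mem D _ J).1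
    · rw [Finset.disjoint_biUnion_left]
      intro i hi
      apply hD
      have := mem_range.1 hi
      omega
    · intro J J' h
      refine Finset.prod_congr rfl fun i hi => ?_
      exact fl_loc D _ J J' fun x hx => h x (mem_biUnion.2 ⟨i, hi, hx⟩)
    · intro J J' h
      exact fl_loc D _ J J' h

/-- The probability that none of the events occurs. -/
theorem none_real {q : ℝ} (hq : 0 ≤ q) (hq1 : q ≤ 1) {M : ℕ}
    (hD : ∀ i j, i ≠ j → Disjoint (D i) (D j)) (N : ℕ)
    (hν : ∀ j < N, ∀ e ∈ D j, q ≤ (ν e).real {true}) (hM : ∀ j < N, (D j).card ≤ M) :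
    (Measure.infinitePi ν).real {J | ∀ j < N, ¬ ∀ e ∈ D j, J e = true} ≤
      Real.exp (-(N * q ^ M)) := by
  classical
  refine le_trans ?_ (none_int ν D hq hq1 hD N hν hM)
  set μ := Measure.infinitePi ν with hμ
  set Y : (ι → Bool) → ℝ := fun J => ∏ i ∈ range N, fl D i J with hY
  have hYn : ∀ J, 0 ≤ Y J := fun J => Finset.prod_nonneg fun i _ => (fl_mem D _ J).1
  have hY1 : ∀ J, Y J ≤ 1 := fun J => Finset.prod_le_one
    (fun i _ => (fl_mem D _ J).1) (fun i _ => (fl_mem D _ J).2)
  have hYm : Measurable Y := by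
    apply local_meas Y ((range N).biUnion fun i => D i)
    intro J J' h
    refine Finset.prod_congr rfl fun i hi => ?_
    exact fl_loc D _ J J' fun x hx => h x (mem_biUnion.2 ⟨i, hi, hx⟩)
  have hYi : Integrable Y μ := by
    refine Integrable.of_bound hYm.aestronglyMeasurable 1 (Filter.Eventually.of_forall ?_)
    intro J
    rw [Real.norm_eq_abs, abs_of_nonneg (hYn J)]
    exact hY1 J
  have hM := mul_meas_ge_le_integral_of_nonneg (μ := μ) (f := Y)
    (Filter.Eventually.of_forall hYn) hYi 1
  rw [one_mul] at hM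
  refine le_trans ?_ hM
  apply measureReal_mono
  · intro J hJ
    simp only [Set.mem_ofPred_eq] at hJ ⊢
    rw [hY]
    apply le_of_eq
    symm
    apply Finset.prod_eq_one
    intro i hi
    unfold fl
    rw [if_neg (hJ i (mem_range.1 hi))]
  · exact measure_ne_top _ _

end Pool.Agent.Q234.EA
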