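import Pool.Agent.Q234.EA.Zer
import Pool.Agent.Q234.EA.Dec

/-!
# Few unsatisfied bonds in the middle of a block
-/

set_option autoImplicit false

open Finset

namespace Pool.Agent.Q234.EA.Zer

open Pool.Agent.Q234.EA

variable {k : ℕ} {R : Set (Site k)}

lemma qd_left {n T : ℤ} (hT : 6 ≤ T) (s : Site k → ℝ) {w : Site k} (h : lam w = n + 1) :
    qd n T s w = s w * s (w + eu 0) - s w * s (w + eu 1) +
      s (w + eu 1) * s (w + eu 0 + eu 1) + s (w + eu 0) * s (w + eu 0 + eu 1) := by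
  have l0 : lam (w + eu 0) = n + 2 := by rw [lam_add, lam_eu0]; omega
  have hc : w + eu 1 + eu 0 = w + eu 0 + eu 1 := add_right_comm _ _ _
  have p1 : pt n T w 0 = 1 := by
    unfold pt; rw [if_neg]; exact fun h => fin01 h.1
  have p2 : pt n T w 1 = -1 := by
    unfold pt; rw [if_pos]; exact ⟨rfl, Or.inl h⟩
  have p3 : pt n T (w + eu 1) 0 = 1 := by
    unfold pt; rw [if_neg]; exact fun h => fin01 h.1
  have p4 : pt n T (w + eu 0) 1 = 1 := by
    unfold pt; rw [if_neg]; rintro ⟨_, h⟩; omega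
  unfold qd gg
  rw [p1, p2, p3, p4, hc]
  ring

lemma qd_right {n T : ℤ} (hT : 6 ≤ T) (s : Site k → ℝ) {w : Site k} (h : lam w = n + T - 2) :
    qd n T s w = s w * s (w + eu 0) + s w * s (w + eu 1) +
      s (w + eu 1) * s (w + eu 0 + eu 1) - s (w + eu 0) * s (w + eu 0 + eu 1) := by
  have l0 : lam (w + eu 0) = n + T - 1 := by rw [lam_add, lam_eu0]; omega
  have hc : w + eu 1 + eu 0 = w + eu 0 + eu 1 := add_right_comm _ _ _
  have p1 : pt n T w 0 = 1 := by
    unfold pt; rw [if_neg]; exact fun h => fin01 h.1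
  have p2 : pt n T w 1 = 1 := by
    unfold pt; rw [if_neg]; rintro ⟨_, h⟩; omega
  have p3 : pt n T (w + eu 1) 0 = 1 := by
    unfold pt; rw [if_neg]; exact fun h => fin01 h.1
  have p4 : pt n T (w + eu 0) 1 = -1 := by
    unfold pt; rw [if_pos]; exact ⟨rfl, Or.inr l0⟩
  unfold qd gg
  rw [p1, p2, p3, p4, hc]
  ring

lemma qd_zero {n T : ℤ} {s : Site k → ℝ} (hs : Cf R s) {w : Site k} (h : ¬ Tou R w) :
    qd n T s w = 0 := by
  unfold Tou at h
  push Not at h
  have hc : w + eu 1 + eu 0 = w + eu 0 + eu 1 := add_right_comm _ _ _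
  unfold qd gg
  rw [hc, hs.2 _ h.1, hs.2 _ h.2.1, hs.2 _ h.2.2.1, hs.2 _ h.2.2.2]
  ring

lemma qd_le {n T : ℤ} (hT : 6 ≤ T) {s : Site k → ℝ} (hs : Cf R s) {w : Site k}
    (h : lam w = n + 1 ∨ lam w = n + T - 2) : qd n T s w ≤ uu R 1 w := by
  unfold uu
  split_ifs with ht
  · rcases h with h | h
    · rw [qd_left hT s h]
      have := (four_le _ _ _ _ (hs.cases w) (hs.cases (w + eu 0))
        (hs.cases (w + eu 1)) (hs.cases (w + eu 0 + eu 1))).1
      linarith
    · rw [qd_right hT s h]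
      have := (four_le' _ _ _ _ (hs.cases w) (hs.cases (w + eu 0))
        (hs.cases (w + eu 1)) (hs.cases (w + eu 0 + eu 1))).1
      linarith
  · rw [qd_zero hs ht]

lemma qd_ge {n T : ℤ} (hT : 6 ≤ T) {s : Site k → ℝ} (hs : Cf R s) {r : ℝ} (hr : r * r = 1)
    (hm : ∀ v ∈ R, n + 2 ≤ lam v → lam v ≤ n + T - 1 → s v = r) {w : Site k}
    (h : lam w = n + 1 ∨ lam w = n + T - 2) : ll R 1 w ≤ qd n T s w := by
  unfold ll
  split_ifs with hf ht
  · obtain ⟨f0, f1, f2, f3⟩ := hf
    rcases h with h | h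
    · rw [qd_left hT s h, hm (w + eu 0) f1 (by rw [lam_add, lam_eu0]; omega)
        (by rw [lam_add, lam_eu0]; omega), hm (w + eu 1) f2 (by rw [lam_add, lam_eu1]; omega)
        (by rw [lam_add, lam_eu1]; omega), hm (w + eu 0 + eu 1) f3
        (by rw [lam_add, lam_add, lam_eu0, lam_eu1]; omega)
        (by rw [lam_add, lam_add, lam_eu0, lam_eu1]; omega)]
      nlinarith
    · rw [qd_right hT s h, hm (w + eu 0) f1 (by rw [lam_add, lam_eu0]; omega)
        (by rw [lam_add, lam_eu0]; omega), hm (w + eu 1) f2 (by rw [lam_add, lam_eu1]; omega)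
        (by rw [lam_add, lam_eu1]; omega), hm w f0 (by omega) (by omega)]
      nlinarith
  · rcases h with h | h
    · rw [qd_left hT s h]
      have := (four_le _ _ _ _ (hs.cases w) (hs.cases (w + eu 0))
        (hs.cases (w + eu 1)) (hs.cases (w + eu 0 + eu 1))).2
      linarith
    · rw [qd_right hT s h]
      have := (four_le' _ _ _ _ (hs.cases w) (hs.cases (w + eu 0))
        (hs.cases (w + eu 1)) (hs.cases (w + eu 0 + eu 1))).2
      linarith
  · rw [qd_zero hs ht]

/-- a bond of the region -/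
noncomputable def bi (R : Set (Site k)) (v : Site k) (i : Fin (k + 2)) : ℝ := by
  classical
  exact if v ∈ R ∧ v + eu i ∈ R then 1 else 0

lemma prod_eq {s : Site k → ℝ} (hs : Cf R s) (v : Site k) (i : Fin (k + 2)) :
    s v * s (v + eu i) = bi R v i - 2 * uns s v i := by
  unfold bi uns
  by_cases h : v ∈ R ∧ v + eu i ∈ R
  · rw [if_pos h]
    rcases hs.1 _ h.1 with h1 | h1 <;> rcases hs.1 _ h.2 with h2 | h2 <;> rw [h1, h2] <;>
      norm_num
  · rw [if_neg h]
    have h0 : s v * s (v + eu i) = 0 := by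
      rcases not_and_or.1 h with h1 | h1
      · rw [hs.2 _ h1, zero_mul]
      · rw [hs.2 _ h1, mul_zero]
    rw [h0, if_neg (by norm_num)]
    ring

lemma prod_unif {s : Site k → ℝ} (hs : Cf R s) {r : ℝ} (hr : r * r = 1) {v : Site k}
    {i : Fin (k + 2)} (h1 : v ∈ R → s v = r) (h2 : v + eu i ∈ R → s (v + eu i) = r) :
    s v * s (v + eu i) = bi R v i := by
  unfold bi
  by_cases h : v ∈ R ∧ v + eu i ∈ R
  · rw [if_pos h, h1 h.1, h2 h.2, hr]
  · rw [if_neg h]
    rcases not_and_or.1 h with h1 | h1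
    · rw [hs.2 _ h1, zero_mul]
    · rw [hs.2 _ h1, mul_zero]

variable (hfin : ∀ c : ℤ, {x : R | lam x.1 ≤ c}.Finite)

/-- the unsatisfied bonds of a layer -/
noncomputable def Uc (N : ℤ) (s : Site k → ℝ) (c : ℤ) : ℝ :=
  ∑ w ∈ BT hfin N, ∑ i : Fin (k + 2), (if lam w = c then uns s w i else 0)

lemma Uc_nonneg (N : ℤ) (s : Site k → ℝ) (c : ℤ) : 0 ≤ Uc hfin N s c := by
  refine Finset.sum_nonneg fun w _ => Finset.sum_nonneg fun i _ => ?_
  split_ifs
  · exact uns_nonneg _ _ _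
  · exact le_rfl

lemma Uc_sum (n T : ℤ) (s : Site k → ℝ) :
    ∑ c ∈ Finset.Icc (n + 3) (n + T - 3), Uc hfin (n + T) s c =
      ∑ w ∈ BT hfin (n + T), ∑ i : Fin (k + 2),
        (if n + 3 ≤ lam w ∧ lam w ≤ n + T - 3 then uns s w i else 0) := by
  unfold Uc
  rw [Finset.sum_comm]
  refine Finset.sum_congr rfl fun w _ => ?_
  rw [Finset.sum_comm]
  refine Finset.sum_congr rfl fun i _ => ?_
  rw [Finset.sum_ite_eq]
  by_cases h : n + 3 ≤ lam w ∧ lam w ≤ n + T - 3
  · rw [if_pos (Finset.mem_Icc.2 h), if_pos h]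
  · rw [if_neg (fun h1 => h (Finset.mem_Icc.1 h1)), if_neg h]

open Classical in
/-- the cut squares -/
noncomputable def CT (n T : ℤ) : Finset (Site k) :=
  (BT hfin (n + T)).filter fun w => (lam w = n + 1 ∨ lam w = n + T - 2) ∧ Tou R w ∧ ¬ Ful R w

/-- the pattern energy of the block -/
noncomputable def FF (n T : ℤ) (s : Site k → ℝ) : ℝ :=
  ∑ v ∈ BT hfin (n + T), ∑ i : Fin (k + 2),
      (if n + 1 ≤ lam v ∧ lam v ≤ n + T - 1 then gg n T s v i else 0)

theorem FF_diff {n T : ℤ} (hT : 6 ≤ T) {s s' : Site k → ℝ} (hs : Cf R s) (hs' : Cf R s') {r : ℝ}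
    (hr : r * r = 1) (hm : ∀ v ∈ R, n + 2 ≤ lam v → lam v ≤ n + T - 1 → s' v = r)
    (ho : ∀ v, lam v = n + 1 → s' v = s v) :
    FF hfin n T s - FF hfin n T s' ≤ 4 * (CT hfin n T).card -
      2 * ∑ c ∈ Finset.Icc (n + 3) (n + T - 3), Uc hfin (n + T) s c := by
  classical
  have e1 := energy_eq (hfin := hfin) (n := n) hT hs
  have e2 := energy_eq (hfin := hfin) (n := n) hT hs'
  unfold FF
  rw [e1, e2, Uc_sum]
  set B := BT hfin (n + T) with hB
  -- squares
  have a1 : ∑ w ∈ B, (if lam w = n + 1 ∨ lam w = n + T - 2 then qd n T s w else 0) -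
      ∑ w ∈ B, (if lam w = n + 1 ∨ lam w = n + T - 2 then qd n T s' w else 0) ≤
      4 * (CT hfin n T).card := by
    rw [← Finset.sum_sub_distrib]
    have : ((4 * (CT hfin n T).card : ℝ)) = ∑ w ∈ B,
        (if (lam w = n + 1 ∨ lam w = n + T - 2) ∧ Tou R w ∧ ¬ Ful R w then (4 : ℝ) else 0) := by
      rw [← Finset.sum_filter, Finset.sum_const, nsmul_eq_mul, mul_comm]
      rfl
    rw [this]
    refine Finset.sum_le_sum fun w _ => ?_
    by_cases h : lam w = n + 1 ∨ lam w = n + T - 2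
    · rw [if_pos h, if_pos h]
      have b1 := qd_le hT hs h
      have b2 := qd_ge hT hs' hr hm h
      unfold uu at b1
      unfold ll at b2
      by_cases h1 : Tou R w
      · by_cases h2 : Ful R w
        · rw [if_pos h1] at b1
          rw [if_pos h2] at b2
          rw [if_neg (by tauto)]
          linarith
        · rw [if_pos h1] at b1
          rw [if_neg h2, if_pos h1] at b2
          rw [if_pos ⟨h, h1, h2⟩]
          linarith
      · have h2 : ¬ Ful R w := fun h3 => h1 (Or.inl h3.1)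
        rw [if_neg h1] at b1
        rw [if_neg h2, if_neg h1] at b2
        rw [if_neg (by tauto)]
        linarith
    · rw [if_neg h, if_neg h, if_neg (by tauto)]; norm_num
  -- the deep bonds
  have p01 : ∀ (σ : Site k → ℝ) (w : Site k) (i : Fin (k + 2)), n + 3 ≤ lam w →
      lam w ≤ n + T - 3 → gg n T σ w i = σ w * σ (w + eu i) := by
    intro σ w i h1 h2
    unfold gg pt
    rw [if_neg (by rintro ⟨_, h⟩; omega), one_mul]
  have a2 : ∑ w ∈ B, (if n + 3 ≤ lam w ∧ lam w ≤ n + T - 3 then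
        gg n T s w 0 + gg n T s w 1 else 0) -
      ∑ w ∈ B, (if n + 3 ≤ lam w ∧ lam w ≤ n + T - 3 then
        gg n T s' w 0 + gg n T s' w 1 else 0) =
      -2 * ∑ w ∈ B, (if n + 3 ≤ lam w ∧ lam w ≤ n + T - 3 then uns s w 0 + uns s w 1 else 0) := by
    rw [← Finset.sum_sub_distrib, Finset.mul_sum]
    refine Finset.sum_congr rfl fun w _ => ?_
    by_cases h : n + 3 ≤ lam w ∧ lam w ≤ n + T - 3
    · rw [if_pos h, if_pos h, if_pos h, p01 s w 0 h.1 h.2, p01 s w 1 h.1 h.2,
        p01 s' w 0 h.1 h.2, p01 s' w 1 h.1 h.2, prod_eq hs w 0, prod_eq hs w 1,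
        prod_unif hs' hr (i := 0) (fun hv => hm _ hv (by omega) (by omega))
          (fun hv => hm _ hv (by rw [lam_add, lam_eu0]; omega) (by rw [lam_add, lam_eu0]; omega)),
        prod_unif hs' hr (i := 1) (fun hv => hm _ hv (by omega) (by omega))
          (fun hv => hm _ hv (by rw [lam_add, lam_eu1]; omega) (by rw [lam_add, lam_eu1]; omega))]
      ring
    · rw [if_neg h, if_neg h, if_neg h]; ring
  -- the transversal bonds
  have ptt : ∀ (σ : Site k → ℝ) (w : Site k) (i : Fin k),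
      gg n T σ w i.succ.succ = σ w * σ (w + eu i.succ.succ) := by
    intro σ w i
    unfold gg pt
    rw [if_neg (by rintro ⟨h, _⟩; exact finss i h), one_mul]
  have a3 : ∑ w ∈ B, ∑ i : Fin k, (if n + 1 ≤ lam w ∧ lam w ≤ n + T - 1 then
        gg n T s w i.succ.succ else 0) -
      ∑ w ∈ B, ∑ i : Fin k, (if n + 1 ≤ lam w ∧ lam w ≤ n + T - 1 then
        gg n T s' w i.succ.succ else 0) ≤
      -2 * ∑ w ∈ B, ∑ i : Fin k, (if n + 3 ≤ lam w ∧ lam w ≤ n + T - 3 then
        uns s w i.succ.succ else 0) := by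
    rw [← Finset.sum_sub_distrib, Finset.mul_sum]
    refine Finset.sum_le_sum fun w _ => ?_
    rw [← Finset.sum_sub_distrib, Finset.mul_sum]
    refine Finset.sum_le_sum fun i _ => ?_
    rw [ptt, ptt]
    have h0 := uns_nonneg s w i.succ.succ
    have hl : lam (w + eu i.succ.succ) = lam w := by rw [lam_add, lam_eu2]; omega
    by_cases h1 : lam w = n + 1
    · rw [if_pos (by omega), if_pos (by omega), if_neg (by omega), ho w h1,
        ho (w + eu i.succ.succ) (by rw [hl]; exact h1)]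
      linarith
    · by_cases h2 : n + 2 ≤ lam w ∧ lam w ≤ n + T - 1
      · rw [if_pos (by omega), if_pos (by omega), prod_eq hs,
          prod_unif hs' hr (i := i.succ.succ) (fun hv => hm _ hv h2.1 h2.2)
            (fun hv => hm _ hv (by rw [hl]; exact h2.1) (by rw [hl]; exact h2.2))]
        split_ifs <;> linarith
      · rw [if_neg (by omega), if_neg (by omega), if_neg (by omega)]
        linarith
  have a4 : ∑ w ∈ B, ∑ i : Fin (k + 2),
        (if n + 3 ≤ lam w ∧ lam w ≤ n + T - 3 then uns s w i else 0) =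
      ∑ w ∈ B, (if n + 3 ≤ lam w ∧ lam w ≤ n + T - 3 then uns s w 0 + uns s w 1 else 0) +
      ∑ w ∈ B, ∑ i : Fin k, (if n + 3 ≤ lam w ∧ lam w ≤ n + T - 3 then
        uns s w i.succ.succ else 0) := by
    rw [← Finset.sum_add_distrib]
    refine Finset.sum_congr rfl fun w _ => ?_
    rw [Fin.sum_univ_succ, Fin.sum_univ_succ, Fin.succ_zero_eq_one]
    split_ifs <;> ring
  rw [a4]
  linarith

end Pool.Agent.Q234.EA.Zer
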