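import Pool.Agent.Q234.EA.Geo

/-!
# Zero temperature: almost exact decouplers with a thick ferromagnetic middle
-/

set_option autoImplicit false

open Finset

namespace Pool.Agent.Q234.EA.Zer

open Pool.Agent.Q234.EA

variable {k : ℕ} {R : Set (Site k)}

/-- configurations on the region -/
def Cf (R : Set (Site k)) (s : Site k → ℝ) : Prop :=
  (∀ v ∈ R, s v = 1 ∨ s v = -1) ∧ ∀ v, v ∉ R → s v = 0

lemma Cf.cases {s : Site k → ℝ} (h : Cf R s) (v : Site k) : s v = 1 ∨ s v = -1 ∨ s v = 0 := by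
  by_cases hv : v ∈ R
  · rcases h.1 v hv with h | h
    · exact Or.inl h
    · exact Or.inr (Or.inl h)
  · exact Or.inr (Or.inr (h.2 v hv))

/-- the sign pattern of the block of length `T` at `n` -/
def pt (n T : ℤ) (v : Site k) (i : Fin (k + 2)) : ℝ :=
  if i = 1 ∧ (lam v = n + 1 ∨ lam v = n + T - 1) then -1 else 1

/-- the energy of a bond for the pattern -/
def gg (n T : ℤ) (s : Site k → ℝ) (v : Site k) (i : Fin (k + 2)) : ℝ :=
  pt n T v i * (s v * s (v + eu i))

/-- the four bonds of a square -/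
def qd (n T : ℤ) (s : Site k → ℝ) (w : Site k) : ℝ :=
  gg n T s w 0 + gg n T s w 1 + gg n T s (w + eu 1) 0 + gg n T s (w + eu 0) 1

/-- an unsatisfied bond -/
noncomputable def uns (s : Site k → ℝ) (v : Site k) (i : Fin (k + 2)) : ℝ := by
  classical
  exact if s v * s (v + eu i) = -1 then 1 else 0

lemma uns_nonneg (s : Site k → ℝ) (v : Site k) (i : Fin (k + 2)) : 0 ≤ uns s v i := by
  unfold uns; split_ifs <;> norm_num

variable (hfin : ∀ c : ℤ, {x : R | lam x.1 ≤ c}.Finite)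

/-- the sites of the region with layer between `a` and `b` -/
noncomputable def LS (a b : ℤ) : Finset (Site k) :=
  ((LL hfin b).filter fun x => a ≤ lam x.1).image fun x => x.1

lemma mem_LS {a b : ℤ} {v : Site k} : v ∈ LS hfin a b ↔ v ∈ R ∧ a ≤ lam v ∧ lam v ≤ b := by
  unfold LS
  simp only [mem_image, mem_filter, mem_LL]
  constructor
  · rintro ⟨x, ⟨h1, h2⟩, h3⟩
    rw [← h3]
    exact ⟨x.2, h2, h1⟩
  · rintro ⟨h1, h2, h3⟩
    exact ⟨⟨v, h1⟩, ⟨h3, h2⟩, rfl⟩

/-- the sites used in the sums -/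
noncomputable def BT (c : ℤ) : Finset (Site k) :=
  ((LL hfin c).image fun x => x.1) ∪ ((LL hfin c).image fun x => x.1 - eu 0) ∪
    ((LL hfin c).image fun x => x.1 - eu 1)

variable {hfin}

lemma mem_BT0 {c : ℤ} {v : Site k} (hv : v ∈ R) (h : lam v ≤ c) : v ∈ BT hfin c := by
  unfold BT
  refine mem_union_left _ (mem_union_left _ (mem_image.2 ⟨⟨v, hv⟩, mem_LL.2 h, rfl⟩))

lemma mem_BT1 {c : ℤ} {v : Site k} (hv : v ∈ R) (h : lam v ≤ c) : v - eu 0 ∈ BT hfin c := by
  unfold BT
  refine mem_union_left _ (mem_union_right _ (mem_image.2 ⟨⟨v, hv⟩, mem_LL.2 h, rfl⟩))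

lemma mem_BT2 {c : ℤ} {v : Site k} (hv : v ∈ R) (h : lam v ≤ c) : v - eu 1 ∈ BT hfin c := by
  unfold BT
  refine mem_union_right _ (mem_image.2 ⟨⟨v, hv⟩, mem_LL.2 h, rfl⟩)

lemma gg_ne {n T : ℤ} {s : Site k → ℝ} (hs : Cf R s) {v : Site k} {i : Fin (k + 2)}
    (h : gg n T s v i ≠ 0) : v ∈ R ∧ v + eu i ∈ R := by
  constructor
  · by_contra hc
    apply h
    unfold gg
    rw [hs.2 _ hc]; ring
  · by_contra hc
    apply h
    unfold gg
    rw [hs.2 _ hc]; ring

/-- the energy identity -/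
theorem energy_eq {n T : ℤ} (hT : 6 ≤ T) {s : Site k → ℝ} (hs : Cf R s) :
    ∑ v ∈ BT hfin (n + T), ∑ i : Fin (k + 2),
      (if n + 1 ≤ lam v ∧ lam v ≤ n + T - 1 then gg n T s v i else 0) =
    ∑ w ∈ BT hfin (n + T), (if lam w = n + 1 ∨ lam w = n + T - 2 then qd n T s w else 0) +
    ∑ w ∈ BT hfin (n + T), (if n + 3 ≤ lam w ∧ lam w ≤ n + T - 3 then
      gg n T s w 0 + gg n T s w 1 else 0) +
    ∑ w ∈ BT hfin (n + T), ∑ i : Fin k, (if n + 1 ≤ lam w ∧ lam w ≤ n + T - 1 then
      gg n T s w i.succ.succ else 0) := by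
  classical
  set B := BT hfin (n + T) with hB
  have m0 : ∀ (v : Site k) (i : Fin (k + 2)),
      (if n + 1 ≤ lam v ∧ lam v ≤ n + T - 1 then gg n T s v i else 0) =
      (if lam v = n + 1 ∨ lam v = n + T - 2 then gg n T s v i else 0) +
        (if lam v = n + 2 ∨ lam v = n + T - 1 then gg n T s v i else 0) +
        (if n + 3 ≤ lam v ∧ lam v ≤ n + T - 3 then gg n T s v i else 0) := by
    intro v i
    by_cases h1 : lam v = n + 1 ∨ lam v = n + T - 2
    · rw [if_pos (by omega), if_pos h1, if_neg (by omega), if_neg (by omega)]; ring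
    · by_cases h2 : lam v = n + 2 ∨ lam v = n + T - 1
      · rw [if_pos (by omega), if_neg h1, if_pos h2, if_neg (by omega)]; ring
      · by_cases h3 : n + 3 ≤ lam v ∧ lam v ≤ n + T - 3
        · rw [if_pos (by omega), if_neg h1, if_neg h2, if_pos h3]; ring
        · rw [if_neg (by omega), if_neg h1, if_neg h2, if_neg h3]; ring
  have s0 : ∑ v ∈ B, (if lam v = n + 2 ∨ lam v = n + T - 1 then gg n T s v 0 else 0) =
      ∑ w ∈ B, (if lam w = n + 1 ∨ lam w = n + T - 2 then gg n T s (w + eu 1) 0 else 0) := by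
    rw [← shift_sum B (eu 1)
      (fun v => if lam v = n + 2 ∨ lam v = n + T - 1 then gg n T s v 0 else 0)]
    · refine Finset.sum_congr rfl fun w _ => ?_
      simp only [lam_add, lam_eu1]
      by_cases h : lam w = n + 1 ∨ lam w = n + T - 2
      · rw [if_pos h, if_pos (by omega)]
      · rw [if_neg h, if_neg (by omega)]
    · intro v hv
      by_cases h : lam v = n + 2 ∨ lam v = n + T - 1
      · rw [if_pos h] at hv
        exact mem_BT0 (gg_ne hs hv).1 (by omega)
      · rw [if_neg h] at hv; exact absurd rfl hv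
    · intro v hv
      by_cases h : lam v = n + 2 ∨ lam v = n + T - 1
      · rw [if_pos h] at hv
        exact mem_BT2 (gg_ne hs hv).1 (by omega)
      · rw [if_neg h] at hv; exact absurd rfl hv
  have s1 : ∑ v ∈ B, (if lam v = n + 2 ∨ lam v = n + T - 1 then gg n T s v 1 else 0) =
      ∑ w ∈ B, (if lam w = n + 1 ∨ lam w = n + T - 2 then gg n T s (w + eu 0) 1 else 0) := by
    rw [← shift_sum B (eu 0)
      (fun v => if lam v = n + 2 ∨ lam v = n + T - 1 then gg n T s v 1 else 0)]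
    · refine Finset.sum_congr rfl fun w _ => ?_
      simp only [lam_add, lam_eu0]
      by_cases h : lam w = n + 1 ∨ lam w = n + T - 2
      · rw [if_pos h, if_pos (by omega)]
      · rw [if_neg h, if_neg (by omega)]
    · intro v hv
      by_cases h : lam v = n + 2 ∨ lam v = n + T - 1
      · rw [if_pos h] at hv
        exact mem_BT0 (gg_ne hs hv).1 (by omega)
      · rw [if_neg h] at hv; exact absurd rfl hv
    · intro v hv
      by_cases h : lam v = n + 2 ∨ lam v = n + T - 1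
      · rw [if_pos h] at hv
        exact mem_BT1 (gg_ne hs hv).1 (by omega)
      · rw [if_neg h] at hv; exact absurd rfl hv
  have e2 : ∀ v ∈ B, ∑ i : Fin (k + 2),
      (if n + 1 ≤ lam v ∧ lam v ≤ n + T - 1 then gg n T s v i else 0) =
      ((if lam v = n + 1 ∨ lam v = n + T - 2 then gg n T s v 0 else 0) +
        (if lam v = n + 2 ∨ lam v = n + T - 1 then gg n T s v 0 else 0) +
        (if n + 3 ≤ lam v ∧ lam v ≤ n + T - 3 then gg n T s v 0 else 0)) +
      ((if lam v = n + 1 ∨ lam v = n + T - 2 then gg n T s v 1 else 0) +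
        (if lam v = n + 2 ∨ lam v = n + T - 1 then gg n T s v 1 else 0) +
        (if n + 3 ≤ lam v ∧ lam v ≤ n + T - 3 then gg n T s v 1 else 0)) +
      ∑ i : Fin k, (if n + 1 ≤ lam v ∧ lam v ≤ n + T - 1 then gg n T s v i.succ.succ else 0) := by
    intro v _
    rw [Fin.sum_univ_succ, Fin.sum_univ_succ, Fin.succ_zero_eq_one, m0 v 0, m0 v 1]
    ring
  rw [Finset.sum_congr rfl e2]
  simp only [Finset.sum_add_distrib]
  rw [s0, s1]
  have e3 : ∑ w ∈ B, (if lam w = n + 1 ∨ lam w = n + T - 2 then qd n T s w else 0) =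
      ∑ w ∈ B, (if lam w = n + 1 ∨ lam w = n + T - 2 then gg n T s w 0 else 0) +
      ∑ w ∈ B, (if lam w = n + 1 ∨ lam w = n + T - 2 then gg n T s w 1 else 0) +
      ∑ w ∈ B, (if lam w = n + 1 ∨ lam w = n + T - 2 then gg n T s (w + eu 1) 0 else 0) +
      ∑ w ∈ B, (if lam w = n + 1 ∨ lam w = n + T - 2 then gg n T s (w + eu 0) 1 else 0) := by
    simp only [← Finset.sum_add_distrib]
    refine Finset.sum_congr rfl fun w _ => ?_
    unfold qd
    split_ifs <;> ring
  have e4 : ∑ w ∈ B, (if n + 3 ≤ lam w ∧ lam w ≤ n + T - 3 then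
      gg n T s w 0 + gg n T s w 1 else 0) =
      ∑ w ∈ B, (if n + 3 ≤ lam w ∧ lam w ≤ n + T - 3 then gg n T s w 0 else 0) +
      ∑ w ∈ B, (if n + 3 ≤ lam w ∧ lam w ≤ n + T - 3 then gg n T s w 1 else 0) := by
    simp only [← Finset.sum_add_distrib]
    refine Finset.sum_congr rfl fun w _ => ?_
    split_ifs <;> ring
  rw [e3, e4]
  ring

end Pool.Agent.Q234.EA.Zer
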