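import Pool.Agent.Q234.EA.Zgr

/-!
# Uniqueness of the pair of ground states on horns
-/

set_option autoImplicit false

open Finset Filter Topology MeasureTheory

namespace Pool.Agent.Q234.EA.Zer

open Pool.Agent.Q234.EA

variable {k : ℕ} {w : ℕ → ℕ}

variable (μ : Measure ℝ) [IsProbabilityMeasure μ]

theorem good_ae (hw : Monotone w) (hlog : ∀ᶠ n : ℕ in atTop, (w n : ℝ) ≤ Real.log n)
    (hT : ∀ᶠ n : ℕ in atTop, (TT k (w n) : ℝ) ≤ Real.log n / 8) {a c : ℝ} (ha : 0 < a)
    (hc : 0 < c) (hd : ∀ r : ℝ, 0 < r → r ≤ 1 → c * r ≤ μ.real (Set.Icc (a - r) (a + r)) ∧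
      c * r ≤ μ.real (Set.Icc (-a - r) (-a + r)))
    (hp : ∀ᶠ n : ℕ in atTop, Real.exp (-(Real.log n / 8)) ≤
      (c * ep k a (w n)) ^ (Mb k (w n))) :
    ∀ᵐ J ∂(Measure.infinitePi fun _ : Bond k => μ), ∀ n0 : ℕ, ∃ n : ℕ, n0 ≤ n ∧ ∃ m : ℕ,
      TubeT (horn k w) n (TT k m) m ∧ Win (horn k w) J a (ep k a m) n (TT k m) := by
  classical
  have hfin := hfin_horn (k := k) hw hlog
  rw [ae_all_iff]
  intro n0
  rw [ae_iff]
  obtain ⟨N1, hN1⟩ := eventually_atTop.1 ((windowsT (k := k) hw hlog hT).and hp)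
  have key : ∀ z : ℕ, N1 + n0 + 2 ≤ z →
      (Measure.infinitePi fun _ : Bond k => μ) {J | ¬ ∃ n : ℕ, n0 ≤ n ∧ ∃ m : ℕ,
        TubeT (horn k w) n (TT k m) m ∧ Win (horn k w) J a (ep k a m) n (TT k m)} ≤
      ENNReal.ofReal (Real.exp (-((z : ℝ) / 2))) := by
    intro z hz
    set L : ℕ := 8 * z ^ 2 with hL
    have hzz : z ≤ z ^ 2 := by rw [pow_two]; exact Nat.le_mul_of_pos_left _ (by omega)
    obtain ⟨x, hx1, hx2, hx3, hx4, hx5⟩ := (hN1 L (by omega)).1
    set m : ℕ := w x with hm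
    set ε : ℝ := ep k a m with hε
    have hε0 : 0 < ε := ep_pos ha m
    have hε1 : ε ≤ 1 := ep_le_one m
    set nn : ℕ → ℕ := fun j => x + 4 * L + j * L with hnn
    set D : ℕ → Finset (Bond k) := fun j =>
      (LS hfin ((nn j : ℤ) + 1) ((nn j : ℤ) + (TT k m : ℕ) - 1)) ×ˢ
        (univ : Finset (Fin (k + 2))) with hD
    set pr : ℕ → Bond k → ℝ := fun j e => a * pt (nn j : ℤ) (TT k m : ℕ) e.1 e.2 with hpr
    have hdis : ∀ i j, i ≠ j → Disjoint (D i) (D j) := by
      have hlt : ∀ i j, i < j → Disjoint (D i) (D j) := by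
        intro i j hij
        rw [Finset.disjoint_left]
        intro e h1 h2
        simp only [hD, mem_product, mem_LS, mem_univ, and_true] at h1 h2
        have h3 : nn i + L ≤ nn j := by
          simp only [hnn]
          have : (i + 1) * L ≤ j * L := Nat.mul_le_mul_right _ hij
          rw [add_mul, one_mul] at this
          omega
        omega
      intro i j hij
      rcases lt_or_gt_of_ne hij with h | h
      · exact hlt i j h
      · exact (hlt j i h).symm
    have hq0 : 0 ≤ c * ε := by positivity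
    have hq1 : c * ε ≤ 1 := (hd ε hε0 hε1).1.trans measureReal_le_one
    have hM : ∀ j < 2 * z ^ 2, (D j).card ≤ Mb k m := by
      intro j hj
      have ht := hx5 j (by omega)
      have h1 := card_LS hfin ht ((nn j : ℤ) + 1) ((nn j : ℤ) + (TT k m : ℕ) - 1)
        (by simp only [hnn]; omega) (by simp only [hnn]; omega)
      have h2 : ((nn j : ℤ) + (TT k m : ℕ) - 1 + 1 - ((nn j : ℤ) + 1)).toNat ≤ TT k m := by omega
      have h3 := h1.trans (Nat.mul_le_mul_right _ h2)
      simp only [hD, card_product, Finset.card_univ, Fintype.card_fin]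
      unfold Mb
      exact Nat.mul_le_mul_right _ h3
    have hμ : ∀ j < 2 * z ^ 2, ∀ e ∈ D j,
        c * ε ≤ μ.real (Set.Icc (pr j e - ε) (pr j e + ε)) := by
      intro j _ e _
      have h1 := hd ε hε0 hε1
      simp only [hpr]
      unfold pt
      split_ifs
      · rw [show a * -1 - ε = -a - ε by ring, show a * -1 + ε = -a + ε by ring]
        exact h1.2
      · rw [mul_one]
        exact h1.1
    have h1 := none_good μ (N := 2 * z ^ 2) (M := Mb k m) (D := D) (pr := pr) (ε := ε)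
      (q := c * ε) hdis hq0 hq1 hM hμ
    have h2 : (z : ℝ) / 2 ≤ ((2 * z ^ 2 : ℕ) : ℝ) * (c * ε) ^ Mb k m := by
      have h3 := (hN1 x (by omega)).2
      have h4 : Real.exp (-Real.log (4 * z)) ≤ Real.exp (-(Real.log x / 8)) := by
        apply Real.exp_le_exp.2
        have hz0 : (0 : ℝ) < z := by exact_mod_cast (by omega : 0 < z)
        have h5 : Real.log x ≤ 8 * Real.log (4 * z) := by
          have h6 : (8 : ℝ) * Real.log (4 * z) = Real.log ((4 * z) ^ 8) := by
            rw [Real.log_pow]; norm_num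
          rw [h6]
          apply Real.log_le_log
          · exact_mod_cast (by omega : 0 < x)
          · have h7 : x ≤ (4 * z) ^ 8 := by
              calc x ≤ 2 * L ^ 4 := hx3
                _ = 8192 * z ^ 8 := by rw [hL]; ring
                _ ≤ 65536 * z ^ 8 := Nat.mul_le_mul_right _ (by norm_num)
                _ = (4 * z) ^ 8 := by ring
            exact_mod_cast h7
        linarith
      have hz0 : (0 : ℝ) < z := by exact_mod_cast (by omega : 0 < z)
      rw [Real.exp_neg, Real.exp_log (by positivity)] at h4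
      have h5 := h4.trans h3
      have h6 : (z : ℝ) / 2 = ((2 * z ^ 2 : ℕ) : ℝ) * (4 * (z : ℝ))⁻¹ := by
        push_cast
        field_simp
        ring
      rw [h6]
      exact mul_le_mul_of_nonneg_left h5 (Nat.cast_nonneg _)
    refine le_trans (measure_mono ?_) (h1.trans (ENNReal.ofReal_le_ofReal
      (Real.exp_le_exp.2 (neg_le_neg h2))))
    intro J hJ
    simp only [Set.mem_ofPred_eq] at hJ ⊢
    intro j hj hall
    apply hJ
    have ht := hx5 j (by omega)
    refine ⟨nn j, by simp only [hnn]; omega, m, ht, ?_⟩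
    intro v i hv h3 h4
    refine hall (v, i) ?_
    simp only [hD, mem_product, mem_LS, mem_univ, and_true]
    exact ⟨hv, h3, h4⟩
  apply le_antisymm _ bot_le
  apply ENNReal.le_of_forall_pos_le_add
  intro δ hδ _
  refine le_trans ?_ le_add_self
  obtain ⟨z1, hz1⟩ := exists_nat_ge (-2 * Real.log δ)
  refine (key (max (N1 + n0 + 2) z1) (le_max_left _ _)).trans ?_
  rw [← ENNReal.ofReal_coe_nnreal]
  apply ENNReal.ofReal_le_ofReal
  have h1 : (z1 : ℝ) ≤ ((max (N1 + n0 + 2) z1 : ℕ) : ℝ) := by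
    exact_mod_cast le_max_right _ _
  have hδ' : (0 : ℝ) < δ := hδ
  calc Real.exp (-(((max (N1 + n0 + 2) z1 : ℕ) : ℝ) / 2)) ≤ Real.exp (Real.log δ) :=
        Real.exp_le_exp.2 (by linarith)
    _ = δ := Real.exp_log hδ'

lemma TT_le (k m : ℕ) : (TT k m : ℝ) ≤ 23 * (2 * (m : ℝ) + 1) ^ k := by
  unfold TT
  push_cast
  have : (1 : ℝ) ≤ (2 * (m : ℝ) + 1) ^ k := by
    apply one_le_pow₀
    have : (0 : ℝ) ≤ m := Nat.cast_nonneg _
    linarith
  linarith

lemma Mb_le (k m : ℕ) : (Mb k m : ℝ) ≤ 23 * (k + 2) * (2 * (m : ℝ) + 1) ^ (2 * k + 1) := by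
  unfold Mb
  push_cast
  have h1 := TT_le k m
  have hy : (0 : ℝ) ≤ 2 * (m : ℝ) + 1 := by positivity
  have h2 : (TT k m : ℝ) * (2 * (m : ℝ) + 1) ^ (k + 1) ≤
      23 * (2 * (m : ℝ) + 1) ^ k * (2 * (m : ℝ) + 1) ^ (k + 1) :=
    mul_le_mul_of_nonneg_right h1 (by positivity)
  calc (TT k m : ℝ) * (2 * (m : ℝ) + 1) ^ (k + 1) * (k + 2)
      ≤ 23 * (2 * (m : ℝ) + 1) ^ k * (2 * (m : ℝ) + 1) ^ (k + 1) * (k + 2) :=
        mul_le_mul_of_nonneg_right h2 (by positivity)
    _ = 23 * (k + 2) * (2 * (m : ℝ) + 1) ^ (2 * k + 1) := by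
        rw [show 2 * k + 1 = k + (k + 1) by ring, pow_add]; ring

/-- the constant in the exponent -/
noncomputable def KK0 (k : ℕ) (a c : ℝ) : ℝ :=
  Real.log (max 1 (46 * (k + 2) / (c * min a 1))) / Real.log 2 + (2 * k + 1)

lemma KK0_ge (k : ℕ) (a c : ℝ) : 1 ≤ KK0 k a c := by
  unfold KK0
  have h1 : 0 ≤ Real.log (max 1 (46 * (k + 2) / (c * min a 1))) := Real.log_nonneg (le_max_left _ _)
  have h2 : 0 ≤ Real.log (max 1 (46 * (k + 2) / (c * min a 1))) / Real.log 2 :=
    div_nonneg h1 (Real.log_nonneg (by norm_num))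
  have h3 : (0 : ℝ) ≤ k := Nat.cast_nonneg _
  linarith

lemma cost_le {a c : ℝ} (ha : 0 < a) (hc : 0 < c) (m : ℕ) (hq1 : c * ep k a m ≤ 1) :
    (Mb k m : ℝ) * Real.log (1 / (c * ep k a m)) ≤
      23 * (k + 2) * KK0 k a c * ((2 * (m : ℝ) + 1) ^ (2 * k + 1) * Real.log (2 * m + 2)) := by
  set y : ℝ := 2 * (m : ℝ) + 1 with hy
  have hm0 : (0 : ℝ) ≤ m := Nat.cast_nonneg _
  have hy1 : 1 ≤ y := by linarith
  have hq0 : 0 < c * ep k a m := mul_pos hc (ep_pos ha m)
  have hM0 : (0 : ℝ) < Mb k m := by exact_mod_cast Mb_pos k m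
  have ha' : 0 < min a 1 := lt_min ha one_pos
  have h1 : 1 / (c * ep k a m) = 2 * Mb k m / (c * min a 1) := by
    unfold ep
    field_simp
  have h2 : 1 / (c * ep k a m) ≤ max 1 (46 * (k + 2) / (c * min a 1)) * y ^ (2 * k + 1) := by
    rw [h1]
    calc 2 * (Mb k m : ℝ) / (c * min a 1) ≤ 2 * (23 * (k + 2) * y ^ (2 * k + 1)) / (c * min a 1) := by
          apply div_le_div_of_nonneg_right _ (by positivity)
          have := Mb_le k m
          linarith
      _ = 46 * (k + 2) / (c * min a 1) * y ^ (2 * k + 1) := by ring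
      _ ≤ _ := mul_le_mul_of_nonneg_right (le_max_right _ _) (by positivity)
  have h3 : Real.log (1 / (c * ep k a m)) ≤
      Real.log (max 1 (46 * (k + 2) / (c * min a 1))) + (2 * k + 1) * Real.log y := by
    have h4 := Real.log_le_log (by positivity) h2
    rw [Real.log_mul (by positivity) (by positivity), Real.log_pow] at h4
    push_cast at h4
    exact h4
  have hl2 : 0 < Real.log 2 := Real.log_pos (by norm_num)
  have hy2 : y + 1 = 2 * m + 2 := by rw [hy]; ring
  have h5 : Real.log 2 ≤ Real.log (2 * m + 2) := Real.log_le_log (by norm_num) (by linarith)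
  have h6 : Real.log y ≤ Real.log (2 * m + 2) := Real.log_le_log (by linarith) (by linarith)
  have hlm : 0 ≤ Real.log (max 1 (46 * (k + 2) / (c * min a 1))) := Real.log_nonneg (le_max_left _ _)
  have h7 : Real.log (1 / (c * ep k a m)) ≤ KK0 k a c * Real.log (2 * m + 2) := by
    refine h3.trans ?_
    have e1 : Real.log (max 1 (46 * (k + 2) / (c * min a 1))) ≤
        Real.log (max 1 (46 * (k + 2) / (c * min a 1))) / Real.log 2 * Real.log (2 * m + 2) := by
      rw [div_mul_eq_mul_div, le_div_iff₀ hl2]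
      exact mul_le_mul_of_nonneg_left h5 hlm
    have e2 : (2 * (k : ℝ) + 1) * Real.log y ≤ (2 * k + 1) * Real.log (2 * m + 2) :=
      mul_le_mul_of_nonneg_left h6 (by positivity)
    unfold KK0
    linarith
  have h8 : 0 ≤ Real.log (1 / (c * ep k a m)) := by
    apply Real.log_nonneg
    rw [le_div_iff₀ hq0]
    linarith
  have h9 := KK0_ge k a c
  calc (Mb k m : ℝ) * Real.log (1 / (c * ep k a m))
      ≤ (23 * (k + 2) * y ^ (2 * k + 1)) * (KK0 k a c * Real.log (2 * m + 2)) :=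
        mul_le_mul (Mb_le k m) h7 h8 (by positivity)
    _ = _ := by ring

theorem main (hat : ∀ x, μ {x} = 0) (hsym : μ.map (fun x => -x) = μ) :
    ∃ c1 : ℝ, 0 < c1 ∧ ∀ w : ℕ → ℕ, Monotone w →
      (∀ᶠ n : ℕ in atTop, (2 * (w n : ℝ) + 1) ^ (2 * k + 1) * Real.log (2 * w n + 2) ≤
        c1 * Real.log n) →
      ∀ᵐ J ∂(Measure.infinitePi fun _ : Bond k => μ),
        ∃ s : Site k → ℝ, ∀ t : Site k → ℝ,
          Pool.Agent.TH761.EB.GS Pool.Agent.TH761.EB.aa Pool.Agent.TH761.EB.bb (horn k w) J t ↔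
            t = s ∨ t = -s := by
  classical
  obtain ⟨a, ha, c, hc, hd⟩ := density μ hat hsym
  have hK := KK0_ge k a c
  refine ⟨1 / (1000 * ((k + 2) * KK0 k a c)), by positivity, fun w hw hg => ?_⟩
  have hbase : ∀ᶠ n : ℕ in atTop, (1000 * ((k + 2) * KK0 k a c)) *
      ((2 * (w n : ℝ) + 1) ^ (2 * k + 1) * Real.log (2 * w n + 2)) ≤ Real.log n := by
    filter_upwards [hg] with n hn
    rw [one_div, inv_mul_eq_div, le_div_iff₀ (by positivity)] at hn
    linarith
  have hkK : 1 ≤ ((k : ℝ) + 2) * KK0 k a c := by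
    have : (0 : ℝ) ≤ k := Nat.cast_nonneg _
    nlinarith
  have hbase2 : ∀ᶠ n : ℕ in atTop, 500 * (2 * (w n : ℝ) + 1) ^ (2 * k + 1) ≤ Real.log n := by
    filter_upwards [hbase] with n hn
    have h1 : (1 : ℝ) / 2 ≤ Real.log (2 * w n + 2) := by
      have h2 := Real.log_two_gt_d9
      have h3 : Real.log 2 ≤ Real.log (2 * w n + 2) := by
        apply Real.log_le_log (by norm_num)
        have : (0 : ℝ) ≤ w n := Nat.cast_nonneg _
        linarith
      linarith
    have h4 : 0 ≤ (2 * (w n : ℝ) + 1) ^ (2 * k + 1) := by positivity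
    have h5 : (2 * (w n : ℝ) + 1) ^ (2 * k + 1) * (1 / 2) ≤
        (2 * (w n : ℝ) + 1) ^ (2 * k + 1) * Real.log (2 * w n + 2) :=
      mul_le_mul_of_nonneg_left h1 h4
    have h6 : 0 ≤ (2 * (w n : ℝ) + 1) ^ (2 * k + 1) * Real.log (2 * w n + 2) := by linarith
    have h7 := mul_le_mul_of_nonneg_right hkK h6
    nlinarith
  have hlog : ∀ᶠ n : ℕ in atTop, (w n : ℝ) ≤ Real.log n := by
    filter_upwards [hbase2] with n hn
    have h0 : (0 : ℝ) ≤ w n := Nat.cast_nonneg _
    have h1 : 2 * (w n : ℝ) + 1 ≤ (2 * (w n : ℝ) + 1) ^ (2 * k + 1) :=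
      le_self_pow₀ (by linarith) (by omega)
    linarith
  have hT : ∀ᶠ n : ℕ in atTop, (TT k (w n) : ℝ) ≤ Real.log n / 8 := by
    filter_upwards [hbase2] with n hn
    have h0 : (0 : ℝ) ≤ w n := Nat.cast_nonneg _
    have h1 : (2 * (w n : ℝ) + 1) ^ k ≤ (2 * (w n : ℝ) + 1) ^ (2 * k + 1) :=
      pow_le_pow_right₀ (by linarith) (by omega)
    have h2 := TT_le k (w n)
    linarith
  have hp : ∀ᶠ n : ℕ in atTop, Real.exp (-(Real.log n / 8)) ≤
      (c * ep k a (w n)) ^ (Mb k (w n)) := by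
    filter_upwards [hbase] with n hn
    have hε0 := ep_pos (k := k) ha (w n)
    have hq0 : 0 < c * ep k a (w n) := mul_pos hc hε0
    have hq1 : c * ep k a (w n) ≤ 1 := (hd _ hε0 (ep_le_one _)).1.trans measureReal_le_one
    have h1 := cost_le (k := k) ha hc (w n) hq1
    have h2 : (c * ep k a (w n)) ^ (Mb k (w n)) =
        Real.exp (-((Mb k (w n) : ℝ) * Real.log (1 / (c * ep k a (w n))))) := by
      rw [one_div, Real.log_inv, mul_neg, neg_neg, mul_comm (Mb k (w n) : ℝ), Real.exp_mul,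
        Real.exp_log hq0, Real.rpow_natCast]
    rw [h2]
    apply Real.exp_le_exp.2
    have h3 : 0 ≤ (2 * (w n : ℝ) + 1) ^ (2 * k + 1) * Real.log (2 * w n + 2) := by
      have : (0 : ℝ) ≤ w n := Nat.cast_nonneg _
      have := Real.log_nonneg (show (1 : ℝ) ≤ 2 * w n + 2 by linarith)
      positivity
    have h4 : 0 ≤ ((k : ℝ) + 2) * KK0 k a c *
      ((2 * (w n : ℝ) + 1) ^ (2 * k + 1) * Real.log (2 * w n + 2)) := by positivity
    nlinarith
  have hfin := hfin_horn (k := k) hw hlog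
  filter_upwards [Pool.Agent.TH761.EB.gen_ae μ hat (Bond k),
    good_ae (k := k) μ hw hlog hT ha hc hd hp] with J hJ hgood
  obtain ⟨s, hs⟩ := Pool.Agent.TH761.EB.exists_gs (a := Pool.Agent.TH761.EB.aa)
    (b := Pool.Agent.TH761.EB.bb) (R := horn k w) Pool.Agent.TH761.EB.horn_fib
    (Pool.Agent.TH761.EB.horn_front (k := k + 1) hw) hJ
  refine ⟨s, fun t => ⟨fun ht => ?_, ?_⟩⟩
  · have hx0 : (0 : Site k) ∈ horn k w := by
      rw [mem_horn]
      refine ⟨le_rfl, fun i => ?_⟩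
      simp
    refine unique_zero hfin hs ht hx0 fun n0 => ?_
    obtain ⟨n, hn, m, htube, hwin⟩ := hgood n0.toNat
    obtain ⟨l, hl, h1, h2, h3⟩ := good_layer hfin htube ha (ep_pos ha m).le (ep_lt ha m) hwin hs ht
    exact ⟨l, by omega, h1, h2, h3⟩
  · rintro (h | h)
    · rw [h]; exact hs
    · rw [h]; exact hs.neg

end Pool.Agent.Q234.EA.Zer
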