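import Pool.Agent.Q234.EA.Zuni
import Pool.Agent.Q234.EA.Prz
import Pool.Agent.Q234.EA.Dns

/-!
# Good blocks occur infinitely often on slowly growing horns
-/

set_option autoImplicit false

open Finset Filter Topology MeasureTheory

namespace Pool.Agent.Q234.EA.Zer

open Pool.Agent.Q234.EA

variable {k : ℕ} {w : ℕ → ℕ}

lemma tube_hornT (hw : Monotone w) {x l n T : ℕ} (hx : w x = w (x + l)) (h1 : x + w x ≤ n)
    (h2 : n + T + w x ≤ x + l) (hu : ∀ u : ℕ, x + l < u → w u + n + T < u) :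
    TubeT (horn k w) n T (w x) := by
  intro v hv1 hv2
  rw [mem_horn]
  constructor
  · rintro ⟨h0, h3⟩ i
    obtain ⟨u, hu'⟩ := Int.eq_ofNat_of_zero_le h0
    have hun : (v 0).toNat = u := by omega
    rw [hun] at h3
    refine (h3 i).trans ?_
    by_cases hc : u ≤ x + l
    · rw [hx]
      exact_mod_cast hw hc
    · push Not at hc
      have h4 := hu u hc
      have h5 := h3 0
      rw [Fin.succ_zero_eq_one, abs_le] at h5
      unfold lam at hv1 hv2
      omega
  · intro h3
    have h5 := h3 0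
    rw [Fin.succ_zero_eq_one, abs_le] at h5
    unfold lam at hv1 hv2
    have h0 : 0 ≤ v 0 := by omega
    refine ⟨h0, fun i => (h3 i).trans ?_⟩
    have : w x ≤ w (v 0).toNat := hw (by omega)
    exact_mod_cast this

theorem windowsT (hw : Monotone w) (hlog : ∀ᶠ n : ℕ in atTop, (w n : ℝ) ≤ Real.log n)
    (hT : ∀ᶠ n : ℕ in atTop, (TT k (w n) : ℝ) ≤ Real.log n / 8) :
    ∀ᶠ L : ℕ in atTop, ∃ x : ℕ, L ≤ x ∧ L ^ 4 ≤ x ∧ x ≤ 2 * L ^ 4 ∧ TT k (w x) ≤ L ∧
      ∀ i : ℕ, 4 * i ≤ L →
        TubeT (horn k w) ((x + 4 * L + i * L : ℕ) : ℤ) (TT k (w x) : ℕ) (w x) := by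
  obtain ⟨N, hN⟩ := eventually_atTop.1 (hlog.and hT)
  rw [eventually_atTop]
  refine ⟨N + 20, fun L hL => ?_⟩
  have hL4 : L ≤ L ^ 4 := by
    calc L = L ^ 1 := (pow_one L).symm
      _ ≤ L ^ 4 := Nat.pow_le_pow_right (by omega) (by norm_num)
  have hLL : 20 * L ≤ L ^ 2 := by rw [pow_two]; exact Nat.mul_le_mul_right _ (by omega)
  have hw4 : ∀ n : ℕ, L ≤ n → n ≤ 3 * L ^ 4 → w n ≤ 4 * L := by
    intro n h1 h2
    have h3 := (hN n (by omega)).1.trans (log_bound (by omega) (by omega) h2)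
    have h4 : (w n : ℝ) ≤ 4 * L := by linarith
    exact_mod_cast h4
  have hT4 : ∀ n : ℕ, L ≤ n → n ≤ 3 * L ^ 4 → 2 * TT k (w n) ≤ L := by
    intro n h1 h2
    have h3 := (hN n (by omega)).2
    have h3' := log_bound (L := L) (n := n) (by omega) (by omega) h2
    have h4 : 2 * (TT k (w n) : ℝ) ≤ L := by linarith
    exact_mod_cast h4
  have h24 : L ^ 2 * L ^ 2 = L ^ 4 := by rw [← pow_add]
  obtain ⟨i, hi, hieq⟩ : ∃ i : ℕ, i < L ^ 2 ∧
      w (L ^ 4 + i * L ^ 2) = w (L ^ 4 + i * L ^ 2 + L ^ 2) := by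
    by_contra hc
    push Not at hc
    have hgrow : ∀ i : ℕ, i ≤ L ^ 2 → i ≤ w (L ^ 4 + i * L ^ 2) := by
      intro i
      induction i with
      | zero => intro _; exact Nat.zero_le _
      | succ i ih =>
        intro h
        have h1 := ih (by omega)
        have h2 := hc i (by omega)
        have h3 : w (L ^ 4 + i * L ^ 2) ≤ w (L ^ 4 + i * L ^ 2 + L ^ 2) := hw (by omega)
        have h4 : L ^ 4 + (i + 1) * L ^ 2 = L ^ 4 + i * L ^ 2 + L ^ 2 := by ring
        rw [h4]
        omega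
    have h1 := hgrow (L ^ 2) le_rfl
    have h2 := hw4 (L ^ 4 + L ^ 2 * L ^ 2) (by omega) (by omega)
    omega
  set x : ℕ := L ^ 4 + i * L ^ 2 with hx
  have hil : i * L ^ 2 + L ^ 2 ≤ L ^ 4 := by
    calc i * L ^ 2 + L ^ 2 = (i + 1) * L ^ 2 := by ring
      _ ≤ L ^ 2 * L ^ 2 := Nat.mul_le_mul_right _ hi
      _ = L ^ 4 := h24
  have hwx : w x ≤ 4 * L := hw4 x (by omega) (by omega)
  have hTx : 2 * TT k (w x) ≤ L := hT4 x (by omega) (by omega)
  refine ⟨x, by omega, by omega, by omega, by omega, ?_⟩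
  intro j hj
  have hjL : 4 * (j * L) ≤ L ^ 2 := by
    calc 4 * (j * L) = (4 * j) * L := by ring
      _ ≤ L * L := Nat.mul_le_mul_right _ hj
      _ = L ^ 2 := (pow_two L).symm
  refine tube_hornT hw hieq (by omega) (by omega) ?_
  intro u hu
  have h1 := (hN u (by omega)).1
  have h2 := log_add (A := x + L ^ 2) (u := u) (by omega) (by omega)
  have h3 := log_bound (L := L) (n := x + L ^ 2) (by omega) (by omega) (by omega)
  push_cast at h2 h3
  have h4 : (w u : ℝ) ≤ 4 * L - 2 + ((u : ℝ) - (x + (L : ℝ) ^ 2)) := by linarith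
  have h5 : (w u : ℝ) + 2 + x + (L : ℝ) ^ 2 ≤ 4 * L + u := by linarith
  have h6 : w u + 2 + x + L ^ 2 ≤ 4 * L + u := by exact_mod_cast h5
  omega

/-- the number of bonds of a block -/
def Mb (k m : ℕ) : ℕ := TT k m * (2 * m + 1) ^ (k + 1) * (k + 2)

lemma Mb_pos (k m : ℕ) : 0 < Mb k m := by
  unfold Mb TT
  positivity

/-- the precision -/
noncomputable def ep (k : ℕ) (a : ℝ) (m : ℕ) : ℝ := min a 1 / (2 * Mb k m)

lemma ep_pos {a : ℝ} (ha : 0 < a) (m : ℕ) : 0 < ep k a m := by
  unfold ep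
  have := Mb_pos k m
  have h2 : (0 : ℝ) < Mb k m := by exact_mod_cast this
  have h3 : 0 < min a 1 := lt_min ha one_pos
  positivity

lemma ep_le_one {a : ℝ} (m : ℕ) : ep k a m ≤ 1 := by
  unfold ep
  have h2 : (1 : ℝ) ≤ Mb k m := by exact_mod_cast Mb_pos k m
  rw [div_le_one (by positivity)]
  have h3 : min a 1 ≤ 1 := min_le_right _ _
  linarith

lemma ep_lt {a : ℝ} (ha : 0 < a) (m : ℕ) :
    ep k a m * (((TT k m : ℝ) * (2 * m + 1) ^ (k + 1)) * (k + 2)) < a := by
  have h2 : (0 : ℝ) < Mb k m := by exact_mod_cast Mb_pos k m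
  have h1 : ((TT k m : ℝ) * (2 * m + 1) ^ (k + 1)) * (k + 2) = Mb k m := by
    unfold Mb; push_cast; ring
  rw [h1]
  unfold ep
  have h3 : min a 1 / (2 * (Mb k m : ℝ)) * Mb k m = min a 1 / 2 := by
    field_simp
  rw [h3]
  have h4 : min a 1 ≤ a := min_le_left _ _
  linarith

variable (μ : Measure ℝ) [IsProbabilityMeasure μ]

open Classical in
/-- the projection to `Bool`: is the coupling in the window of its block? -/
noncomputable def gp (N : ℕ) (D : ℕ → Finset (Bond k)) (pr : ℕ → Bond k → ℝ) (ε : ℝ)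
    (e : Bond k) (x : ℝ) : Bool :=
  if ∀ j < N, e ∈ D j → |x - pr j e| ≤ ε then true else false

lemma gp_meas (N : ℕ) (D : ℕ → Finset (Bond k)) (pr : ℕ → Bond k → ℝ) (ε : ℝ) (e : Bond k) :
    Measurable (gp N D pr ε e) := by
  classical
  have hset : MeasurableSet {x : ℝ | ∀ j < N, e ∈ D j → |x - pr j e| ≤ ε} := by
    have : {x : ℝ | ∀ j < N, e ∈ D j → |x - pr j e| ≤ ε} =
        ⋂ j : ℕ, ⋂ _ : j < N, ⋂ _ : e ∈ D j, {x : ℝ | |x - pr j e| ≤ ε} := by
      ext x; simp
    rw [this]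
    refine MeasurableSet.iInter fun j => MeasurableSet.iInter fun _ => MeasurableSet.iInter
      fun _ => ?_
    exact measurableSet_le ((measurable_id.sub_const _).abs) measurable_const
  unfold gp
  exact Measurable.ite hset measurable_const measurable_const

/-- The probability that no block is good. -/
theorem none_good {N M : ℕ} {D : ℕ → Finset (Bond k)} {pr : ℕ → Bond k → ℝ} {ε q : ℝ}
    (hD : ∀ i j, i ≠ j → Disjoint (D i) (D j)) (hq : 0 ≤ q) (hq1 : q ≤ 1)
    (hM : ∀ j < N, (D j).card ≤ M)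
    (hμ : ∀ j < N, ∀ e ∈ D j, q ≤ μ.real (Set.Icc (pr j e - ε) (pr j e + ε))) :
    (Measure.infinitePi fun _ : Bond k => μ)
      {J | ∀ j < N, ¬ ∀ e ∈ D j, |J e - pr j e| ≤ ε} ≤
      ENNReal.ofReal (Real.exp (-(N * q ^ M))) := by
  classical
  set g : (e : Bond k) → ℝ → Bool := gp N D pr ε with hg
  have hgm : ∀ e, Measurable (g e) := gp_meas N D pr ε
  set ν : Bond k → Measure Bool := fun e => μ.map (g e) with hν
  haveI : ∀ e, IsProbabilityMeasure (ν e) := fun e =>
    Measure.isProbabilityMeasure_map (hgm e).aemeasurable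
  have hmap : (Measure.infinitePi fun _ : Bond k => μ).map (fun J e => g e (J e)) =
      Measure.infinitePi ν := Measure.infinitePi_map_pi (fun _ => μ) hgm
  have hGm : Measurable fun (J : Bond k → ℝ) (e : Bond k) => g e (J e) :=
    measurable_pi_lambda _ fun e => (hgm e).comp (measurable_pi_apply e)
  have hiff : ∀ j < N, ∀ e ∈ D j, ∀ x : ℝ, g e x = true ↔ |x - pr j e| ≤ ε := by
    intro j hj e he x
    simp only [hg, gp]
    constructor
    · intro h
      by_contra hc
      rw [if_neg (fun h2 => hc (h2 j hj he))] at h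
      exact Bool.false_ne_true h
    · intro h
      rw [if_pos]
      intro i hi hei
      have hij : i = j := by
        by_contra hne
        exact Finset.disjoint_left.1 (hD i j hne) hei he
      rw [hij]
      exact h
  have hνq : ∀ j < N, ∀ e ∈ D j, q ≤ (ν e).real {true} := by
    intro j hj e he
    refine (hμ j hj e he).trans (le_of_eq ?_)
    simp only [hν, Measure.real]
    rw [Measure.map_apply (hgm e) (MeasurableSet.singleton _)]
    congr 2
    ext x
    rw [Set.mem_preimage, Set.mem_singleton_iff, hiff j hj e he x, abs_le, Set.mem_Icc]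
    constructor
    · rintro ⟨h1, h2⟩; constructor <;> linarith
    · rintro ⟨h1, h2⟩; constructor <;> linarith
  have hset : MeasurableSet {J : Bond k → Bool | ∀ j < N, ¬ ∀ e ∈ D j, J e = true} := by
    have : {J : Bond k → Bool | ∀ j < N, ¬ ∀ e ∈ D j, J e = true} =
        ⋂ j : ℕ, ⋂ _ : j < N, (⋂ e : Bond k, ⋂ _ : e ∈ D j, {J : Bond k → Bool | J e = true})ᶜ := by
      ext J; simp
    rw [this]
    refine MeasurableSet.iInter fun j => MeasurableSet.iInter fun _ => MeasurableSet.compl ?_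
    refine MeasurableSet.iInter fun e => MeasurableSet.iInter fun _ => ?_
    exact measurableSet_eq_fun (measurable_pi_apply e) measurable_const
  have h1 := none_real ν D hq hq1 hD N hνq hM
  have h2 : (Measure.infinitePi fun _ : Bond k => μ)
      {J | ∀ j < N, ¬ ∀ e ∈ D j, |J e - pr j e| ≤ ε} =
      Measure.infinitePi ν {J | ∀ j < N, ¬ ∀ e ∈ D j, J e = true} := by
    rw [← hmap, Measure.map_apply hGm hset]
    congr 1
    ext J
    simp only [Set.mem_preimage, Set.mem_ofPred_eq]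
    constructor
    · intro h j hj hc
      exact h j hj fun e he => (hiff j hj e he _).1 (hc e he)
    · intro h j hj hc
      exact h j hj fun e he => (hiff j hj e he _).2 (hc e he)
  rw [h2]
  have h3 := ENNReal.ofReal_le_ofReal h1
  rw [Measure.real, ENNReal.ofReal_toReal (measure_ne_top _ _)] at h3
  exact h3

end Pool.Agent.Q234.EA.Zer
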