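import Pool.Agent.Q234.EA.Zbd
import Pool.Agent.Q234.EA.Gro
import Pool.Agent.TH761.EB.Uniq

/-!
# Ground states are constant on a layer of each good block
-/

set_option autoImplicit false

open Finset

namespace Pool.Agent.Q234.EA.Zer

open Pool.Agent.Q234.EA Pool.Agent.TH761.EB

variable {k : ℕ} {R : Set (Site k)}

/-- the couplings of the block are within `ε` of `a` times the pattern -/
def Win (R : Set (Site k)) (J : Bond k → ℝ) (a ε : ℝ) (n T : ℤ) : Prop :=
  ∀ (v : Site k) (i : Fin (k + 2)), v ∈ R → n + 1 ≤ lam v → lam v ≤ n + T - 1 →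
    |J (v, i) - a * pt n T v i| ≤ ε

/-- near the block the region is a tube of radius `m` -/
def TubeT (R : Set (Site k)) (n T : ℤ) (m : ℕ) : Prop :=
  ∀ v : Site k, n + 1 ≤ lam v → lam v ≤ n + T → (v ∈ R ↔ ∀ i : Fin (k + 1), |v i.succ| ≤ (m : ℤ))

lemma pm_mul {x y : ℝ} (hx : x = 1 ∨ x = -1) (hy : y = 1 ∨ y = -1) : x * y = 1 ∨ x * y = -1 := by
  rcases hx with h | h <;> rcases hy with h' | h' <;> rw [h, h'] <;> norm_num

variable (hfin : ∀ c : ℤ, {x : R | lam x.1 ≤ c}.Finite)

theorem few_unsat {n T : ℤ} (hT : 6 ≤ T) {J : Bond k → ℝ} {a ε : ℝ} (ha : 0 < a) (hε : 0 ≤ ε)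
    (hW : Win R J a ε n T) {s : Site k → ℝ} (hs : GS aa bb R J s) :
    2 * a * ∑ c ∈ Finset.Icc (n + 3) (n + T - 3), Uc hfin (n + T) s c ≤
      4 * a * (CT hfin n T).card + 2 * ε * ((LS hfin (n + 1) (n + T - 1)).card * (k + 2)) := by
  classical
  have hsC : Cf R s := hs.1
  set s' : Site k → ℝ := fun v => if v ∈ R ∧ n + 2 ≤ lam v ∧ lam v ≤ n + T - 1 then 1 else s v
    with hs'
  have hs'C : Cf R s' := by
    refine ⟨fun v hv => ?_, fun v hv => ?_⟩
    · simp only [hs']
      split_ifs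
      · exact Or.inl rfl
      · exact hsC.1 v hv
    · simp only [hs']
      rw [if_neg (fun h => hv h.1)]
      exact hsC.2 v hv
  have hm : ∀ v ∈ R, n + 2 ≤ lam v → lam v ≤ n + T - 1 → s' v = 1 := by
    intro v h1 h2 h3
    simp only [hs']
    rw [if_pos ⟨h1, h2, h3⟩]
  have hoff : ∀ v, lam v ≤ n + 1 ∨ n + T ≤ lam v → s' v = s v := by
    intro v h
    simp only [hs']
    rw [if_neg (by omega)]
  have hfinD : {v | s' v ≠ s v}.Finite := by
    refine (Finset.finite_toSet (LS hfin (n + 2) (n + T - 1))).subset ?_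
    intro v hv
    rw [Finset.mem_coe, mem_LS]
    by_contra hc
    apply hv
    simp only [hs']
    rw [if_neg hc]
  have h0 : 0 ≤ ∑ᶠ e, J e * (s (aa e) * s (bb e) - s' (aa e) * s' (bb e)) := by
    by_cases he : s' = s
    · rw [he]; simp
    · exact (hs.2 s' hs'C hfinD he).le
  -- as a finite sum
  set B := BT hfin (n + T) with hB
  have h1 : ∑ᶠ e, J e * (s (aa e) * s (bb e) - s' (aa e) * s' (bb e)) =
      ∑ v ∈ B, ∑ i : Fin (k + 2), (if n + 1 ≤ lam v ∧ lam v ≤ n + T - 1 then
        J (v, i) * (s v * s (v + eu i) - s' v * s' (v + eu i)) else 0) := by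
    rw [← Finset.sum_product' (f := fun v i => if n + 1 ≤ lam v ∧ lam v ≤ n + T - 1 then
        J (v, i) * (s v * s (v + eu i) - s' v * s' (v + eu i)) else 0)]
    rw [← Finset.sum_filter]
    apply finsum_eq_sum_of_support_subset
    intro e he
    rw [Function.mem_support] at he
    have hR : e.1 ∈ R := by
      by_contra hc
      apply he
      show J e * (s e.1 * s (e.1 + Pi.single e.2 1) - s' e.1 * s' (e.1 + Pi.single e.2 1)) = 0
      rw [hsC.2 _ hc, hs'C.2 _ hc]; ring
    have hl : n + 1 ≤ lam e.1 ∧ lam e.1 ≤ n + T - 1 := by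
      by_contra hc
      apply he
      show J e * (s e.1 * s (e.1 + Pi.single e.2 1) - s' e.1 * s' (e.1 + Pi.single e.2 1)) = 0
      have h2 : lam (e.1 + Pi.single e.2 1) = lam e.1 ∨
          lam (e.1 + Pi.single e.2 1) = lam e.1 + 1 := by
        have := lam_add e.1 (eu e.2)
        unfold eu at this
        rw [this]
        rcases lam_eu_mem e.2 with h7 | h7
        · left; unfold eu at h7; omega
        · right; unfold eu at h7; omega
      rw [hoff e.1 (by omega), hoff (e.1 + Pi.single e.2 1) (by omega), sub_self, mul_zero]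
    rw [Finset.mem_coe, mem_filter, mem_product]
    exact ⟨⟨mem_BT0 hR (by omega), mem_univ _⟩, hl⟩
  rw [h1] at h0
  -- comparison with the pattern
  have h2 : ∑ v ∈ B, ∑ i : Fin (k + 2), (if n + 1 ≤ lam v ∧ lam v ≤ n + T - 1 then
        J (v, i) * (s v * s (v + eu i) - s' v * s' (v + eu i)) else 0) ≤
      a * (FF hfin n T s - FF hfin n T s') +
        ∑ v ∈ B, ∑ _i : Fin (k + 2), (if v ∈ R ∧ n + 1 ≤ lam v ∧ lam v ≤ n + T - 1 then
          2 * ε else 0) := by
    unfold FF
    rw [← Finset.sum_sub_distrib, Finset.mul_sum, ← Finset.sum_add_distrib]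
    refine Finset.sum_le_sum fun v _ => ?_
    rw [← Finset.sum_sub_distrib, Finset.mul_sum, ← Finset.sum_add_distrib]
    refine Finset.sum_le_sum fun i _ => ?_
    by_cases hl : n + 1 ≤ lam v ∧ lam v ≤ n + T - 1
    · by_cases hv : v ∈ R
      · rw [if_pos hl, if_pos hl, if_pos hl, if_pos ⟨hv, hl⟩]
        have h3 := hW v i hv hl.1 hl.2
        have h4 : |s v * s (v + eu i) - s' v * s' (v + eu i)| ≤ 2 := by
          rcases hsC.cases v with x1 | x1 | x1 <;> rcases hsC.cases (v + eu i) with x2 | x2 | x2 <;>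
            rcases hs'C.cases v with x3 | x3 | x3 <;>
            rcases hs'C.cases (v + eu i) with x4 | x4 | x4 <;> rw [x1, x2, x3, x4] <;> norm_num
        have h5 : (J (v, i) - a * pt n T v i) * (s v * s (v + eu i) - s' v * s' (v + eu i)) ≤
            ε * 2 := by
          refine (le_abs_self _).trans ?_
          rw [abs_mul]
          exact mul_le_mul h3 h4 (abs_nonneg _) hε
        unfold gg
        linarith
      · rw [if_pos hl, if_pos hl, if_pos hl, if_neg (fun h => hv h.1)]
        unfold gg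
        rw [hsC.2 _ hv, hs'C.2 _ hv]
        simp
    · rw [if_neg hl, if_neg hl, if_neg hl, if_neg (fun h => hl h.2)]
      simp
  have h3 : ∑ v ∈ B, ∑ _i : Fin (k + 2), (if v ∈ R ∧ n + 1 ≤ lam v ∧ lam v ≤ n + T - 1 then
      2 * ε else 0) ≤ 2 * ε * ((LS hfin (n + 1) (n + T - 1)).card * (k + 2)) := by
    simp only [Finset.sum_const, Finset.card_univ, Fintype.card_fin, nsmul_eq_mul]
    rw [← Finset.mul_sum, ← Finset.sum_filter, Finset.sum_const, nsmul_eq_mul]
    have h4 : (B.filter fun v => v ∈ R ∧ n + 1 ≤ lam v ∧ lam v ≤ n + T - 1).card ≤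
        (LS hfin (n + 1) (n + T - 1)).card := by
      apply Finset.card_le_card
      intro v hv
      rw [mem_LS]
      exact (mem_filter.1 hv).2
    have h5 : ((B.filter fun v => v ∈ R ∧ n + 1 ≤ lam v ∧ lam v ≤ n + T - 1).card : ℝ) ≤
        (LS hfin (n + 1) (n + T - 1)).card := by exact_mod_cast h4
    push_cast
    have h6 : (0 : ℝ) ≤ ((k : ℝ) + 2) * (2 * ε) := by positivity
    nlinarith [mul_le_mul_of_nonneg_left h5 h6]
  have h4 := FF_diff hfin hT hsC hs'C (r := 1) (by norm_num) hm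
    (fun v hv => hoff v (Or.inl (by omega)))
  nlinarith [mul_le_mul_of_nonneg_left h4 ha.le]

lemma card_LS {n T : ℤ} {m : ℕ} (ht : TubeT R n T m) (a b : ℤ) (ha : n + 1 ≤ a)
    (hb : b ≤ n + T) :
    (LS hfin a b).card ≤ (b + 1 - a).toNat * (2 * m + 1) ^ (k + 1) := by
  have h1 : (Finset.Icc a b ×ˢ bx (k + 1) m).card = (b + 1 - a).toNat * (2 * m + 1) ^ (k + 1) := by
    rw [card_product, card_bx, Int.card_Icc]
  rw [← h1]
  refine Finset.card_le_card_of_injOn (fun v : Site k => (lam v, fun i : Fin (k + 1) => v i.succ))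
    ?_ ?_
  · intro v hv
    have hv' := (mem_LS hfin).1 (mem_coe.1 hv)
    rw [mem_coe, mem_product, Finset.mem_Icc, mem_bx]
    refine ⟨⟨hv'.2.1, hv'.2.2⟩, ?_⟩
    exact (ht v (by omega) (by omega)).1 hv'.1
  · intro x _ y _ h
    simp only [Prod.mk.injEq] at h
    exact site_ext _ _ h.1 fun i => congrFun h.2 i

lemma card_CT {n T : ℤ} (hT : 6 ≤ T) {m : ℕ} (ht : TubeT R n T m) :
    (CT hfin n T).card ≤ 4 * (2 * m + 1) ^ k := by
  classical
  have h1 : (({n + 1, n + T - 2} : Finset ℤ) ×ˢ ({(m : ℤ), -(m : ℤ) - 1} : Finset ℤ) ×ˢ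
      bx k m).card ≤ 4 * (2 * m + 1) ^ k := by
    rw [card_product, card_product, card_bx]
    have a1 : ({n + 1, n + T - 2} : Finset ℤ).card ≤ 2 := Finset.card_le_two
    have a2 : ({(m : ℤ), -(m : ℤ) - 1} : Finset ℤ).card ≤ 2 := Finset.card_le_two
    calc _ ≤ 2 * (2 * (2 * m + 1) ^ k) :=
          Nat.mul_le_mul a1 (Nat.mul_le_mul a2 le_rfl)
      _ = _ := by ring
  refine le_trans ?_ h1
  refine Finset.card_le_card_of_injOn
    (fun w : Site k => (lam w, w 1, fun i : Fin k => w i.succ.succ)) ?_ ?_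
  · intro w hw
    unfold CT at hw
    rw [mem_coe, mem_filter] at hw
    obtain ⟨_, hl, hTo, hF⟩ := hw
    have mR : ∀ v : Site k, n + 1 ≤ lam v → lam v ≤ n + T →
        (v ∈ R ↔ |v 1| ≤ (m : ℤ) ∧ ∀ i : Fin k, |v i.succ.succ| ≤ (m : ℤ)) := by
      intro v h1 h2
      rw [ht v h1 h2, Fin.forall_fin_succ, Fin.succ_zero_eq_one]
    have l0 : lam (w + eu 0) = lam w + 1 := by rw [lam_add, lam_eu0]
    have l1 : lam (w + eu 1) = lam w + 1 := by rw [lam_add, lam_eu1]
    have l2 : lam (w + eu 0 + eu 1) = lam w + 2 := by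
      rw [lam_add, lam_add, lam_eu0, lam_eu1]; ring
    have c0 := mR w (by omega) (by omega)
    have c1 := mR (w + eu 0) (by omega) (by omega)
    have c2 := mR (w + eu 1) (by omega) (by omega)
    have c3 := mR (w + eu 0 + eu 1) (by omega) (by omega)
    simp only [Pi.add_apply, eu0_one, eu1_one, eu0_succ, eu1_ss, add_zero] at c0 c1 c2 c3
    unfold Tou at hTo
    unfold Ful at hF
    rw [c0, c1, c2, c3] at hTo hF
    have hi : ∀ i : Fin k, |w i.succ.succ| ≤ (m : ℤ) := by
      rcases hTo with h | h | h | h <;> exact h.2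
    rw [mem_coe, mem_product, mem_product, mem_bx]
    refine ⟨?_, ?_, hi⟩
    · simp only [mem_insert, mem_singleton]
      exact hl
    · simp only [mem_insert, mem_singleton]
      have hA : |w 1| ≤ (m : ℤ) ∨ |w 1 + 1| ≤ (m : ℤ) := by
        rcases hTo with h | h | h | h
        · exact Or.inl h.1
        · exact Or.inl h.1
        · exact Or.inr h.1
        · exact Or.inr h.1
      have hB : ¬ (|w 1| ≤ (m : ℤ) ∧ |w 1 + 1| ≤ (m : ℤ)) := by
        intro h
        exact hF ⟨⟨h.1, hi⟩, ⟨h.1, hi⟩, ⟨h.2, hi⟩, ⟨h.2, hi⟩⟩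
      rw [abs_le, abs_le] at hA hB
      omega
  · intro w _ w' _ h
    simp only [Prod.mk.injEq] at h
    refine site_ext _ _ h.1 fun i => ?_
    refine Fin.cases ?_ (fun j => congrFun h.2.2 j) i
    rw [Fin.succ_zero_eq_one]
    exact h.2.1

/-- functions on the box which do not change along the bonds are constant -/
lemma box_const {l m : ℕ} (f : (Fin l → ℤ) → ℝ)
    (hf : ∀ (u : Fin l → ℤ) (i : Fin l), (∀ j, |u j| ≤ (m : ℤ)) →
      (∀ j, |(u + Pi.single i 1 : Fin l → ℤ) j| ≤ (m : ℤ)) → f u = f (u + Pi.single i 1))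
    (u : Fin l → ℤ) (hu : ∀ j, |u j| ≤ (m : ℤ)) : f u = f 0 := by
  classical
  obtain ⟨N, hN⟩ : ∃ N : ℕ, ∑ j, (u j).natAbs = N := ⟨_, rfl⟩
  induction N generalizing u with
  | zero =>
    have : u = 0 := by
      funext j
      have := (Finset.sum_eq_zero_iff.1 hN) j (mem_univ _)
      simpa using this
    rw [this]
  | succ N ih =>
    obtain ⟨i, hi⟩ : ∃ i, u i ≠ 0 := by
      by_contra hc
      push Not at hc
      rw [Finset.sum_eq_zero (fun j _ => by rw [hc j]; rfl)] at hN
      omega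
    rcases lt_or_gt_of_ne hi with hneg | hpos
    · -- move up
      have h1 : ∀ j, |(u + Pi.single i 1 : Fin l → ℤ) j| ≤ (m : ℤ) := by
        intro j
        have h2 := hu j
        rw [Pi.add_apply]
        by_cases hj : j = i
        · subst hj
          rw [Pi.single_eq_same]
          rw [abs_le] at h2 ⊢
          constructor <;> omega
        · rw [Pi.single_eq_of_ne hj, add_zero]; exact h2
      rw [hf u i hu h1]
      apply ih _ h1
      rw [← Finset.add_sum_erase _ _ (mem_univ i)] at hN ⊢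
      have h3 : ∑ j ∈ univ.erase i, ((u + Pi.single i 1 : Fin l → ℤ) j).natAbs =
          ∑ j ∈ univ.erase i, (u j).natAbs := by
        refine Finset.sum_congr rfl fun j hj => ?_
        rw [Pi.add_apply, Pi.single_eq_of_ne (ne_of_mem_erase hj), add_zero]
      rw [h3, Pi.add_apply, Pi.single_eq_same]
      omega
    · -- move down
      set u' : Fin l → ℤ := u - Pi.single i 1 with hu'
      have hback : u' + Pi.single i 1 = u := sub_add_cancel _ _
      have h1 : ∀ j, |u' j| ≤ (m : ℤ) := by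
        intro j
        have h2 := hu j
        rw [hu', Pi.sub_apply]
        by_cases hj : j = i
        · subst hj
          rw [Pi.single_eq_same]
          rw [abs_le] at h2 ⊢
          constructor <;> omega
        · rw [Pi.single_eq_of_ne hj, sub_zero]; exact h2
      have h2 := hf u' i h1 (by rw [hback]; exact hu)
      rw [hback] at h2
      rw [← h2]
      apply ih _ h1
      rw [← Finset.add_sum_erase _ _ (mem_univ i)] at hN ⊢
      have h3 : ∑ j ∈ univ.erase i, (u' j).natAbs = ∑ j ∈ univ.erase i, (u j).natAbs := by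
        refine Finset.sum_congr rfl fun j hj => ?_
        rw [hu', Pi.sub_apply, Pi.single_eq_of_ne (ne_of_mem_erase hj), sub_zero]
      rw [h3, hu', Pi.sub_apply, Pi.single_eq_same]
      omega

/-- the site of layer `c` with cross coordinates `u` -/
def st (c : ℤ) (u : Fin (k + 1) → ℤ) : Site k := Fin.cons (c - u 0) u

lemma st_succ (c : ℤ) (u : Fin (k + 1) → ℤ) (i : Fin (k + 1)) : st c u i.succ = u i := by
  simp [st]

lemma lam_st (c : ℤ) (u : Fin (k + 1) → ℤ) : lam (st c u) = c := by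
  have h1 := st_succ c u 0
  rw [Fin.succ_zero_eq_one] at h1
  unfold lam
  rw [h1]
  simp [st]

lemma st_eq (v : Site k) : st (lam v) (fun i => v i.succ) = v :=
  site_ext _ _ (lam_st _ _) fun i => st_succ _ _ i

lemma st_step0 (c : ℤ) (u : Fin (k + 1) → ℤ) :
    st c u + eu 1 = st c (u + Pi.single 0 1) + eu 0 := by
  apply site_ext
  · rw [lam_add, lam_add, lam_st, lam_st, lam_eu0, lam_eu1]
  · intro i
    rw [Pi.add_apply, Pi.add_apply, st_succ, st_succ, eu0_succ, Pi.add_apply, add_zero]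
    congr 1
    obtain hi | ⟨j, hi⟩ := Fin.eq_zero_or_eq_succ i
    · rw [hi, Fin.succ_zero_eq_one, eu1_one, Pi.single_eq_same]
    · cases k with
      | zero => exact j.elim0
      | succ k => rw [hi, eu1_ss, Pi.single_eq_of_ne (Fin.succ_ne_zero j)]

lemma st_step1 (c : ℤ) (u : Fin (k + 1) → ℤ) (j : Fin k) :
    st c u + eu j.succ.succ = st c (u + Pi.single j.succ 1) := by
  apply site_ext
  · rw [lam_add, lam_st, lam_st, lam_eu2]; omega
  · intro i
    rw [Pi.add_apply, st_succ, st_succ, Pi.add_apply]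
    congr 1
    unfold eu
    by_cases hij : i = j.succ
    · rw [hij, Pi.single_eq_same, Pi.single_eq_same]
    · rw [Pi.single_eq_of_ne hij, Pi.single_eq_of_ne]
      intro h
      exact hij (Fin.succ_injective _ h)

/-- a layer without unsatisfied bonds is constant -/
lemma layer_const {n T : ℤ} {m : ℕ} (ht : TubeT R n T m) {s : Site k → ℝ} (hs : Cf R s) {c : ℤ}
    (hc1 : n + 1 ≤ c) (hc2 : c + 1 ≤ n + T)
    (h0 : ∀ v ∈ R, lam v = c → ∀ i, uns s v i = 0) {v : Site k} (hv : v ∈ R) (hl : lam v = c) :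
    s v = s (st c 0) := by
  have hsat : ∀ v ∈ R, lam v = c → ∀ i, v + eu i ∈ R → s v = s (v + eu i) := by
    intro v hv hl i hi
    have h1 := h0 v hv hl i
    unfold uns at h1
    have h2 : ¬ (s v * s (v + eu i) = -1) := by
      intro h
      rw [if_pos h] at h1
      exact one_ne_zero h1
    rcases hs.1 v hv with h3 | h3 <;> rcases hs.1 _ hi with h4 | h4 <;> rw [h3, h4] at h2 ⊢ <;>
      norm_num at h2
  have hst : ∀ u : Fin (k + 1) → ℤ, (∀ j, |u j| ≤ (m : ℤ)) → st c u ∈ R := by
    intro u hu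
    refine (ht _ (by rw [lam_st]; omega) (by rw [lam_st]; omega)).2 fun i => ?_
    rw [st_succ]
    exact hu i
  have key := box_const (m := m) (fun u => s (st c u)) (by
    intro u i hu hu'
    have g1 := hst u hu
    have g2 := hst _ hu'
    show s (st c u) = s (st c (u + Pi.single i 1))
    obtain hi | ⟨j, hi⟩ := Fin.eq_zero_or_eq_succ i
    · rw [hi] at g2 hu' ⊢
      -- common forward neighbour
      have e1 := st_step0 c u
      have g3 : st c u + eu 1 ∈ R := by
        refine (ht _ (by rw [lam_add, lam_st, lam_eu1]; omega)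
          (by rw [lam_add, lam_st, lam_eu1]; omega)).2 fun i => ?_
        rw [e1, Pi.add_apply, st_succ, eu0_succ, add_zero]
        exact hu' i
      rw [hsat _ g1 (lam_st _ _) 1 g3, e1]
      exact (hsat _ g2 (lam_st _ _) 0 (by rw [← e1]; exact g3)).symm
    · rw [hi] at g2 ⊢
      have e1 := st_step1 c u j
      have := hsat _ g1 (lam_st _ _) j.succ.succ (by rw [e1]; exact g2)
      rw [e1] at this
      exact this)
  have h1 := (ht v (by omega) (by omega)).1 hv
  have h2 : s (st c fun i => v i.succ) = s (st c 0) := key (fun i => v i.succ) h1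
  rw [← hl, st_eq] at h2
  rw [hl] at h2
  exact h2

/-- the length of the block -/
def TT (k m : ℕ) : ℕ := 16 * (2 * m + 1) ^ k + 7

include hfin in
theorem good_layer {n : ℤ} {m : ℕ} (ht : TubeT R n (TT k m) m) {J : Bond k → ℝ} {a ε : ℝ}
    (ha : 0 < a) (hε : 0 ≤ ε) (hεa : ε * (((TT k m : ℝ) * (2 * m + 1) ^ (k + 1)) * (k + 2)) < a)
    (hW : Win R J a ε n (TT k m)) {s t : Site k → ℝ} (hs : GS aa bb R J s)
    (ht' : GS aa bb R J t) :
    ∃ c : ℤ, n + 1 ≤ c ∧ st c 0 ∈ R ∧ (∀ v ∈ R, lam v = c → s v = s (st c 0)) ∧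
      ∀ v ∈ R, lam v = c → t v = t (st c 0) := by
  classical
  set T : ℤ := (TT k m : ℤ) with hT
  have hQ : 1 ≤ (2 * m + 1) ^ k := Nat.one_le_pow _ _ (by omega)
  have hT6 : 6 ≤ T := by rw [hT]; unfold TT; omega
  have hcut := card_CT hfin hT6 ht
  have hLS := card_LS hfin ht (n + 1) (n + T - 1) (by omega) (by omega)
  have hLS' : ((LS hfin (n + 1) (n + T - 1)).card : ℝ) ≤ (TT k m : ℝ) * (2 * m + 1) ^ (k + 1) := by
    have h1 : (n + T - 1 + 1 - (n + 1)).toNat ≤ TT k m := by omega
    have h2 := hLS.trans (Nat.mul_le_mul_right _ h1)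
    exact_mod_cast h2
  have hcut' : ((CT hfin n T).card : ℝ) ≤ 4 * (2 * (m : ℝ) + 1) ^ k := by exact_mod_cast hcut
  have bound : ∀ {ρ : Site k → ℝ}, GS aa bb R J ρ →
      ∑ c ∈ Finset.Icc (n + 3) (n + T - 3), Uc hfin (n + T) ρ c <
        8 * (2 * (m : ℝ) + 1) ^ k + 1 := by
    intro ρ hρ
    have h1 := few_unsat hfin hT6 ha hε hW hρ
    have h2 : 2 * ε * ((LS hfin (n + 1) (n + T - 1)).card * ((k : ℝ) + 2)) <  2 * a := by
      have h3 : ε * ((LS hfin (n + 1) (n + T - 1)).card * ((k : ℝ) + 2)) ≤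
          ε * (((TT k m : ℝ) * (2 * m + 1) ^ (k + 1)) * (k + 2)) :=
        mul_le_mul_of_nonneg_left (mul_le_mul_of_nonneg_right hLS' (by positivity)) hε
      linarith
    have h3 : 4 * a * ((CT hfin n T).card : ℝ) ≤ 4 * a * (4 * (2 * (m : ℝ) + 1) ^ k) :=
      mul_le_mul_of_nonneg_left hcut' (by positivity)
    by_contra hc
    push Not at hc
    have h4 := mul_le_mul_of_nonneg_left hc (by positivity : (0 : ℝ) ≤ 2 * a)
    linarith
  -- pigeonhole
  obtain ⟨c, hc, hlt⟩ : ∃ c ∈ Finset.Icc (n + 3) (n + T - 3),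
      Uc hfin (n + T) s c + Uc hfin (n + T) t c < 1 := by
    by_contra hcon
    push Not at hcon
    have h1 : ∑ _c ∈ Finset.Icc (n + 3) (n + T - 3), (1 : ℝ) ≤
        ∑ c ∈ Finset.Icc (n + 3) (n + T - 3), (Uc hfin (n + T) s c + Uc hfin (n + T) t c) :=
      Finset.sum_le_sum hcon
    rw [Finset.sum_add_distrib, Finset.sum_const, Int.card_Icc, nsmul_eq_mul, mul_one] at h1
    have h2 : (n + T - 3 + 1 - (n + 3)).toNat = 16 * (2 * m + 1) ^ k + 2 := by
      rw [hT]; unfold TT; omega
    rw [h2] at h1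
    push_cast at h1
    linarith [bound hs, bound ht']
  rw [Finset.mem_Icc] at hc
  have zero : ∀ {ρ : Site k → ℝ}, Uc hfin (n + T) ρ c < 1 → ∀ v ∈ R, lam v = c →
      ∀ i, uns ρ v i = 0 := by
    intro ρ hρ v hv hl i
    by_contra hne
    have h1 : uns ρ v i = 1 := by
      unfold uns at hne ⊢
      by_cases h : ρ v * ρ (v + eu i) = -1
      · rw [if_pos h]
      · rw [if_neg h] at hne
        exact absurd rfl hne
    have h2 : uns ρ v i ≤ Uc hfin (n + T) ρ c := by
      unfold Uc
      have h3 : ∑ i : Fin (k + 2), (if lam v = c then uns ρ v i else 0) ≤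
          ∑ w ∈ BT hfin (n + T), ∑ i : Fin (k + 2), (if lam w = c then uns ρ w i else 0) :=
        Finset.single_le_sum (f := fun w => ∑ i : Fin (k + 2),
          (if lam w = c then uns ρ w i else 0)) (fun w _ => Finset.sum_nonneg fun i _ => by
            split_ifs
            · exact uns_nonneg _ _ _
            · exact le_rfl) (mem_BT0 hv (by omega))
      refine le_trans ?_ h3
      have h4 := Finset.single_le_sum (f := fun i : Fin (k + 2) =>
        (if lam v = c then uns ρ v i else 0)) (fun i _ => by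
            rw [if_pos hl]
            exact uns_nonneg _ _ _) (mem_univ i)
      rw [if_pos hl] at h4
      exact h4
    linarith
  have us := Uc_nonneg hfin (n + T) s c
  have ut := Uc_nonneg hfin (n + T) t c
  refine ⟨c, by omega, ?_, fun v hv hl => ?_, fun v hv hl => ?_⟩
  · refine (ht _ (by rw [lam_st]; omega) (by rw [lam_st]; omega)).2 fun i => ?_
    rw [st_succ]
    simp
  · exact layer_const ht hs.1 (by omega) (by omega) (zero (by linarith)) hv hl
  · exact layer_const ht ht'.1 (by omega) (by omega) (zero (by linarith)) hv hl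

end Pool.Agent.Q234.EA.Zer
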