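import Pool.Agent.Q234.EA.Zpin

/-!
# Uniqueness of the pair of ground states from infinitely many constant layers
-/

set_option autoImplicit false

open Finset

namespace Pool.Agent.Q234.EA.Zer

open Pool.Agent.Q234.EA Pool.Agent.TH761.EB

variable {k : ℕ} {R : Set (Site k)}

theorem unique_zero (hfin : ∀ c : ℤ, {x : R | lam x.1 ≤ c}.Finite) {J : Bond k → ℝ}
    {s t : Site k → ℝ} (hs : GS aa bb R J s) (ht : GS aa bb R J t) {x0 : Site k} (hx0 : x0 ∈ R)
    (h : ∀ n0 : ℤ, ∃ c : ℤ, n0 ≤ c ∧ st c 0 ∈ R ∧ (∀ v ∈ R, lam v = c → s v = s (st c 0)) ∧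
      ∀ v ∈ R, lam v = c → t v = t (st c 0)) : t = s ∨ t = -s := by
  have key : ∀ n0 : ℤ, ∃ c : ℤ, n0 ≤ c ∧ ∃ r : ℝ, (r = 1 ∨ r = -1) ∧
      ∀ v : Site k, lam v ≤ c → s v = r * t v := by
    intro n0
    obtain ⟨c, hc, hst, h1, h2⟩ := h n0
    have hr : s (st c 0) * t (st c 0) = 1 ∨ s (st c 0) * t (st c 0) = -1 :=
      pm_mul (hs.1.1 _ hst) (ht.1.1 _ hst)
    refine ⟨c, hc, _, hr, ?_⟩
    have hfi : (R ∩ {v | lam v ≤ c}).Finite := by
      have := (hfin c).image (fun x : R => x.1)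
      refine this.subset ?_
      rintro v ⟨hv, hl⟩
      exact ⟨⟨v, hv⟩, hl, rfl⟩
    have hstep : ∀ e : Bond k, lam (bb e) = lam (aa e) ∨ lam (bb e) = lam (aa e) + 1 := by
      intro e
      have h5 : lam (bb e) = lam (aa e) + lam (eu e.2 : Site k) := lam_add _ _
      rcases lam_eu_mem e.2 with h6 | h6 <;> rw [h6] at h5
      · left; omega
      · right; omega
    refine agree hs ht hr (Λ := {v | lam v ≤ c}) hfi ?_ ?_
    · intro e ha hb
      have ha' : lam (aa e) ≤ c := ha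
      have hb' : ¬ lam (bb e) ≤ c := hb
      have h0 : lam (aa e) = c := by rcases hstep e with h5 | h5 <;> omega
      by_cases hR : aa e ∈ R
      · rw [h1 _ hR h0, h2 _ hR h0]
        rcases ht.1.1 _ hst with h3 | h3 <;> rw [h3] <;> ring
      · rw [hs.1.2 _ hR, ht.1.2 _ hR, mul_zero]
    · intro e hb ha
      exfalso
      have ha' : ¬ lam (aa e) ≤ c := ha
      have hb' : lam (bb e) ≤ c := hb
      rcases hstep e with h5 | h5 <;> omega
  have hall : ∀ v, s v = (s x0 * t x0) * t v := by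
    intro v
    obtain ⟨c, hc, r, hr, h⟩ := key (max (lam v) (lam x0))
    have h1 := h v ((le_max_left _ _).trans hc)
    have h2 := h x0 ((le_max_right _ _).trans hc)
    rw [h1, h2]
    rcases ht.1.1 _ hx0 with h3 | h3 <;> rw [h3] <;> ring
  rcases hs.1.1 _ hx0 with h1 | h1 <;> rcases ht.1.1 _ hx0 with h2 | h2
  · left; funext v; rw [hall v, h1, h2]; ring
  · right; funext v; rw [Pi.neg_apply, hall v, h1, h2]; ring
  · right; funext v; rw [Pi.neg_apply, hall v, h1, h2]; ring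
  · left; funext v; rw [hall v, h1, h2]; ring

end Pool.Agent.Q234.EA.Zer
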